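import Pool.Agent.Lib.MP_ebcb3a_lc.Friedman

/-! An abstract machine with a Diophantine evaluation relation, and its laws inside HA. -/

namespace Pool.Agent.HAEP

universe u

/-- A block of `m` existential quantifiers. -/
def exs {F : ℕ → Type} {C : Type u} : ℕ → Fm F C → Fm F C
  | 0, A => A
  | m + 1, A => .ex (exs m A)

namespace Mod

variable (M : Mod)

def pr (a b : M.M.N) : M.M.N := M.M.add (M.M.mul (M.M.add a b) (M.M.add a b)) a
def num : ℕ → M.M.N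
  | 0 => M.M.zero
  | k + 1 => M.M.succ (num k)
def ins (k : ℕ) (x : M.M.N) : M.M.N := M.pr (M.num k) x

end Mod

/-- The evaluation relation of the machine and its laws in every model of PA. -/
structure Machine where
  J : Fm0
  prenex : ∃ m s t, J = exs m (.eq s t)
  R : (M : Mod) → M.M.N → M.M.N → M.M.N → Prop
  sat : ∀ M p e v, J.Sat M.M Empty.elim (scons p (scons e (scons v fun _ => M.M.zero))) ↔ R M p e v
  k : ∀ M t e v, R M (M.ins 0 t) e v ↔ v = t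
  id : ∀ M e v, R M (M.ins 1 M.M.zero) e v ↔ v = e
  fst : ∀ M a b v, R M (M.ins 2 M.M.zero) (M.pr a b) v ↔ v = a
  snd : ∀ M a b v, R M (M.ins 3 M.M.zero) (M.pr a b) v ↔ v = b
  rsucc : ∀ M e v, R M (M.ins 4 M.M.zero) e v ↔ v = M.M.succ e
  radd : ∀ M a b v, R M (M.ins 5 M.M.zero) (M.pr a b) v ↔ v = M.M.add a b
  rmul : ∀ M a b v, R M (M.ins 6 M.M.zero) (M.pr a b) v ↔ v = M.M.mul a b
  pair : ∀ M p q e v, R M (M.ins 7 (M.pr p q)) e v ↔ ∃ a b, R M p e a ∧ R M q e b ∧ v = M.pr a b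
  comp : ∀ M p q e v, R M (M.ins 8 (M.pr p q)) e v ↔ ∃ u, R M q e u ∧ R M p u v
  app : ∀ M p e x v, R M (M.ins 9 M.M.zero) (M.pr (M.pr p e) x) v ↔ R M p (M.pr e x) v
  case0 : ∀ M p q e b v,
    R M (M.ins 10 (M.pr p q)) (M.pr e (M.pr M.M.zero b)) v ↔ R M p (M.pr e b) v
  caseS : ∀ M p q e n b v,
    R M (M.ins 10 (M.pr p q)) (M.pr e (M.pr (M.M.succ n) b)) v ↔ R M q (M.pr e b) v
  rec0 : ∀ M p q e v, R M (M.ins 11 (M.pr p q)) (M.pr e M.M.zero) v ↔ R M p e v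
  recS : ∀ M p q e n v, R M (M.ins 11 (M.pr p q)) (M.pr e (M.M.succ n)) v ↔
    ∃ u, R M (M.ins 11 (M.pr p q)) (M.pr e n) u ∧ R M q (M.pr (M.pr e n) u) v

variable {F : ℕ → Type} {C : Type u}

def pr (s t : Tm F C) : Tm F C := .add (.mul (.add s t) (.add s t)) s
def num : ℕ → Tm F C
  | 0 => .zero
  | k + 1 => .succ (num k)
def ins (k : ℕ) (x : Tm F C) : Tm F C := pr (num k) x

@[simp] theorem pr_subst (s t : Tm F C) (σ) : (pr s t).subst σ = pr (s.subst σ) (t.subst σ) := rfl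
@[simp] theorem num_subst (k) (σ : ℕ → Tm F C) : (num k).subst σ = num k := by
  induction k <;> simp_all [num]
@[simp] theorem ins_subst (k) (t : Tm F C) (σ) : (ins k t).subst σ = ins k (t.subst σ) := by
  simp [ins]
@[simp] theorem pr_shift (s t : Tm F C) : (pr s t).shift = pr s.shift t.shift := rfl
@[simp] theorem ins_shift (k) (t : Tm F C) : (ins k t).shift = ins k t.shift := ins_subst _ _ _

/-- Reading a term of the basic language in a richer language. -/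
def Tm.emb (t : Tm0) (σ : ℕ → Tm F C) : Tm F C := t.tr (fun _ f => f.elim) Empty.elim σ
/-- Reading a formula of the basic language in a richer language. -/
def Fm.emb (A : Fm0) (σ : ℕ → Tm F C) : Fm F C := A.tr (fun _ f => f.elim) Empty.elim σ

theorem Fm.tr_eq_emb (A : Fm0) (g : Empty → Tm F C) (σ : ℕ → Tm F C) :
    A.tr (fun _ f => f.elim) g σ = A.emb σ := by
  rw [Fm.emb, show g = Empty.elim from funext fun c => c.elim]

@[simp] theorem emb_var (i) (σ : ℕ → Tm F C) : (Tm.var i : Tm0).emb σ = σ i := rfl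
@[simp] theorem emb_zero (σ : ℕ → Tm F C) : (Tm.zero : Tm0).emb σ = .zero := rfl
@[simp] theorem emb_succ (t) (σ : ℕ → Tm F C) : (Tm.succ t : Tm0).emb σ = .succ (t.emb σ) := rfl
@[simp] theorem emb_add (s t) (σ : ℕ → Tm F C) :
    (Tm.add s t : Tm0).emb σ = .add (s.emb σ) (t.emb σ) := rfl
@[simp] theorem emb_mul (s t) (σ : ℕ → Tm F C) :
    (Tm.mul s t : Tm0).emb σ = .mul (s.emb σ) (t.emb σ) := rfl
@[simp] theorem emb_pr (s t) (σ : ℕ → Tm F C) : (pr s t : Tm0).emb σ = pr (s.emb σ) (t.emb σ) := rfl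
@[simp] theorem emb_num (k) (σ : ℕ → Tm F C) : (num k : Tm0).emb σ = num k := by
  induction k <;> simp_all [num]
@[simp] theorem emb_ins (k t) (σ : ℕ → Tm F C) : (ins k t : Tm0).emb σ = ins k (t.emb σ) := by
  simp [ins]
@[simp] theorem emb_eq (s t) (σ : ℕ → Tm F C) :
    (Fm.eq s t : Fm0).emb σ = .eq (s.emb σ) (t.emb σ) := rfl
@[simp] theorem emb_and (A B) (σ : ℕ → Tm F C) :
    (Fm.and A B : Fm0).emb σ = .and (A.emb σ) (B.emb σ) := rfl
@[simp] theorem emb_ex (A) (σ : ℕ → Tm F C) : (Fm.ex A : Fm0).emb σ = .ex (A.emb (up σ)) :=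
  congrArg Fm.ex (Fm.tr_eq_emb _ _ _)

theorem Fm.emb_subst (A : Fm0) (σ τ : ℕ → Tm F C) :
    (A.emb σ).subst τ = A.emb (fun i => (σ i).subst τ) := by
  rw [Fm.emb, Fm.tr_subst, Fm.tr_eq_emb]

theorem Fm.subst_emb (A : Fm0) (τ : ℕ → Tm0) (σ : ℕ → Tm F C) :
    (A.subst τ).emb σ = A.emb (fun i => (τ i).emb σ) := Fm.subst_tr _ _ _ _ _

theorem ind_tr {L L' : Lang} {C' : Type*} (h : ∀ n, L.F n → L'.F n) (g : C → Tm L'.F C') (σ)
    (A : Fm L.F C) {Γ} : Pf (HA L' C') Γ (Fm.tr h g σ (.imp (A.inst .zero)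
      (.imp (.all (.imp A (A.subst (scons (.succ (.var 0)) (fun i => .var (i + 1)))))) (.all A)))) := by
  have := Pf.ax (Γ := Γ) (T := HA L' C') Tm.var
    (HAx.ind (A.tr h (fun c => (g c).shift) (up σ)))
  rw [Fm.subst_id] at this
  simp only [Fm.tr, Fm.inst_tr]
  refine Eq.mp ?_ this
  congr 4
  simp only [Fm.subst_tr, Fm.tr_subst, Tm.shift_subst_scons, up_subst_scons]
  refine congrArg (fun x => Fm.imp (Fm.tr h (fun c => (g c).shift) (up σ) A)
    (Fm.tr h (fun c => (g c).shift) x A)) ?_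
  funext i; cases i <;> rfl

theorem ha0_emb {L : Lang} {B : Fm0} (h : B ∈ HA0) (σ : ℕ → Tm L.F C) :
    Pf (HA L C) [] (B.emb σ) :=
  match B, h with
  | _, .succ_ne_zero => .ax σ HAx.succ_ne_zero
  | _, .succ_inj => .ax σ HAx.succ_inj
  | _, .add_zero => .ax σ HAx.add_zero
  | _, .add_succ => .ax σ HAx.add_succ
  | _, .mul_zero => .ax σ HAx.mul_zero
  | _, .mul_succ => .ax σ HAx.mul_succ
  | _, .ind A => ind_tr (L := Lang.basic) _ _ σ A
  | _, .expl f _ _ => f.elim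
  | _, .prec_zero f _ _ _ => f.elim
  | _, .prec_succ f _ _ _ => f.elim

theorem transfer {L : Lang} {T : Set (Fm L.F C)} (hT : HA L C ⊆ T) {X Y : Fm0} (hX : Coh X)
    (hY : Coh Y) (h : ∀ (M : Mod) ρ, X.Sat M.M Empty.elim ρ → Y.Sat M.M Empty.elim ρ)
    (σ : ℕ → Tm L.F C) {Δ} (k : Pf T Δ (X.emb σ)) : Pf T Δ (Y.emb σ) :=
  (coh_imp hX hY h).tr _ (fun _ => True) (fun _ _ => trivial)
    (fun B hB g σ _ => by rw [Fm.tr_eq_emb]; exact (ha0_emb hB σ).monoT hT) _ σ Δ trivial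
    (fun B hB => by rw [List.mem_singleton.1 hB]; exact k)

theorem api {L : Lang} {T : Set (Fm L.F C)} (hT : HA L C ⊆ T) {X Y : Fm0} (hX : Coh X)
    (hY : Coh Y) (h : ∀ (M : Mod) ρ, X.Sat M.M Empty.elim ρ ↔ Y.Sat M.M Empty.elim ρ)
    (σ : ℕ → Tm L.F C) {Δ} : Pf T Δ (X.emb σ) ↔ Pf T Δ (Y.emb σ) :=
  ⟨transfer hT hX hY (fun M ρ => (h M ρ).1) σ, transfer hT hY hX (fun M ρ => (h M ρ).2) σ⟩

namespace Machine

variable (K : Machine)

/-- `p` applied to `e` evaluates to `v`. -/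
def Jf (p e v : Tm F C) : Fm F C := K.J.emb (scons p (scons e (scons v fun _ => .zero)))
def J0 (p e v : Tm0) : Fm0 := K.J.subst (scons p (scons e (scons v fun _ => .zero)))

@[simp] theorem Jf_subst (p e v : Tm F C) (σ) :
    (K.Jf p e v).subst σ = K.Jf (p.subst σ) (e.subst σ) (v.subst σ) := by
  simp [Jf, Fm.emb_subst]

@[simp] theorem J0_emb (p e v : Tm0) (σ : ℕ → Tm F C) :
    (K.J0 p e v).emb σ = K.Jf (p.emb σ) (e.emb σ) (v.emb σ) := by
  simp only [J0, Jf, Fm.subst_emb, scons_comp (fun t : Tm0 => t.emb σ)]; rfl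

theorem coh_J0 (p e v : Tm0) : Coh (K.J0 p e v) := by
  obtain ⟨m, s, t, h⟩ := K.prenex
  refine Coh.subst ?_ _
  rw [h]; clear h
  induction m with
  | zero => exact .eq _ _
  | succ m ih => exact .ex ih

theorem sat_J0 (p e v : Tm0) (M : Mod) (ρ) : (K.J0 p e v).Sat M.M Empty.elim ρ ↔
    K.R M (p.ev M.M Empty.elim ρ) (e.ev M.M Empty.elim ρ) (v.ev M.M Empty.elim ρ) := by
  rw [J0, Fm.sat_subst, ← K.sat]
  simp only [scons_comp (fun t : Tm0 => t.ev M.M Empty.elim ρ)]; rfl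

end Machine

theorem ev_pr (M : Mod) (s t : Tm0) (ρ) :
    (pr s t).ev M.M Empty.elim ρ = M.pr (s.ev M.M Empty.elim ρ) (t.ev M.M Empty.elim ρ) := rfl
theorem ev_ins (M : Mod) (k) (t : Tm0) (ρ) :
    (ins k t).ev M.M Empty.elim ρ = M.ins k (t.ev M.M Empty.elim ρ) := by
  have : (num k : Tm0).ev M.M Empty.elim ρ = M.num k := by
    induction k <;> simp_all [num, Mod.num, Tm.ev]
  simp only [ins, ev_pr, this, Mod.ins]

namespace Machine

variable (K : Machine) {L : Lang} {T : Set (Fm L.F C)} (hT : HA L C ⊆ T) {Δ : List (Fm L.F C)}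
include hT

open Tm in
theorem J_k (t e v) : Pf T Δ (K.Jf (ins 0 t) e v) ↔ Pf T Δ (.eq v t) := by
  simpa using api hT (K.coh_J0 (ins 0 (var 0)) (var 1) (var 2)) (.eq (var 2) (var 0))
    (fun M ρ => by simp [K.sat_J0, ev_ins, Tm.ev, Fm.Sat, K.k])
    (scons t (scons e fun _ => v))

open Tm in
theorem J_id (e v) : Pf T Δ (K.Jf (ins 1 zero) e v) ↔ Pf T Δ (.eq v e) := by
  simpa using api hT (K.coh_J0 (ins 1 zero) (var 0) (var 1)) (.eq (var 1) (var 0))
    (fun M ρ => by simp [K.sat_J0, ev_ins, Tm.ev, Fm.Sat, K.id])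
    (scons e fun _ => v)

open Tm in
theorem J_fst (a b v) : Pf T Δ (K.Jf (ins 2 zero) (pr a b) v) ↔ Pf T Δ (.eq v a) := by
  simpa using api hT (K.coh_J0 (ins 2 zero) (pr (var 0) (var 1)) (var 2)) (.eq (var 2) (var 0))
    (fun M ρ => by simp [K.sat_J0, ev_ins, ev_pr, Tm.ev, Fm.Sat, K.fst])
    (scons a (scons b fun _ => v))

open Tm in
theorem J_snd (a b v) : Pf T Δ (K.Jf (ins 3 zero) (pr a b) v) ↔ Pf T Δ (.eq v b) := by
  simpa using api hT (K.coh_J0 (ins 3 zero) (pr (var 0) (var 1)) (var 2)) (.eq (var 2) (var 1))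
    (fun M ρ => by simp [K.sat_J0, ev_ins, ev_pr, Tm.ev, Fm.Sat, K.snd])
    (scons a (scons b fun _ => v))

open Tm in
theorem J_succ (e v) : Pf T Δ (K.Jf (ins 4 zero) e v) ↔ Pf T Δ (.eq v (succ e)) := by
  simpa using api hT (K.coh_J0 (ins 4 zero) (var 0) (var 1)) (.eq (var 1) (succ (var 0)))
    (fun M ρ => by simp [K.sat_J0, ev_ins, Tm.ev, Fm.Sat, K.rsucc])
    (scons e fun _ => v)

open Tm in
theorem J_add (a b v) : Pf T Δ (K.Jf (ins 5 zero) (pr a b) v) ↔ Pf T Δ (.eq v (add a b)) := by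
  simpa using api hT (K.coh_J0 (ins 5 zero) (pr (var 0) (var 1)) (var 2))
    (.eq (var 2) (add (var 0) (var 1)))
    (fun M ρ => by simp [K.sat_J0, ev_ins, ev_pr, Tm.ev, Fm.Sat, K.radd])
    (scons a (scons b fun _ => v))

open Tm in
theorem J_mul (a b v) : Pf T Δ (K.Jf (ins 6 zero) (pr a b) v) ↔ Pf T Δ (.eq v (mul a b)) := by
  simpa using api hT (K.coh_J0 (ins 6 zero) (pr (var 0) (var 1)) (var 2))
    (.eq (var 2) (mul (var 0) (var 1)))
    (fun M ρ => by simp [K.sat_J0, ev_ins, ev_pr, Tm.ev, Fm.Sat, K.rmul])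
    (scons a (scons b fun _ => v))

open Tm in
theorem J_pair (p q e v) : Pf T Δ (K.Jf (ins 7 (pr p q)) e v) ↔
    Pf T Δ (.ex (.ex (.and (K.Jf p.shift.shift e.shift.shift (var 1))
      (.and (K.Jf q.shift.shift e.shift.shift (var 0))
        (.eq v.shift.shift (pr (var 1) (var 0))))))) := by
  simpa using api hT (K.coh_J0 (ins 7 (pr (var 0) (var 1))) (var 2) (var 3))
    (.ex (.ex (.and (K.coh_J0 (var 2) (var 4) (var 1)) (.and (K.coh_J0 (var 3) (var 4) (var 0))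
      (.eq (var 5) (pr (var 1) (var 0)))))))
    (fun M ρ => by simp [K.sat_J0, ev_ins, ev_pr, Tm.ev, Fm.Sat, K.pair])
    (scons p (scons q (scons e fun _ => v)))

open Tm in
theorem J_comp (p q e v) : Pf T Δ (K.Jf (ins 8 (pr p q)) e v) ↔
    Pf T Δ (.ex (.and (K.Jf q.shift e.shift (var 0)) (K.Jf p.shift (var 0) v.shift))) := by
  simpa using api hT (K.coh_J0 (ins 8 (pr (var 0) (var 1))) (var 2) (var 3))
    (.ex (.and (K.coh_J0 (var 2) (var 3) (var 0)) (K.coh_J0 (var 1) (var 0) (var 4))))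
    (fun M ρ => by simp [K.sat_J0, ev_ins, ev_pr, Tm.ev, Fm.Sat, K.comp])
    (scons p (scons q (scons e fun _ => v)))

open Tm in
theorem J_app (p e x v) : Pf T Δ (K.Jf (ins 9 zero) (pr (pr p e) x) v) ↔
    Pf T Δ (K.Jf p (pr e x) v) := by
  simpa using api hT (K.coh_J0 (ins 9 zero) (pr (pr (var 0) (var 1)) (var 2)) (var 3))
    (K.coh_J0 (var 0) (pr (var 1) (var 2)) (var 3))
    (fun M ρ => by simp [K.sat_J0, ev_ins, ev_pr, Tm.ev, K.app])
    (scons p (scons e (scons x fun _ => v)))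

open Tm in
theorem J_case0 (p q e b v) : Pf T Δ (K.Jf (ins 10 (pr p q)) (pr e (pr zero b)) v) ↔
    Pf T Δ (K.Jf p (pr e b) v) := by
  simpa using api hT (K.coh_J0 (ins 10 (pr (var 0) (var 1))) (pr (var 2) (pr zero (var 3))) (var 4))
    (K.coh_J0 (var 0) (pr (var 2) (var 3)) (var 4))
    (fun M ρ => by simp [K.sat_J0, ev_ins, ev_pr, Tm.ev, K.case0])
    (scons p (scons q (scons e (scons b fun _ => v))))

open Tm in
theorem J_caseS (p q e b v) : Pf T Δ (K.Jf (ins 10 (pr p q)) (pr e (pr (succ zero) b)) v) ↔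
    Pf T Δ (K.Jf q (pr e b) v) := by
  simpa using api hT
    (K.coh_J0 (ins 10 (pr (var 0) (var 1))) (pr (var 2) (pr (succ zero) (var 3))) (var 4))
    (K.coh_J0 (var 1) (pr (var 2) (var 3)) (var 4))
    (fun M ρ => by simp [K.sat_J0, ev_ins, ev_pr, Tm.ev, K.caseS])
    (scons p (scons q (scons e (scons b fun _ => v))))

open Tm in
theorem J_rec0 (p q e v) : Pf T Δ (K.Jf (ins 11 (pr p q)) (pr e zero) v) ↔
    Pf T Δ (K.Jf p e v) := by
  simpa using api hT (K.coh_J0 (ins 11 (pr (var 0) (var 1))) (pr (var 2) zero) (var 3))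
    (K.coh_J0 (var 0) (var 2) (var 3))
    (fun M ρ => by simp [K.sat_J0, ev_ins, ev_pr, Tm.ev, K.rec0])
    (scons p (scons q (scons e fun _ => v)))

open Tm in
theorem J_recS (p q e n v) : Pf T Δ (K.Jf (ins 11 (pr p q)) (pr e (succ n)) v) ↔
    Pf T Δ (.ex (.and (K.Jf (ins 11 (pr p.shift q.shift)) (pr e.shift n.shift) (var 0))
      (K.Jf q.shift (pr (pr e.shift n.shift) (var 0)) v.shift))) := by
  simpa using api hT (K.coh_J0 (ins 11 (pr (var 0) (var 1))) (pr (var 2) (succ (var 3))) (var 4))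
    (.ex (.and (K.coh_J0 (ins 11 (pr (var 1) (var 2))) (pr (var 3) (var 4)) (var 0))
      (K.coh_J0 (var 2) (pr (pr (var 3) (var 4)) (var 0)) (var 5))))
    (fun M ρ => by simp [K.sat_J0, ev_ins, ev_pr, Tm.ev, Fm.Sat, K.recS])
    (scons p (scons q (scons e (scons n fun _ => v))))

end Machine

end Pool.Agent.HAEP
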