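import Pool.Agent.Lib.MP_ebcb3a_lc.Ring

/-! Division, coprimality, the Chinese remainder theorem, sequences and recursion in a model of PA. -/

namespace Pool.Agent.HAEP

variable {M : Mod}

attribute [fun_prop] DF.exFin

@[fun_prop] theorem DF.allFin {α : Type} [QB M α] {n : ℕ} {P : α → Fin n → Prop}
    (h : ∀ i, DF M fun x => P x i) : DF M fun x => ∀ i, P x i := DF.allIdx h

theorem one_le {a : ZZ M} (h : 0 < a) : 1 ≤ a := by simpa using succ_le h

theorem le_of_lt_succ {a b : ZZ M} (h : a < b + 1) : a ≤ b := by linarith [succ_le h]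

theorem sq_add_nonneg (a : ZZ M) : 0 ≤ a * a + a := by
  rcases lt_or_ge a 0 with h | h
  · have := succ_le h; nlinarith
  · positivity

theorem abs_le_sq (a : ZZ M) : |a| ≤ a * a := by
  have h1 := sq_add_nonneg a
  have h2 := sq_add_nonneg (-a)
  exact abs_le.2 ⟨by linarith, by linarith⟩

theorem exists_divmod (a : ZZ M) {m : ZZ M} (hm : 0 < m) : ∃ r, 0 ≤ r ∧ r < m ∧ m ∣ a - r := by
  have key : ∀ a, 0 ≤ a → ∃ r, 0 ≤ r ∧ r < m ∧ m ∣ a - r := by
    refine ind _ (by fun_prop) ⟨0, le_rfl, hm, by simp⟩ ?_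
    rintro a _ ⟨r, h0, h1, q, h2⟩
    rcases (succ_le h1).lt_or_eq with h | h
    · exact ⟨r + 1, by linarith, h, q, by linear_combination h2⟩
    · exact ⟨0, le_rfl, hm, q + 1, by linear_combination h2 + h⟩
  obtain ⟨r, h0, h1, q, h2⟩ := key (a + m * (a * a)) (by
    nlinarith [sq_add_nonneg a, one_le hm, mul_self_nonneg a])
  exact ⟨r, h0, h1, q - a * a, by linear_combination h2⟩

theorem dvd_zero' {m x : ZZ M} (h : m ∣ x) (h1 : -m < x) (h2 : x < m) : x = 0 := by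
  obtain ⟨c, rfl⟩ := h
  have hm : 0 < m := by linarith
  rcases lt_trichotomy c 0 with k | rfl | k
  · have := succ_le k; nlinarith
  · simp
  · have := one_le k; nlinarith

theorem le_of_dvd' {m x : ZZ M} (h : m ∣ x) (hx : 0 < x) : m ≤ x := by
  by_contra hc
  have := dvd_zero' h (by linarith [not_le.1 hc]) (not_le.1 hc)
  exact hx.ne' this

open Classical in
/-- The unique element with a property, or zero. -/
noncomputable def the (R : ZZ M → Prop) : ZZ M := if h : ∃ y, R y then h.choose else 0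

theorem the_spec {R : ZZ M → Prop} (h : ∃ y, R y) : R (the R) := by
  rw [the, dif_pos h]; exact h.choose_spec

theorem DF.the {α : Type} [QB M α] {R : α → ZZ M → Prop} (h : DF M fun x : α × ZZ M => R x.1 x.2)
    (u : ∀ x y z, R x y → R x z → y = z) : DF M fun x => the (R x) := by
  refine DF.graphZ (DF.of_iff (p := fun x : α × ZZ M => R x.1 x.2 ∨ ((¬ ∃ y, R x.1 y) ∧ x.2 = 0))
    (h.or (DF.and (DF.not (DF.exZ (h.comp (g := fun x : (α × ZZ M) × ZZ M => (x.1.1, x.2))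
      (by fun_prop)))) (by fun_prop))) fun x => ?_)
  by_cases e : ∃ y, R x.1 y
  · exact ⟨fun k => Or.inl (k ▸ the_spec e), fun k => k.elim (u _ _ _ (the_spec e)) fun k => absurd e k.1⟩
  · have : HAEP.the (R x.1) = 0 := dif_neg e
    exact ⟨fun k => Or.inr ⟨e, by rw [← k, this]⟩, fun k => k.elim (fun k => absurd ⟨_, k⟩ e)
      fun k => by rw [this, k.2]⟩

theorem rem_unique {a m r s : ZZ M} (h : 0 ≤ r ∧ r < m ∧ m ∣ a - r) (k : 0 ≤ s ∧ s < m ∧ m ∣ a - s) :
    r = s := by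
  have := dvd_zero' (x := r - s) (by simpa using dvd_sub k.2.2 h.2.2) (by linarith [h.1, k.2.1])
    (by linarith [h.2.1, k.1])
  linarith

/-- Remainder. -/
noncomputable def md (a m : ZZ M) : ZZ M := the fun r => 0 ≤ r ∧ r < m ∧ m ∣ a - r

theorem md_spec (a : ZZ M) {m : ZZ M} (hm : 0 < m) : 0 ≤ md a m ∧ md a m < m ∧ m ∣ a - md a m :=
  the_spec (exists_divmod a hm)

theorem md_eq {a m r : ZZ M} (h0 : 0 ≤ r) (h1 : r < m) (h : m ∣ a - r) : md a m = r :=
  rem_unique (md_spec a (by linarith)) ⟨h0, h1, h⟩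

@[fun_prop] theorem DF.md {α : Type} [QB M α] {f g : α → ZZ M} (hf : DF M f) (hg : DF M g) :
    DF M fun x => md (f x) (g x) := DF.the (by fun_prop) fun _ _ _ => rem_unique

theorem coprime_of {a b : ZZ M} (ha : 0 < a) (h : ∀ d, 1 < d → d ∣ a → ¬ d ∣ b) : IsCoprime a b := by
  obtain ⟨g, -, ⟨hg, x, y, e⟩, hm⟩ := least (fun g => 0 < g ∧ ∃ x y, g = x * a + y * b)
    (by fun_prop) ha.le ⟨ha, 1, 0, by ring⟩
  have dv : ∀ c u v, c = u * a + v * b → g ∣ c := by
    intro c u v hc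
    obtain ⟨r, h0, h1, q, h2⟩ := exists_divmod c hg
    rcases h0.lt_or_eq with l | rfl
    · exact absurd ⟨l, u - x * q, v - y * q, by linear_combination hc - h2 - q * e⟩ (hm r h0 h1)
    · exact ⟨q, by linear_combination h2⟩
  rcases (one_le hg).lt_or_eq with l | rfl
  · exact absurd (dv b 0 1 (by ring)) (h g l (dv a 1 0 (by ring)))
  · exact ⟨x, y, e.symm⟩

theorem not_dvd_one {d : ZZ M} (h : 1 < d) : ¬ d ∣ 1 := fun k => absurd (le_of_dvd' k one_pos) (not_le.2 h)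

theorem exists_prime {a : ZZ M} (ha : 1 < a) :
    ∃ p, 1 < p ∧ p ∣ a ∧ ∀ e, ¬ p ∣ e → IsCoprime p e := by
  obtain ⟨p, -, ⟨hp, hd⟩, hm⟩ := least (fun p => 1 < p ∧ p ∣ a) (by fun_prop) (by linarith)
    ⟨ha, dvd_rfl⟩
  refine ⟨p, hp, hd, fun e he => coprime_of (by linarith) fun d h1 h2 h3 => ?_⟩
  rcases (le_of_dvd' h2 (by linarith)).lt_or_eq with l | rfl
  · exact hm d (by linarith) l ⟨h1, h2.trans hd⟩
  · exact he h3

theorem crt {n : ℕ} (R : ZZ M → (Fin n → ZZ M) → Prop)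
    (hR : DF M fun x : ZZ M × (Fin n → ZZ M) => R x.1 x.2) (m : ZZ M → ZZ M) (hm : DF M m)
    {b : ZZ M} (hb : 0 ≤ b) (pos : ∀ i, 0 ≤ i → i < b → 0 < m i)
    (cop : ∀ i j, 0 ≤ i → i < j → j < b → IsCoprime (m i) (m j))
    (ex : ∀ i, 0 ≤ i → i < b → ∃ x, R i x) :
    ∃ z : Fin n → ZZ M, (∀ l, 0 ≤ z l) ∧ ∀ i, 0 ≤ i → i < b → ∃ x, R i x ∧ ∀ l, m i ∣ z l - x l := by
  have key := ind (fun k => k ≤ b → ∃ P, ∃ z : Fin n → ZZ M, 0 < P ∧
      (∀ i, 0 ≤ i → i < k → m i ∣ P ∧ ∃ x, R i x ∧ ∀ l, m i ∣ z l - x l) ∧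
      ∀ j, k ≤ j → j < b → IsCoprime P (m j)) (by fun_prop)
    (fun _ => ⟨1, 0, one_pos, fun i h k => absurd k (not_lt.2 h), fun _ _ _ => isCoprime_one_left⟩)
    (fun k hk ih hkb => by
      obtain ⟨P, z, hP, h1, h2⟩ := ih (by linarith)
      obtain ⟨u, v, e⟩ := h2 k le_rfl (by linarith)
      obtain ⟨x, hx⟩ := ex k hk (by linarith)
      refine ⟨P * m k, fun l => z l + (x l - z l) * u * P, mul_pos hP (pos k hk (by linarith)),
        fun i hi hik => ?_, fun j hj hjb => (h2 j (by linarith) hjb).mul_left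
          (cop k j hk (by linarith) hjb)⟩
      rcases (le_of_lt_succ hik).lt_or_eq with l | rfl
      · obtain ⟨a, y, hy, c⟩ := h1 i hi l
        refine ⟨a.mul_right _, y, hy, fun l => ?_⟩
        have := dvd_add (c l) (a.mul_left ((x l - z l) * u))
        rwa [show z l - y l + (x l - z l) * u * P = z l + (x l - z l) * u * P - y l by ring] at this
      · exact ⟨dvd_mul_left _ _, x, hx, fun l => ⟨(z l - x l) * v, by
          linear_combination (x l - z l) * e⟩⟩) b hb le_rfl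
  obtain ⟨P, z, hP, h1, -⟩ := key
  refine ⟨fun l => md (z l) P, fun l => (md_spec _ hP).1, fun i hi hib => ?_⟩
  obtain ⟨a, x, hx, c⟩ := h1 i hi hib
  refine ⟨x, hx, fun l => ?_⟩
  have := dvd_sub (c l) (a.trans (md_spec (z l) hP).2.2)
  rwa [show z l - x l - (z l - md (z l) P) = md (z l) P - x l by ring] at this

theorem collect {n : ℕ} (R : ZZ M → (Fin n → ZZ M) → Prop)
    (hR : DF M fun x : ZZ M × (Fin n → ZZ M) => R x.1 x.2) {b : ZZ M} (hb : 0 ≤ b)
    (ex : ∀ i, 0 ≤ i → i < b → ∃ x, R i x) :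
    ∃ w, 0 < w ∧ ∀ i, 0 ≤ i → i < b → ∃ x, R i x ∧ ∀ l, -w < x l ∧ x l < w := by
  refine ind (fun k => k ≤ b → ∃ w, 0 < w ∧ ∀ i, 0 ≤ i → i < k →
      ∃ x, R i x ∧ ∀ l, -w < x l ∧ x l < w) (by fun_prop)
    (fun _ => ⟨1, one_pos, fun i h k => absurd k (not_lt.2 h)⟩) (fun k hk ih hkb => ?_) b hb le_rfl
  obtain ⟨w, hw, h1⟩ := ih (by linarith)
  obtain ⟨x, hx⟩ := ex k hk (by linarith)
  have hs : 0 ≤ ∑ l, |x l| := Finset.sum_nonneg fun _ _ => abs_nonneg _
  refine ⟨w + ∑ l, |x l|, by linarith, fun i hi hik => ?_⟩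
  rcases (le_of_lt_succ hik).lt_or_eq with l | rfl
  · obtain ⟨y, hy, c⟩ := h1 i hi l
    exact ⟨y, hy, fun l => ⟨by linarith [(c l).1], by linarith [(c l).2]⟩⟩
  · refine ⟨x, hx, fun l => ?_⟩
    have := abs_le.1 (Finset.single_le_sum (f := fun l => |x l|) (fun _ _ => abs_nonneg _)
      (Finset.mem_univ l))
    exact ⟨by linarith [this.1], by linarith [this.2]⟩

theorem exists_mult {n : ZZ M} (hn : 0 ≤ n) : ∃ f, 0 < f ∧ ∀ d, 0 < d → d ≤ n → d ∣ f := by
  refine ind (fun n => ∃ f, 0 < f ∧ ∀ d, 0 < d → d ≤ n → d ∣ f) (by fun_prop)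
    ⟨1, one_pos, fun d h k => absurd k (not_le.2 h)⟩ ?_ n hn
  rintro a ha ⟨f, hf, h⟩
  refine ⟨f * (a + 1), by positivity, fun d h0 h1 => ?_⟩
  rcases h1.lt_or_eq with l | rfl
  · exact (h d h0 (le_of_lt_succ l)).mul_right _
  · exact dvd_mul_left _ _

/-- Goedel's function for coding sequences. -/
noncomputable def bt (c d s i : ZZ M) : ZZ M := md c (1 + (i + 1) * d) - s

@[fun_prop] theorem DF.bt {α : Type} [QB M α] {c d s i : α → ZZ M} (hc : DF M c) (hd : DF M d)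
    (hs : DF M s) (hi : DF M i) : DF M fun x => bt (c x) (d x) (s x) (i x) := by
  unfold HAEP.bt; fun_prop

theorem exists_seq (t : ZZ M → ZZ M) (ht : DF M t) {n : ZZ M} (hn : 0 ≤ n) :
    ∃ c d s, 0 ≤ d ∧ ∀ i, 0 ≤ i → i < n → bt c d s i = t i := by
  obtain ⟨w, hw, hB⟩ := collect (n := 1) (fun i x => x 0 = t i) (by fun_prop) hn
    fun i _ _ => ⟨fun _ => t i, rfl⟩
  obtain ⟨f, hf, hd⟩ := exists_mult hn
  have hp : ∀ i, 0 ≤ i → 0 < 1 + (i + 1) * (f * (2 * w)) := fun i hi => by positivity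
  obtain ⟨z, -, hz⟩ := crt (n := 1) (fun i x => x 0 = t i + w) (by fun_prop)
    (fun i => 1 + (i + 1) * (f * (2 * w))) (by fun_prop) hn (fun i hi _ => hp i hi)
    (fun i j hi hij hj => coprime_of (hp i hi) fun e h1 h2 h3 => by
      have h4 : e ∣ j - i := by
        have := dvd_sub (h2.mul_left (j + 1)) (h3.mul_left (i + 1))
        rwa [show (j + 1) * (1 + (i + 1) * (f * (2 * w))) - (i + 1) * (1 + (j + 1) * (f * (2 * w)))
          = j - i by ring] at this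
      have h5 := h4.trans (hd _ (by linarith) (by linarith))
      exact not_dvd_one h1 ((dvd_add_left ((h5.mul_right _).mul_left _)).1 h2))
    fun i _ _ => ⟨fun _ => t i + w, rfl⟩
  refine ⟨z 0, f * (2 * w), w, by positivity, fun i hi hin => ?_⟩
  obtain ⟨x, hx, h⟩ := hz i hi hin
  obtain ⟨y, hy, k⟩ := hB i hi hin
  have h1 := k 0
  rw [hy] at h1
  have h2 : 0 ≤ (i + 1) * f - 1 := by nlinarith [one_le hf, mul_nonneg hi hf.le]
  rw [bt, md_eq (r := t i + w) (by linarith) (by nlinarith) (hx ▸ h 0)]; ring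

/-- `v` is the value at `n` of the recursion with start `a` and step `G`. -/
def Rec (G : ZZ M → ZZ M → ZZ M) (a n v : ZZ M) : Prop :=
  ∃ c d s, bt c d s 0 = a ∧ bt c d s n = v ∧
    (0 ≤ n ∧ ∀ i, 0 ≤ i → i < n → bt c d s (i + 1) = G i (bt c d s i))

theorem Rec.unique {G : ZZ M → ZZ M → ZZ M} {a n v w : ZZ M} (h : Rec G a n v) (k : Rec G a n w) :
    v = w := by
  obtain ⟨c, d, s, h0, rfl, hn, h1⟩ := h
  obtain ⟨c', d', s', k0, rfl, -, k1⟩ := k
  exact ind (fun i => i ≤ n → bt c d s i = bt c' d' s' i) (by fun_prop) (fun _ => h0.trans k0.symm)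
    (fun i hi ih hin => by rw [h1 i hi (by linarith), k1 i hi (by linarith), ih (by linarith)])
    n hn le_rfl

theorem Rec.zero (G : ZZ M → ZZ M → ZZ M) (a : ZZ M) : Rec G a 0 a := by
  obtain ⟨c, d, s, -, h⟩ := exists_seq (fun _ => a) (by fun_prop) zero_le_one
  exact ⟨c, d, s, h 0 le_rfl one_pos, h 0 le_rfl one_pos, le_rfl, fun i h k => absurd k (not_lt.2 h)⟩

theorem Rec.succ {G : ZZ M → ZZ M → ZZ M} {a n v : ZZ M} (h : Rec G a n v) :
    Rec G a (n + 1) (G n v) := by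
  obtain ⟨c, d, s, h0, rfl, hn, h1⟩ := h
  obtain ⟨c', d', s', -, h⟩ := exists_seq
    (fun i => if i ≤ n then bt c d s i else G n (bt c d s n)) (by fun_prop) (n := n + 2) (by linarith)
  refine ⟨c', d', s', ?_, ?_, by linarith, fun i hi hin => ?_⟩
  · rw [h 0 le_rfl (by linarith), if_pos hn, h0]
  · rw [h _ (by linarith) (by linarith), if_neg (by linarith)]
  · have l := le_of_lt_succ hin
    rw [h _ (by linarith) (by linarith), h i hi (by linarith), if_pos l]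
    rcases l.lt_or_eq with l | rfl
    · rw [if_pos (succ_le l), h1 i hi l]
    · rw [if_neg (by linarith)]

/-- Definition by recursion. -/
noncomputable def rec1 (G : ZZ M → ZZ M → ZZ M) (a n : ZZ M) : ZZ M := the (Rec G a n)

theorem rec1_zero (G : ZZ M → ZZ M → ZZ M) (a : ZZ M) : rec1 G a 0 = a :=
  (the_spec ⟨_, Rec.zero G a⟩).unique (Rec.zero G a)

theorem rec1_succ {G : ZZ M → ZZ M → ZZ M} (hG : DF M fun x : ZZ M × ZZ M => G x.1 x.2) (a : ZZ M)
    {n : ZZ M} (hn : 0 ≤ n) : rec1 G a (n + 1) = G n (rec1 G a n) := by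
  have := ind (fun n => ∃ v, Rec G a n v) (by unfold Rec; fun_prop) ⟨_, Rec.zero G a⟩
    (fun n _ ⟨v, h⟩ => ⟨_, h.succ⟩) n hn
  have h := (the_spec this).succ
  exact (the_spec ⟨_, h⟩).unique h

theorem DF.rec1 {α : Type} [QB M α] {G : α → ZZ M → ZZ M → ZZ M} {a n : α → ZZ M}
    (hG : DF M fun x : α × ZZ M × ZZ M => G x.1 x.2.1 x.2.2) (ha : DF M a) (hn : DF M n) :
    DF M fun x => rec1 (G x) (a x) (n x) := by
  refine DF.the ?_ fun _ _ _ => Rec.unique
  unfold Rec; fun_prop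

end Pool.Agent.HAEP
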