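import Pool.Agent.Lib.MP_ebcb3a_lc.Defs

/-! Substitution, translation between languages, structural and admissible rules. -/

set_option warning.simp.otherHead false

namespace Pool.Agent.HAEP

universe u v w

variable {F F' : ℕ → Type} {C : Type u} {C' : Type w}

@[simp] theorem scons_zero {α : Type u} (a : α) (s : ℕ → α) : scons a s 0 = a := rfl
@[simp] theorem scons_succ {α : Type u} (a : α) (s : ℕ → α) (i : ℕ) : scons a s (i + 1) = s i := rfl
@[simp] theorem scons_one {α : Type u} (a : α) (s : ℕ → α) : scons a s 1 = s 0 := rfl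
@[simp] theorem scons_two {α : Type u} (a : α) (s : ℕ → α) : scons a s 2 = s 1 := rfl
@[simp] theorem scons_three {α : Type u} (a : α) (s : ℕ → α) : scons a s 3 = s 2 := rfl
@[simp] theorem scons_four {α : Type u} (a : α) (s : ℕ → α) : scons a s 4 = s 3 := rfl
@[simp] theorem scons_five {α : Type u} (a : α) (s : ℕ → α) : scons a s 5 = s 4 := rfl
@[simp] theorem scons_six {α : Type u} (a : α) (s : ℕ → α) : scons a s 6 = s 5 := rfl

theorem scons_comp {α : Type u} {β : Type w} (f : α → β) (a : α) (s : ℕ → α) :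
    (fun i => f (scons a s i)) = scons (f a) (fun i => f (s i)) := by
  funext i; cases i <;> rfl

/-- Lifting a substitution under a binder. -/
def up (σ : ℕ → Tm F C) : ℕ → Tm F C := scons (.var 0) (fun i => (σ i).shift)

@[simp] theorem up_zero (σ : ℕ → Tm F C) : up σ 0 = .var 0 := rfl
@[simp] theorem up_succ (σ : ℕ → Tm F C) (i : ℕ) : up σ (i + 1) = (σ i).shift := rfl
@[simp] theorem up_one (σ : ℕ → Tm F C) : up σ 1 = (σ 0).shift := rfl
@[simp] theorem up_two (σ : ℕ → Tm F C) : up σ 2 = (σ 1).shift := rfl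
@[simp] theorem up_three (σ : ℕ → Tm F C) : up σ 3 = (σ 2).shift := rfl
@[simp] theorem up_four (σ : ℕ → Tm F C) : up σ 4 = (σ 3).shift := rfl
@[simp] theorem up_five (σ : ℕ → Tm F C) : up σ 5 = (σ 4).shift := rfl

namespace Tm

@[simp] theorem subst_var (σ : ℕ → Tm F C) (i) : (var i).subst σ = σ i := rfl
@[simp] theorem subst_cst (σ : ℕ → Tm F C) (c) : (cst c).subst σ = cst c := rfl
@[simp] theorem subst_zero (σ : ℕ → Tm F C) : (zero).subst σ = zero := rfl
@[simp] theorem subst_succ (σ : ℕ → Tm F C) (t) : (succ t).subst σ = succ (t.subst σ) := rfl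
@[simp] theorem subst_add (σ : ℕ → Tm F C) (s t) :
    (add s t).subst σ = add (s.subst σ) (t.subst σ) := rfl
@[simp] theorem subst_mul (σ : ℕ → Tm F C) (s t) :
    (mul s t).subst σ = mul (s.subst σ) (t.subst σ) := rfl
@[simp] theorem subst_app (σ : ℕ → Tm F C) {n} (f : F n) (ts) :
    (app f ts).subst σ = app f (fun i => (ts i).subst σ) := rfl

theorem subst_subst (σ τ : ℕ → Tm F C) (t : Tm F C) :
    (t.subst σ).subst τ = t.subst (fun i => (σ i).subst τ) := by
  induction t <;> simp_all

@[simp] theorem subst_id (t : Tm F C) : t.subst var = t := by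
  induction t <;> simp_all

@[simp] theorem shift_subst_scons (a) (σ : ℕ → Tm F C) (t : Tm F C) :
    t.shift.subst (scons a σ) = t.subst σ := by
  simp [shift, subst_subst]

@[simp] theorem shift_subst_up (σ : ℕ → Tm F C) (t : Tm F C) :
    t.shift.subst (up σ) = (t.subst σ).shift := by
  simp [shift, subst_subst, up]

@[simp] theorem shift_var (i) : (var i : Tm F C).shift = var (i + 1) := rfl
@[simp] theorem shift_cst (c) : (cst c : Tm F C).shift = cst c := rfl
@[simp] theorem shift_zero : (zero : Tm F C).shift = zero := rfl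
@[simp] theorem shift_succ (t : Tm F C) : (succ t).shift = succ t.shift := rfl
@[simp] theorem shift_add (s t : Tm F C) : (add s t).shift = add s.shift t.shift := rfl
@[simp] theorem shift_mul (s t : Tm F C) : (mul s t).shift = mul s.shift t.shift := rfl
@[simp] theorem shift_app {n} (f : F n) (ts : Fin n → Tm F C) :
    (app f ts).shift = app f (fun i => (ts i).shift) := rfl

theorem Below.mono {m n} (h : m ≤ n) {t : Tm F C} (ht : t.Below m) : t.Below n := by
  induction t with
  | var i => exact lt_of_lt_of_le ht h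
  | cst => trivial
  | zero => trivial
  | succ t ih => exact ih ht
  | add s t ihs iht => exact ⟨ihs ht.1, iht ht.2⟩
  | mul s t ihs iht => exact ⟨ihs ht.1, iht ht.2⟩
  | app f ts ih => exact fun i => ih i (ht i)

theorem exists_below (t : Tm F C) : ∃ n, t.Below n := by
  induction t with
  | var i => exact ⟨i + 1, Nat.lt_succ_self i⟩
  | cst => exact ⟨0, trivial⟩
  | zero => exact ⟨0, trivial⟩
  | succ t ih => exact ih
  | add s t ihs iht =>
    obtain ⟨a, ha⟩ := ihs; obtain ⟨b, hb⟩ := iht
    exact ⟨max a b, ha.mono (le_max_left _ _), hb.mono (le_max_right _ _)⟩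
  | mul s t ihs iht =>
    obtain ⟨a, ha⟩ := ihs; obtain ⟨b, hb⟩ := iht
    exact ⟨max a b, ha.mono (le_max_left _ _), hb.mono (le_max_right _ _)⟩
  | app f ts ih =>
    choose g hg using ih
    exact ⟨Finset.univ.sup g, fun i => (hg i).mono (Finset.le_sup (Finset.mem_univ i))⟩

theorem Below.congr {n} {t : Tm F C} (ht : t.Below n) {σ τ : ℕ → Tm F C}
    (h : ∀ i < n, σ i = τ i) : t.subst σ = t.subst τ := by
  induction t with
  | var i => exact h i ht
  | cst => rfl
  | zero => rfl
  | succ t ih => simp [ih ht]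
  | add s t ihs iht => simp [ihs ht.1, iht ht.2]
  | mul s t ihs iht => simp [ihs ht.1, iht ht.2]
  | app f ts ih => simp only [subst_app]; congr 1; funext i; exact ih i (ht i)

theorem Below.subst {n m} {t : Tm F C} (ht : t.Below n) {σ : ℕ → Tm F C}
    (h : ∀ i < n, (σ i).Below m) : (t.subst σ).Below m := by
  induction t with
  | var i => exact h i ht
  | cst => trivial
  | zero => trivial
  | succ t ih => exact ih ht
  | add s t ihs iht => exact ⟨ihs ht.1, iht ht.2⟩
  | mul s t ihs iht => exact ⟨ihs ht.1, iht ht.2⟩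
  | app f ts ih => exact fun i => ih i (ht i)

/-- Translation: symbols along `h`, constants along `g`, variables along `σ`. -/
def tr (h : ∀ n, F n → F' n) (g : C → Tm F' C') (σ : ℕ → Tm F' C') : Tm F C → Tm F' C'
  | .var i => σ i
  | .cst c => g c
  | .zero => .zero
  | .succ t => .succ (t.tr h g σ)
  | .add s t => .add (s.tr h g σ) (t.tr h g σ)
  | .mul s t => .mul (s.tr h g σ) (t.tr h g σ)
  | .app f ts => .app (h _ f) (fun i => (ts i).tr h g σ)

theorem tr_subst (h : ∀ n, F n → F' n) (g : C → Tm F' C') (σ τ : ℕ → Tm F' C') (t : Tm F C) :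
    (t.tr h g σ).subst τ = t.tr h (fun c => (g c).subst τ) (fun i => (σ i).subst τ) := by
  induction t <;> simp_all [tr]

theorem subst_tr (h : ∀ n, F n → F' n) (g : C → Tm F' C') (σ : ℕ → Tm F' C') (τ : ℕ → Tm F C)
    (t : Tm F C) : (t.subst τ).tr h g σ = t.tr h g (fun i => (τ i).tr h g σ) := by
  induction t <;> simp_all [tr]

theorem tr_id (σ : ℕ → Tm F C) (t : Tm F C) : t.tr (fun _ f => f) cst σ = t.subst σ := by
  induction t <;> simp_all [tr]

theorem lift_tr (g : C → Tm F C') (σ : ℕ → Tm F C') (t : Tm F Empty) :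
    (t.lift : Tm F C).tr (fun _ f => f) g σ = (t.lift : Tm F C').subst σ := by
  induction t with
  | cst c => exact c.elim
  | _ => simp_all [tr, lift]

theorem shift_tr_up (h : ∀ n, F n → F' n) (g : C → Tm F' C') (σ : ℕ → Tm F' C') (t : Tm F C) :
    t.shift.tr h (fun c => (g c).shift) (up σ) = (t.tr h g σ).shift := by
  simp only [shift, subst_tr, tr_subst]; rfl

end Tm

@[simp] theorem up_subst_scons (σ τ : ℕ → Tm F C) (a) :
    (fun i => (up σ i).subst (scons a τ)) = scons a (fun i => (σ i).subst τ) := by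
  funext i; cases i <;> simp

@[simp] theorem up_subst_up (σ τ : ℕ → Tm F C) :
    (fun i => (up σ i).subst (up τ)) = up (fun i => (σ i).subst τ) := by
  funext i; cases i <;> simp

@[simp] theorem scons_subst (σ τ : ℕ → Tm F C) (a) :
    (fun i => (scons a σ i).subst τ) = scons (a.subst τ) (fun i => (σ i).subst τ) := by
  funext i; cases i <;> simp

@[simp] theorem up_var : up (Tm.var : ℕ → Tm F C) = Tm.var := by
  funext i; cases i <;> simp

namespace Fm

@[simp] theorem subst_bot (σ : ℕ → Tm F C) : bot.subst σ = bot := rfl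
@[simp] theorem subst_eq (σ : ℕ → Tm F C) (s t) :
    (eq s t).subst σ = eq (s.subst σ) (t.subst σ) := rfl
@[simp] theorem subst_and (σ : ℕ → Tm F C) (A B) :
    (and A B).subst σ = and (A.subst σ) (B.subst σ) := rfl
@[simp] theorem subst_or (σ : ℕ → Tm F C) (A B) :
    (or A B).subst σ = or (A.subst σ) (B.subst σ) := rfl
@[simp] theorem subst_imp (σ : ℕ → Tm F C) (A B) :
    (imp A B).subst σ = imp (A.subst σ) (B.subst σ) := rfl
@[simp] theorem subst_all (σ : ℕ → Tm F C) (A) : (all A).subst σ = all (A.subst (up σ)) := rfl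
@[simp] theorem subst_ex (σ : ℕ → Tm F C) (A) : (ex A).subst σ = ex (A.subst (up σ)) := rfl

theorem subst_subst (A : Fm F C) (σ τ : ℕ → Tm F C) :
    (A.subst σ).subst τ = A.subst (fun i => (σ i).subst τ) := by
  induction A generalizing σ τ <;> simp_all [Tm.subst_subst]

@[simp] theorem subst_id (A : Fm F C) : A.subst Tm.var = A := by
  induction A <;> simp_all

@[simp] theorem shift_subst_scons (a) (σ : ℕ → Tm F C) (A : Fm F C) :
    A.shift.subst (scons a σ) = A.subst σ := by
  simp [shift, subst_subst]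

@[simp] theorem shift_subst_up (σ : ℕ → Tm F C) (A : Fm F C) :
    A.shift.subst (up σ) = (A.subst σ).shift := by
  simp [shift, subst_subst, Tm.shift]

@[simp] theorem inst_subst (A : Fm F C) (t) (σ : ℕ → Tm F C) :
    (A.inst t).subst σ = A.subst (scons (t.subst σ) σ) := by
  simp [inst, subst_subst]

@[simp] theorem subst_up_inst (A : Fm F C) (t) (σ : ℕ → Tm F C) :
    (A.subst (up σ)).inst t = A.subst (scons t σ) := by
  simp [inst, subst_subst]

@[simp] theorem subst_up_scons (A : Fm F C) (t) (σ τ : ℕ → Tm F C) :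
    (A.subst (up σ)).subst (scons t τ) = A.subst (scons t (fun i => (σ i).subst τ)) := by
  simp [subst_subst]

@[simp] theorem shift_inst (A : Fm F C) (t) : A.shift.inst t = A := by
  simp [inst]

theorem Below.mono {A : Fm F C} {m n} (h : m ≤ n) (hA : A.Below m) : A.Below n := by
  induction A generalizing m n with
  | bot => trivial
  | eq s t => exact ⟨hA.1.mono h, hA.2.mono h⟩
  | and A B ihA ihB => exact ⟨ihA h hA.1, ihB h hA.2⟩
  | or A B ihA ihB => exact ⟨ihA h hA.1, ihB h hA.2⟩
  | imp A B ihA ihB => exact ⟨ihA h hA.1, ihB h hA.2⟩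
  | all A ih => exact ih (Nat.succ_le_succ h) hA
  | ex A ih => exact ih (Nat.succ_le_succ h) hA

theorem exists_below (A : Fm F C) : ∃ n, A.Below n := by
  induction A with
  | bot => exact ⟨0, trivial⟩
  | eq s t =>
    obtain ⟨a, ha⟩ := s.exists_below; obtain ⟨b, hb⟩ := t.exists_below
    exact ⟨max a b, ha.mono (le_max_left _ _), hb.mono (le_max_right _ _)⟩
  | and A B ihA ihB =>
    obtain ⟨a, ha⟩ := ihA; obtain ⟨b, hb⟩ := ihB
    exact ⟨max a b, ha.mono (le_max_left _ _), hb.mono (le_max_right _ _)⟩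
  | or A B ihA ihB =>
    obtain ⟨a, ha⟩ := ihA; obtain ⟨b, hb⟩ := ihB
    exact ⟨max a b, ha.mono (le_max_left _ _), hb.mono (le_max_right _ _)⟩
  | imp A B ihA ihB =>
    obtain ⟨a, ha⟩ := ihA; obtain ⟨b, hb⟩ := ihB
    exact ⟨max a b, ha.mono (le_max_left _ _), hb.mono (le_max_right _ _)⟩
  | all A ih => obtain ⟨a, ha⟩ := ih; exact ⟨a, Below.mono (A := A) (Nat.le_succ a) ha⟩
  | ex A ih => obtain ⟨a, ha⟩ := ih; exact ⟨a, Below.mono (A := A) (Nat.le_succ a) ha⟩

theorem up_congr {n} {σ τ : ℕ → Tm F C} (h : ∀ i < n, σ i = τ i) :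
    ∀ i < n + 1, up σ i = up τ i := by
  intro i hi; cases i with
  | zero => rfl
  | succ i => simp [h i (by omega)]

theorem Below.congr {A : Fm F C} {n} (hA : A.Below n) {σ τ : ℕ → Tm F C}
    (h : ∀ i < n, σ i = τ i) : A.subst σ = A.subst τ := by
  induction A generalizing n σ τ with
  | bot => rfl
  | eq s t => simp [hA.1.congr h, hA.2.congr h]
  | and A B ihA ihB => simp [ihA hA.1 h, ihB hA.2 h]
  | or A B ihA ihB => simp [ihA hA.1 h, ihB hA.2 h]
  | imp A B ihA ihB => simp [ihA hA.1 h, ihB hA.2 h]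
  | all A ih => simp [ih hA (up_congr h)]
  | ex A ih => simp [ih hA (up_congr h)]

theorem Below.closed {A : Fm F C} (hA : A.Below 0) (σ : ℕ → Tm F C) : A.subst σ = A := by
  rw [hA.congr (τ := Tm.var) (fun i hi => absurd hi (Nat.not_lt_zero i)), subst_id]

/-- Translation of formulas. -/
def tr (h : ∀ n, F n → F' n) : (C → Tm F' C') → (ℕ → Tm F' C') → Fm F C → Fm F' C'
  | _, _, .bot => .bot
  | g, σ, .eq s t => .eq (s.tr h g σ) (t.tr h g σ)
  | g, σ, .and A B => .and (A.tr h g σ) (B.tr h g σ)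
  | g, σ, .or A B => .or (A.tr h g σ) (B.tr h g σ)
  | g, σ, .imp A B => .imp (A.tr h g σ) (B.tr h g σ)
  | g, σ, .all A => .all (A.tr h (fun c => (g c).shift) (up σ))
  | g, σ, .ex A => .ex (A.tr h (fun c => (g c).shift) (up σ))

theorem tr_subst (h : ∀ n, F n → F' n) (A : Fm F C) (g : C → Tm F' C') (σ τ : ℕ → Tm F' C') :
    (A.tr h g σ).subst τ = A.tr h (fun c => (g c).subst τ) (fun i => (σ i).subst τ) := by
  induction A generalizing g σ τ <;> simp_all [tr, Tm.tr_subst]

theorem up_tr (h : ∀ n, F n → F' n) (g : C → Tm F' C') (σ : ℕ → Tm F' C') (τ : ℕ → Tm F C) :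
    (fun i => (up τ i).tr h (fun c => (g c).shift) (up σ)) = up (fun i => (τ i).tr h g σ) := by
  funext i; cases i with
  | zero => rfl
  | succ i => simp [Tm.shift_tr_up]

theorem subst_tr (h : ∀ n, F n → F' n) (A : Fm F C) (g : C → Tm F' C') (σ : ℕ → Tm F' C')
    (τ : ℕ → Tm F C) : (A.subst τ).tr h g σ = A.tr h g (fun i => (τ i).tr h g σ) := by
  induction A generalizing g σ τ <;> simp_all [tr, Tm.subst_tr, up_tr]

theorem tr_id (A : Fm F C) (σ : ℕ → Tm F C) : A.tr (fun _ f => f) Tm.cst σ = A.subst σ := by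
  induction A generalizing σ <;> simp_all [tr, Tm.tr_id]

theorem shift_tr_up (h : ∀ n, F n → F' n) (g : C → Tm F' C') (σ : ℕ → Tm F' C') (A : Fm F C) :
    A.shift.tr h (fun c => (g c).shift) (up σ) = (A.tr h g σ).shift := by
  simp only [shift, subst_tr, tr_subst]; rfl

theorem inst_tr (h : ∀ n, F n → F' n) (g : C → Tm F' C') (σ : ℕ → Tm F' C') (A : Fm F C) (t) :
    (A.inst t).tr h g σ = (A.tr h (fun c => (g c).shift) (up σ)).inst (t.tr h g σ) := by
  simp only [inst, subst_tr, tr_subst, Tm.shift_subst_scons, Tm.subst_id, up_subst_scons]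
  congr 1; funext i; cases i <;> rfl

end Fm

end Pool.Agent.HAEP
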