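import Pool.Agent.Lib.MP_ebcb3a_lc.Arith

/-! Powers, factorials and binomial coefficients in a model of PA. -/

namespace Pool.Agent.HAEP

variable {M : Mod}

noncomputable def pw (q n : ZZ M) : ZZ M := rec1 (fun _ x => x * q) 1 n
noncomputable def dsc (z n : ZZ M) : ZZ M := rec1 (fun i x => x * (z - i)) 1 n
noncomputable def fac (n : ZZ M) : ZZ M := rec1 (fun i x => x * (i + 1)) 1 n

section
variable {α : Type} [QB M α] {f g : α → ZZ M}

@[fun_prop] theorem DF.pw (hf : DF M f) (hg : DF M g) : DF M fun x => pw (f x) (g x) :=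
  DF.rec1 (G := fun x _ y => y * f x) (by fun_prop) (by fun_prop) hg
@[fun_prop] theorem DF.dsc (hf : DF M f) (hg : DF M g) : DF M fun x => dsc (f x) (g x) :=
  DF.rec1 (G := fun x i y => y * (f x - i)) (by fun_prop) (by fun_prop) hg
@[fun_prop] theorem DF.fac (hf : DF M f) : DF M fun x => fac (f x) :=
  DF.rec1 (G := fun _ i y => y * (i + 1)) (by fun_prop) (by fun_prop) hf
end

@[simp] theorem pw_zero (q : ZZ M) : pw q 0 = 1 := rec1_zero _ _
theorem pw_succ (q : ZZ M) {n : ZZ M} (hn : 0 ≤ n) : pw q (n + 1) = pw q n * q :=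
  rec1_succ (by fun_prop) _ hn
@[simp] theorem dsc_zero (q : ZZ M) : dsc q 0 = 1 := rec1_zero _ _
theorem dsc_succ (q : ZZ M) {n : ZZ M} (hn : 0 ≤ n) : dsc q (n + 1) = dsc q n * (q - n) :=
  rec1_succ (by fun_prop) _ hn
@[simp] theorem fac_zero : fac (0 : ZZ M) = 1 := rec1_zero _ _
theorem fac_succ {n : ZZ M} (hn : 0 ≤ n) : fac (n + 1) = fac n * (n + 1) :=
  rec1_succ (by fun_prop) _ hn

theorem zero_or_succ {k : ZZ M} (hk : 0 ≤ k) : k = 0 ∨ ∃ j, 0 ≤ j ∧ k = j + 1 := by
  rcases hk.lt_or_eq with h | h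
  · exact Or.inr ⟨k - 1, by linarith [one_le h], by ring⟩
  · exact Or.inl h.symm

theorem pw_pos {q n : ZZ M} (hq : 0 < q) (hn : 0 ≤ n) : 0 < pw q n :=
  ind (fun n => 0 < pw q n) (by fun_prop) (by simp) (fun n hn h => by rw [pw_succ _ hn]; positivity)
    n hn

theorem pw_mono {q m n : ZZ M} (hq : 0 < q) (hm : 0 ≤ m) (h : m ≤ n) : pw q m ≤ pw q n := by
  have := ind (fun k => pw q m ≤ pw q (m + k)) (by fun_prop) (by simp) (fun k hk h => by
    rw [← add_assoc, pw_succ _ (by linarith)]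
    nlinarith [pw_pos hq (show 0 ≤ m + k by linarith), one_le hq]) (n - m) (by linarith)
  simpa using this

theorem fac_pos {n : ZZ M} (hn : 0 ≤ n) : 0 < fac n :=
  ind (fun n => 0 < fac n) (by fun_prop) (by simp) (fun n hn h => by rw [fac_succ hn]; positivity)
    n hn

theorem dvd_fac {n : ZZ M} (hn : 0 ≤ n) : ∀ d, 0 < d → d ≤ n → d ∣ fac n :=
  ind (fun n => ∀ d, 0 < d → d ≤ n → d ∣ fac n) (by fun_prop)
    (fun d h k => absurd k (not_le.2 h)) (fun a ha h d h0 h1 => by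
      rw [fac_succ ha]
      rcases h1.lt_or_eq with l | rfl
      · exact (h d h0 (le_of_lt_succ l)).mul_right _
      · exact dvd_mul_left _ _) n hn

theorem dsc_succ' (z : ZZ M) {k : ZZ M} (hk : 0 ≤ k) : dsc (z + 1) (k + 1) = (z + 1) * dsc z k :=
  ind (fun k => dsc (z + 1) (k + 1) = (z + 1) * dsc z k) (by fun_prop)
    (by rw [dsc_succ _ le_rfl]; simp) (fun k hk h => by
      rw [dsc_succ _ (by linarith), h, dsc_succ _ hk]; ring) k hk

theorem digits {u N : ZZ M} (hN : 0 ≤ N) (hu : pw 2 N < u) : ∀ n, 0 ≤ n → n ≤ N → ∀ k, 0 ≤ k →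
    md (pw (u + 1) n) (pw u (k + 1)) ≤ pw 2 n * pw u k ∧
    (md (pw (u + 1) n) (pw u (k + 1)) - md (pw (u + 1) n) (pw u k)) * fac k = dsc n k * pw u k := by
  have u1 : 1 < u := lt_of_le_of_lt (one_le (pw_pos two_pos hN)) hu
  have up : ∀ {k}, 0 ≤ k → 0 < pw u k := fun hk => pw_pos (by linarith) hk
  have t0 : ∀ a : ZZ M, md a 1 = 0 := fun a => md_eq le_rfl one_pos (one_dvd _)
  refine ind _ (by fun_prop) (fun _ k hk => ?_) fun n hn ih hnN k hk => ?_
  · have t1 : ∀ k, 0 ≤ k → md 1 (pw u (k + 1)) = 1 := fun k hk => md_eq zero_le_one (by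
      rw [pw_succ _ hk]; nlinarith [one_le (up hk)]) (by simp)
    rw [pw_zero, pw_zero, t1 k hk]
    refine ⟨by linarith [one_le (up hk)], ?_⟩
    rcases zero_or_succ hk with rfl | ⟨j, hj, rfl⟩
    · simp [t0]
    · have := dsc_succ' (-1) hj
      rw [neg_add_cancel] at this
      rw [t1 j hj, this]; ring
  · have ih := ih (by linarith)
    have b : ∀ k, 0 ≤ k → u * md (pw (u + 1) n) (pw u k) ≤ pw 2 n * pw u k := by
      intro k hk
      rcases zero_or_succ hk with rfl | ⟨j, hj, rfl⟩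
      · simpa [t0] using (pw_pos two_pos hn).le
      · have := (ih j hj).1
        conv_rhs => rw [pw_succ _ hj]
        nlinarith
    have e : ∀ k, 0 ≤ k → md (pw (u + 1) (n + 1)) (pw u (k + 1)) =
        u * md (pw (u + 1) n) (pw u k) + md (pw (u + 1) n) (pw u (k + 1)) := by
      intro k hk
      obtain ⟨a0, -, x, a2⟩ := md_spec (pw (u + 1) n) (up hk)
      obtain ⟨c0, -, y, c2⟩ := md_spec (pw (u + 1) n) (up (show 0 ≤ k + 1 by linarith))
      refine md_eq (by positivity) ?_ ⟨x + y, ?_⟩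
      · have h1 := pw_mono two_pos (show 0 ≤ n + 1 by linarith) hnN
        rw [pw_succ _ hn] at h1
        conv_rhs => rw [pw_succ _ hk]
        nlinarith [b k hk, (ih k hk).1, up hk]
      · rw [pw_succ _ hn]
        have := pw_succ u hk
        linear_combination u * a2 + c2 - x * this
    rw [e k hk, pw_succ 2 hn]
    refine ⟨by linarith [b k hk, (ih k hk).1], ?_⟩
    rcases zero_or_succ hk with rfl | ⟨j, hj, rfl⟩
    · simpa [t0] using (ih 0 le_rfl).2
    · have h1 := (ih j hj).2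
      have h2 := (ih (j + 1) hk).2
      rw [e j hj, dsc_succ' n hj]
      rw [dsc_succ _ hj] at h2
      rw [fac_succ hj] at h2 ⊢
      have := pw_succ u hj
      linear_combination u * (j + 1) * h1 + h2 - (j + 1) * dsc n j * this

theorem binom_aux {n k : ZZ M} (hn : 0 ≤ n) (hk : 0 ≤ k) {u : ZZ M} (hu : u = pw 2 n + 1) :
    ∃ c, c * fac k = dsc n k ∧ 0 ≤ c ∧ c < u ∧
      md (pw (u + 1) n) (pw u (k + 1)) = c * pw u k + md (pw (u + 1) n) (pw u k) := by
  have u0 : 0 < u := by linarith [pw_pos two_pos hn]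
  have p := pw_pos u0 hk
  obtain ⟨a0, a1, x, a2⟩ := md_spec (pw (u + 1) n) p
  obtain ⟨c0, c1, y, c2⟩ := md_spec (pw (u + 1) n) (pw_pos u0 (show 0 ≤ k + 1 by linarith))
  have h := (digits hn (u := u) (by linarith) n hn le_rfl k hk).2
  have e := pw_succ u hk
  have h1 : md (pw (u + 1) n) (pw u (k + 1)) = (x - u * y) * pw u k + md (pw (u + 1) n) (pw u k) := by
    linear_combination a2 - c2 - y * e
  refine ⟨x - u * y, mul_right_cancel₀ p.ne' (by linear_combination h - fac k * h1), ?_, ?_, h1⟩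
  · have : -1 < x - u * y := by
      by_contra hc
      nlinarith [not_lt.1 hc]
    linarith [succ_le this]
  · by_contra hc
    nlinarith [not_lt.1 hc]

theorem exists_binom {n k : ZZ M} (hn : 0 ≤ n) (hk : 0 ≤ k) : ∃ c, c * fac k = dsc n k :=
  (binom_aux hn hk rfl).imp fun _ h => h.1

theorem binom_iff {n k c : ZZ M} (hn : 0 ≤ n) (hk : 0 ≤ k) : c * fac k = dsc n k ↔
    ∃ u H L, u = pw 2 n + 1 ∧ pw (u + 1) n = (H * u + c) * pw u k + L ∧ 0 ≤ c ∧ c < u ∧ 0 ≤ L ∧
      L < pw u k := by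
  obtain ⟨c₀, h0, h1, h2, h3⟩ := binom_aux hn hk rfl
  have u0 : 0 < pw 2 n + 1 := by linarith [pw_pos two_pos hn]
  have p := pw_pos u0 hk
  have e := pw_succ (pw 2 n + 1) hk
  constructor
  · intro h
    obtain rfl : c = c₀ := mul_right_cancel₀ (fac_pos hk).ne' (h.trans h0.symm)
    obtain ⟨a0, a1, -⟩ := md_spec (pw (pw 2 n + 1 + 1) n) p
    obtain ⟨-, -, y, c2⟩ := md_spec (pw (pw 2 n + 1 + 1) n) (pw_pos u0 (show 0 ≤ k + 1 by linarith))
    exact ⟨_, y, _, rfl, by linear_combination c2 + h3 + y * e, h1, h2, a0, a1⟩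
  · rintro ⟨u, H, L, rfl, k1, k2, k3, k4, k5⟩
    rw [md_eq k4 k5 ⟨H * (pw 2 n + 1) + c, by rw [k1]; ring⟩,
      md_eq (r := c * pw (pw 2 n + 1) k + L) (by positivity) (by nlinarith [succ_le k3])
        ⟨H, by linear_combination k1 - H * e⟩] at h3
    rw [mul_right_cancel₀ p.ne' (add_right_cancel h3), h0]

theorem fac_iff {n f : ZZ M} (hn : 0 ≤ n) : f = fac n ↔ ∃ r c, r = n * n * (pw (n + 1) n + 1) + 1 ∧
    c * fac n = dsc r n ∧ f * c ≤ pw r n ∧ pw r n < (f + 1) * c := by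
  obtain ⟨r, hr⟩ : ∃ r, r = n * n * (pw (n + 1) n + 1) + 1 := ⟨_, rfl⟩
  have hF := fac_pos hn
  have h1 : fac n ≤ pw (n + 1) n := ind (fun k => k ≤ n → fac k ≤ pw (n + 1) k) (by fun_prop)
    (by simp) (fun k hk ih hkn => by
      rw [fac_succ hk, pw_succ _ hk]
      exact mul_le_mul (ih (by linarith)) (by linarith) (by linarith)
        (pw_pos (by linarith) hk).le) n hn le_rfl
  have h2 : n * n * (fac n + 1) < r := by nlinarith [mul_self_nonneg n]
  have h3 : n * n < r := by nlinarith [mul_self_nonneg n]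
  have h4 : n < r := by nlinarith [sq_add_nonneg (-n)]
  have r0 : 0 < r := by linarith
  have h5 := ind (fun k => k ≤ n → dsc r k ≤ pw r k ∧ 0 ≤ dsc r k ∧ (r - k * k) * pw r k ≤ r * dsc r k)
    (by fun_prop) (by simp) (fun k hk ih hkn => by
      obtain ⟨a, b, c⟩ := ih (by linarith)
      have p := pw_pos r0 hk
      rw [dsc_succ _ hk, pw_succ _ hk]
      refine ⟨by nlinarith, mul_nonneg b (by linarith), ?_⟩
      have := mul_le_mul_of_nonneg_right c (show 0 ≤ r - k by linarith)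
      have q : 0 ≤ pw r k * (k * k * k + (k + 1) * r) := by positivity
      nlinarith) n hn le_rfl
  obtain ⟨c, hc⟩ := exists_binom r0.le hn
  have p := pw_pos r0 hn
  have k1 : fac n * c ≤ pw r n := by linarith [h5.1]
  have k2 : pw r n < (fac n + 1) * c := by
    refine lt_of_mul_lt_mul_left (a := fac n * r) ?_ (by positivity)
    have := mul_le_mul_of_nonneg_left h5.2.2 (show 0 ≤ fac n + 1 by linarith)
    have q := mul_lt_mul_of_pos_right h2 p
    calc fac n * r * pw r n < (fac n + 1) * ((r - n * n) * pw r n) := by nlinarith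
      _ ≤ (fac n + 1) * (r * dsc r n) := this
      _ = _ := by rw [← hc]; ring
  constructor
  · rintro rfl; exact ⟨r, c, hr, hc, k1, k2⟩
  · rintro ⟨r', c', e, hc', l1, l2⟩
    obtain rfl : r = r' := hr.trans e.symm
    obtain rfl : c = c' := mul_right_cancel₀ hF.ne' (hc.trans hc'.symm)
    have c0 : 0 < c := by linarith
    exact le_antisymm (le_of_lt_succ (lt_of_mul_lt_mul_right (k2.trans_le' l1) c0.le))
      (le_of_lt_succ (lt_of_mul_lt_mul_right (l2.trans_le' k1) c0.le))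

end Pool.Agent.HAEP
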