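import Pool.Agent.Lib.MP_ebcb3a_lc.Rules

/-! The completeness theorem for PA in the language `0, S, +, *`. -/

namespace Pool.Agent.HAEP

abbrev F0 : ℕ → Type := fun _ => Empty
abbrev Tm0 := Tm F0 Empty
abbrev Fm0 := Fm F0 Empty

/-- Models of PA. -/
structure Mod where
  M : Str.{0} F0
  succ_ne_zero : ∀ a, M.succ a ≠ M.zero
  succ_inj : ∀ a b, M.succ a = M.succ b → a = b
  add_zero : ∀ a, M.add a M.zero = a
  add_succ : ∀ a b, M.add a (M.succ b) = M.succ (M.add a b)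
  mul_zero : ∀ a, M.mul a M.zero = M.zero
  mul_succ : ∀ a b, M.mul a (M.succ b) = M.add (M.mul a b) a
  ind : ∀ (A : Fm F0 M.N) (ρ : ℕ → M.N), A.Sat M id (scons M.zero ρ) →
    (∀ a, A.Sat M id (scons a ρ) → A.Sat M id (scons (M.succ a) ρ)) → ∀ a, A.Sat M id (scons a ρ)

def Tm.enc : Tm0 → ℕ
  | .var i => Nat.pair 0 i
  | .cst c => c.elim
  | .zero => Nat.pair 1 0
  | .succ t => Nat.pair 2 t.enc
  | .add s t => Nat.pair 3 (Nat.pair s.enc t.enc)
  | .mul s t => Nat.pair 4 (Nat.pair s.enc t.enc)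
  | .app f _ => f.elim

theorem Tm.enc_inj (s : Tm0) : ∀ t : Tm0, s.enc = t.enc → s = t := by
  induction s with
  | cst c => exact c.elim
  | app f => exact f.elim
  | _ =>
    intro t; cases t with
    | cst c => exact c.elim
    | app f => exact f.elim
    | _ => simp_all [Tm.enc, Nat.pair_eq_pair] <;> aesop

def Fm.enc : Fm0 → ℕ
  | .bot => Nat.pair 0 0
  | .eq s t => Nat.pair 1 (Nat.pair s.enc t.enc)
  | .and s t => Nat.pair 2 (Nat.pair s.enc t.enc)
  | .or s t => Nat.pair 3 (Nat.pair s.enc t.enc)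
  | .imp s t => Nat.pair 4 (Nat.pair s.enc t.enc)
  | .all s => Nat.pair 5 s.enc
  | .ex s => Nat.pair 6 s.enc

theorem Fm.enc_inj (s : Fm0) : ∀ t : Fm0, s.enc = t.enc → s = t := by
  induction s <;> intro t <;> cases t <;> simp_all [Fm.enc, Nat.pair_eq_pair]
  · intro h k; exact ⟨Tm.enc_inj _ _ h, Tm.enc_inj _ _ k⟩
  all_goals aesop

instance : Countable Fm0 := Function.Injective.countable (f := Fm.enc) fun a b => Fm.enc_inj a b

abbrev PA0 : Set Fm0 := PA Lang.basic Empty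
abbrev HA0 : Set Fm0 := HA Lang.basic Empty

theorem lem {Γ : List Fm0} (A : Fm0) : Pf PA0 Γ (.or A (.imp A .bot)) := by
  have := Pf.ax (T := PA0) (Γ := Γ) Tm.var (A := .or A (.imp A .bot)) (Or.inr ⟨A, rfl⟩)
  rwa [Fm.subst_id] at this

theorem henkin_step (Γ : List Fm0) (B : Fm0) (h : ¬ Pf PA0 Γ .bot) :
    ∃ Δ, Γ ⊆ Δ ∧ ¬ Pf PA0 Δ .bot ∧
      (Pf PA0 Δ (.imp B .bot) ∨ (Pf PA0 Δ B ∧ ∀ D, B = .ex D → ∃ t, Pf PA0 Δ (D.inst t))) := by
  by_cases hB : Pf PA0 (B :: Γ) .bot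
  · exact ⟨Γ, List.Subset.refl _, h, Or.inl (.impI hB)⟩
  by_cases hD : ∃ D, B = .ex D
  · obtain ⟨D, rfl⟩ := hD
    have : ∃ t, ¬ Pf PA0 (D.inst t :: .ex D :: Γ) .bot := by
      by_contra hc; push Not at hc
      exact hB (Pf.exE' Pf.hyp0 hc)
    obtain ⟨t, ht⟩ := this
    refine ⟨_, List.subset_cons_of_subset _ (List.subset_cons_self _ _), ht,
      Or.inr ⟨Pf.hyp0.wk, fun D' e => ⟨t, ?_⟩⟩⟩
    cases e; exact Pf.hyp0
  · exact ⟨_, List.subset_cons_self _ _, hB, Or.inr ⟨Pf.hyp0, fun D e => absurd ⟨D, e⟩ hD⟩⟩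

/-- A maximal consistent set with witnesses. -/
structure Henkin (W : Fm0 → Prop) : Prop where
  pf : ∀ {Γ A}, (∀ B ∈ Γ, W B) → Pf PA0 Γ A → W A
  con : ¬ W .bot
  dec : ∀ A, W A ∨ W (.imp A .bot)
  wit : ∀ A, W (.ex A) → ∃ t, W (A.inst t)

theorem exists_henkin (Γ₀ : List Fm0) (h : ¬ Pf PA0 Γ₀ .bot) :
    ∃ W, Henkin W ∧ ∀ B ∈ Γ₀, W B := by
  have : Nonempty Fm0 := ⟨.bot⟩
  obtain ⟨e, he⟩ := exists_surjective_nat Fm0
  choose! f hf using henkin_step
  let G : ℕ → List Fm0 := fun n => Nat.rec Γ₀ (fun n Γ => f Γ (e n)) n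
  have hc : ∀ n, ¬ Pf PA0 (G n) .bot := by
    intro n; induction n with
    | zero => exact h
    | succ n ih => exact (hf _ _ ih).2.1
  have hm : ∀ {m n}, m ≤ n → G m ⊆ G n := by
    intro m n hmn; induction hmn with
    | refl => exact List.Subset.refl _
    | step _ ih => exact List.Subset.trans ih (hf _ _ (hc _)).1
  refine ⟨fun A => ∃ n, Pf PA0 (G n) A, ⟨?_, ?_, ?_, ?_⟩, fun B hB => ⟨0, .hyp hB⟩⟩
  · intro Γ A hΓ hA
    have : ∃ n, ∀ B ∈ Γ, Pf PA0 (G n) B := by
      clear hA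
      induction Γ with
      | nil => exact ⟨0, by simp⟩
      | cons B Γ ih =>
        obtain ⟨a, ha⟩ := hΓ B List.mem_cons_self
        obtain ⟨b, hb⟩ := ih fun B hB => hΓ B (List.mem_cons_of_mem _ hB)
        refine ⟨max a b, fun X hX => ?_⟩
        rcases List.mem_cons.1 hX with rfl | hX
        · exact ha.weaken (hm (le_max_left _ _))
        · exact (hb X hX).weaken (hm (le_max_right _ _))
    obtain ⟨n, hn⟩ := this
    have := hA.cut (Δ := G n) Tm.var (by simpa using hn)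
    exact ⟨n, by simpa using this⟩
  · rintro ⟨n, hn⟩; exact hc n hn
  · intro A
    obtain ⟨n, rfl⟩ := he A
    rcases (hf _ (e n) (hc n)).2.2 with h | h
    · exact Or.inr ⟨n + 1, h⟩
    · exact Or.inl ⟨n + 1, h.1⟩
  · rintro A ⟨m, hA⟩
    obtain ⟨n, hn⟩ := he (.ex A)
    rcases (hf _ (e n) (hc n)).2.2 with h | h
    · have h' : Pf PA0 (G (n + 1)) (.imp (.ex A) .bot) := hn ▸ h
      exact absurd ((h'.weaken (hm (le_max_left (n + 1) m))).impE
        (hA.weaken (hm (le_max_right _ _)))) (hc _)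
    · obtain ⟨t, ht⟩ := h.2 A hn
      exact ⟨t, n + 1, ht⟩

namespace Henkin

variable {W : Fm0 → Prop} (H : Henkin W)
include H

theorem pf0 {A} (h : Pf PA0 [] A) : W A := H.pf (by simp) h
theorem pf1 {A B} (hB : W B) (h : Pf PA0 [B] A) : W A := H.pf (by simpa using hB) h
theorem pf2 {A B D} (hB : W B) (hD : W D) (h : Pf PA0 [B, D] A) : W A :=
  H.pf (by simpa using ⟨hB, hD⟩) h

theorem and_iff {A B} : W (.and A B) ↔ W A ∧ W B :=
  ⟨fun h => ⟨H.pf1 h Pf.hyp0.andE1, H.pf1 h Pf.hyp0.andE2⟩,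
    fun h => H.pf2 h.1 h.2 (Pf.hyp0.andI Pf.hyp0.wk)⟩

theorem imp_iff {A B} : W (.imp A B) ↔ (W A → W B) := by
  refine ⟨fun h k => H.pf2 h k (Pf.hyp0.impE Pf.hyp0.wk), fun h => ?_⟩
  rcases H.dec A with k | k
  · exact H.pf1 (h k) (.impI Pf.hyp0.wk)
  · exact H.pf1 k (.impI (.botE (Pf.hyp0.wk.impE Pf.hyp0)))

theorem or_iff {A B} : W (.or A B) ↔ W A ∨ W B := by
  refine ⟨fun h => ?_, fun h => h.elim (fun k => H.pf1 k Pf.hyp0.orI1)
    (fun k => H.pf1 k Pf.hyp0.orI2)⟩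
  rcases H.dec A with k | k
  · exact Or.inl k
  · exact Or.inr (H.pf2 h k (Pf.hyp0.orE (.botE (Pf.hyp0.wk.wk.impE Pf.hyp0)) Pf.hyp0))

theorem ex_iff {A} : W (.ex A) ↔ ∃ t, W (A.inst t) :=
  ⟨H.wit A, fun ⟨t, h⟩ => H.pf1 h (.exI t Pf.hyp0)⟩

theorem all_iff {A} : W (.all A) ↔ ∀ t, W (A.inst t) := by
  refine ⟨fun h t => H.pf1 h (.allE t Pf.hyp0), fun h => ?_⟩
  rcases H.dec (.ex (.imp A .bot)) with k | k
  · obtain ⟨t, ht⟩ := H.wit _ k
    exact absurd (H.imp_iff.1 ht (h t)) H.con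
  · refine H.pf1 k (.allI' fun t => (lem (A.inst t)).orE Pf.hyp0 (.botE ?_))
    exact Pf.hyp0.wk.impE (.exI t Pf.hyp0)

def setoid : Setoid Tm0 where
  r s t := W (.eq s t)
  iseqv := ⟨fun t => H.pf0 (.refl t), fun h => H.pf1 h Pf.hyp0.symm,
    fun h k => H.pf2 h k (Pf.hyp0.trans Pf.hyp0.wk)⟩

theorem cong (r : Tm0) {a b c d : Tm0} (h : W (.eq a b)) (k : W (.eq c d)) :
    W (.eq (r.subst (scons a fun _ => c)) (r.subst (scons b fun _ => d))) :=
  H.pf2 h k (Pf.congr_tm r fun i => by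
    cases i with
    | zero => exact Pf.hyp0
    | succ i => exact Pf.hyp0.wk)

/-- The term model. -/
def str : Str.{0} F0 where
  N := Quotient H.setoid
  zero := ⟦.zero⟧
  succ := Quotient.map .succ fun _ _ h => H.cong (.succ (.var 0)) h h
  add := Quotient.map₂ .add fun _ _ h _ _ k => H.cong (.add (.var 0) (.var 1)) h k
  mul := Quotient.map₂ .mul fun _ _ h _ _ k => H.cong (.mul (.var 0) (.var 1)) h k
  app := fun _ f => f.elim

theorem ev_eq {C : Type} (g : C → Tm0) (σ : ℕ → Tm0) (t : Tm F0 C) :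
    t.ev H.str (fun c => ⟦g c⟧) (fun i => ⟦σ i⟧) = ⟦t.tr (fun _ f => f) g σ⟧ := by
  induction t with
  | app f => exact f.elim
  | var => rfl
  | cst => rfl
  | zero => rfl
  | succ t ih => simp only [Tm.ev, ih]; rfl
  | add s t ihs iht => simp only [Tm.ev, ihs, iht]; rfl
  | mul s t ihs iht => simp only [Tm.ev, ihs, iht]; rfl

theorem truth {C : Type} (A : Fm F0 C) (g : C → Tm0) (σ : ℕ → Tm0) :
    A.Sat H.str (fun c => ⟦g c⟧) (fun i => ⟦σ i⟧) ↔ W (A.tr (fun _ f => f) g σ) := by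
  have key : ∀ (A : Fm F0 C) (σ : ℕ → Tm0) t,
      (A.tr (fun _ f => f) (fun c => (g c).shift) (up σ)).inst t =
        A.tr (fun _ f => f) g (scons t σ) := by
    intro A σ t; simp [Fm.inst, Fm.tr_subst]
  induction A generalizing σ with
  | bot => simpa [Fm.Sat, Fm.tr] using H.con
  | eq s t => simp only [Fm.Sat, ev_eq, Fm.tr]; exact Quotient.eq
  | and A B a b => simp only [Fm.Sat, Fm.tr, H.and_iff, a, b]
  | or A B a b => simp only [Fm.Sat, Fm.tr, H.or_iff, a, b]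
  | imp A B a b => simp only [Fm.Sat, Fm.tr, H.imp_iff, a, b]
  | all A a =>
    simp only [Fm.Sat, Fm.tr, H.all_iff, key, ← a, scons_comp (Quotient.mk H.setoid)]
    exact Quotient.forall
  | ex A a =>
    simp only [Fm.Sat, Fm.tr, H.ex_iff, key, ← a, scons_comp (Quotient.mk H.setoid)]
    exact Quotient.exists

theorem hax {A : Fm0} (h : HAx Lang.basic Empty A) (σ : ℕ → Tm0) : W (A.subst σ) :=
  H.pf0 (.ax σ (Or.inl h))

theorem hind (B : Fm0) (h0 : W (B.inst .zero)) (hs : ∀ t, W (B.inst t) → W (B.inst (.succ t))) (t) :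
    W (B.inst t) := by
  have := H.hax (.ind B) Tm.var
  rw [Fm.subst_id] at this
  refine H.all_iff.1 (H.imp_iff.1 (H.imp_iff.1 this h0) (H.all_iff.2 fun t => H.imp_iff.2 fun h => ?_)) t
  simpa [Fm.inst, Fm.subst_subst] using hs t h

/-- The term model is a model of PA. -/
def mod : Mod where
  M := H.str
  succ_ne_zero a := by
    induction a using Quotient.ind with | _ a =>
    exact fun h => H.con (H.imp_iff.1 (H.hax .succ_ne_zero fun _ => a) (Quotient.exact h))
  succ_inj a b := by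
    induction a using Quotient.ind with | _ a =>
    induction b using Quotient.ind with | _ b =>
    exact fun h => Quotient.sound
      (H.imp_iff.1 (H.hax .succ_inj (scons a fun _ => b)) (Quotient.exact h))
  add_zero a := by
    induction a using Quotient.ind with | _ a =>
    exact Quotient.sound (H.hax .add_zero fun _ => a)
  add_succ a b := by
    induction a using Quotient.ind with | _ a =>
    induction b using Quotient.ind with | _ b =>
    exact Quotient.sound (H.hax .add_succ (scons a fun _ => b))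
  mul_zero a := by
    induction a using Quotient.ind with | _ a =>
    exact Quotient.sound (H.hax .mul_zero fun _ => a)
  mul_succ a b := by
    induction a using Quotient.ind with | _ a =>
    induction b using Quotient.ind with | _ b =>
    exact Quotient.sound (H.hax .mul_succ (scons a fun _ => b))
  ind A ρ h0 hs a := by
    let g : H.str.N → Tm0 := Quotient.out
    have hg : ∀ t : Tm0, A.Sat H.str id (scons ⟦t⟧ ρ) ↔
        W ((A.tr (fun _ f => f) (fun c => (g c).shift) (up fun i => g (ρ i))).inst t) := by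
      intro t
      have := H.truth A g (scons t fun i => g (ρ i))
      simp only [scons_comp (Quotient.mk H.setoid), g, Quotient.out_eq] at this
      simp only [Fm.inst, Fm.tr_subst, Tm.shift_subst_scons, Tm.subst_id, up_subst_scons]
      exact this
    induction a using Quotient.ind with | _ a =>
    exact (hg a).2 (H.hind _ ((hg _).1 h0) (fun t h => (hg (.succ t)).1 (hs _ ((hg t).2 h))) a)

end Henkin

theorem complete (A : Fm0) (h : ∀ (M : Mod) ρ, A.Sat M.M Empty.elim ρ) : Pf PA0 [] A := by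
  by_contra hA
  have : ¬ Pf PA0 [.imp A .bot] .bot := fun k => hA ((lem A).orE Pf.hyp0 k.botE)
  obtain ⟨W, H, hW⟩ := exists_henkin _ this
  have h1 := (H.truth A Tm.cst Tm.var)
  rw [Fm.tr_id, Fm.subst_id] at h1
  refine H.con (H.imp_iff.1 (hW _ List.mem_cons_self) (h1.1 ?_))
  have := h H.mod (fun i => ⟦Tm.var i⟧)
  exact Eq.mp (congrArg (fun κ => A.Sat H.str κ _) (funext fun c => c.elim)) this

end Pool.Agent.HAEP
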