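import Mathlib

/-!
First-order arithmetic, deeply embedded: terms, formulas (de Bruijn indices), intuitionistic natural
deduction, the theories HA and PA, classical structures, the class Pi_2 and the diagram of a structure.
The language is 0, S, +, * together with any family of further function symbols that are introduced by
explicit definition or primitive recursion (the family may be empty, or contain a symbol for every
primitive recursive function).
-/

namespace Pool.Agent.HAEP

universe u

/-- Terms: variables, constants from `C`, `0`, `S`, `+`, `*` and the further symbols `F n` of arity `n`. -/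
inductive Tm (F : ℕ → Type) (C : Type u) : Type u
  | var : ℕ → Tm F C
  | cst : C → Tm F C
  | zero : Tm F C
  | succ : Tm F C → Tm F C
  | add : Tm F C → Tm F C → Tm F C
  | mul : Tm F C → Tm F C → Tm F C
  | app : {n : ℕ} → F n → (Fin n → Tm F C) → Tm F C

/-- Formulas; `all` and `ex` bind the variable `0`. Negation of `A` is `imp A bot`. -/
inductive Fm (F : ℕ → Type) (C : Type u) : Type u
  | bot : Fm F C
  | eq : Tm F C → Tm F C → Fm F C
  | and : Fm F C → Fm F C → Fm F C
  | or : Fm F C → Fm F C → Fm F C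
  | imp : Fm F C → Fm F C → Fm F C
  | all : Fm F C → Fm F C
  | ex : Fm F C → Fm F C

/-- The sequence `a, s 0, s 1, ...`. -/
def scons {α : Type u} (a : α) (s : ℕ → α) : ℕ → α
  | 0 => a
  | i + 1 => s i

variable {F : ℕ → Type} {C : Type u}

/-- Simultaneous substitution of `σ i` for the variable `i`. -/
def Tm.subst (σ : ℕ → Tm F C) : Tm F C → Tm F C
  | .var i => σ i
  | .cst c => .cst c
  | .zero => .zero
  | .succ t => .succ (t.subst σ)
  | .add s t => .add (s.subst σ) (t.subst σ)
  | .mul s t => .mul (s.subst σ) (t.subst σ)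
  | .app f ts => .app f (fun i => (ts i).subst σ)

/-- Raise every variable by one. -/
def Tm.shift (t : Tm F C) : Tm F C := t.subst (fun i => .var (i + 1))

/-- Simultaneous (capture avoiding) substitution of `σ i` for the free variable `i`. -/
def Fm.subst : (ℕ → Tm F C) → Fm F C → Fm F C
  | _, .bot => .bot
  | σ, .eq s t => .eq (s.subst σ) (t.subst σ)
  | σ, .and A B => .and (A.subst σ) (B.subst σ)
  | σ, .or A B => .or (A.subst σ) (B.subst σ)
  | σ, .imp A B => .imp (A.subst σ) (B.subst σ)
  | σ, .all A => .all (A.subst (scons (.var 0) (fun i => (σ i).shift)))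
  | σ, .ex A => .ex (A.subst (scons (.var 0) (fun i => (σ i).shift)))

/-- Raise every free variable by one. -/
def Fm.shift (A : Fm F C) : Fm F C := A.subst (fun i => .var (i + 1))

/-- `A.inst t` is `A(t)`, where `all A` is `∀ x, A(x)` and `ex A` is `∃ x, A(x)`. -/
def Fm.inst (A : Fm F C) (t : Tm F C) : Fm F C := A.subst (scons t .var)

/-- Intuitionistic natural deduction with equality from the axioms `T`. An axiom with free variables
stands for its universal closure, so each of its substitution instances may be used. -/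
inductive Pf (T : Set (Fm F C)) : List (Fm F C) → Fm F C → Prop
  | hyp {Γ A} : A ∈ Γ → Pf T Γ A
  | ax {Γ A} (σ : ℕ → Tm F C) : A ∈ T → Pf T Γ (A.subst σ)
  | botE {Γ A} : Pf T Γ .bot → Pf T Γ A
  | andI {Γ A B} : Pf T Γ A → Pf T Γ B → Pf T Γ (.and A B)
  | andE1 {Γ A B} : Pf T Γ (.and A B) → Pf T Γ A
  | andE2 {Γ A B} : Pf T Γ (.and A B) → Pf T Γ B
  | orI1 {Γ A B} : Pf T Γ A → Pf T Γ (.or A B)
  | orI2 {Γ A B} : Pf T Γ B → Pf T Γ (.or A B)
  | orE {Γ A B D} : Pf T Γ (.or A B) → Pf T (A :: Γ) D → Pf T (B :: Γ) D → Pf T Γ D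
  | impI {Γ A B} : Pf T (A :: Γ) B → Pf T Γ (.imp A B)
  | impE {Γ A B} : Pf T Γ (.imp A B) → Pf T Γ A → Pf T Γ B
  | allI {Γ A} : Pf T (Γ.map Fm.shift) A → Pf T Γ (.all A)
  | allE {Γ A} (t : Tm F C) : Pf T Γ (.all A) → Pf T Γ (A.inst t)
  | exI {Γ A} (t : Tm F C) : Pf T Γ (A.inst t) → Pf T Γ (.ex A)
  | exE {Γ A B} : Pf T Γ (.ex A) → Pf T (A :: Γ.map Fm.shift) B.shift → Pf T Γ B
  | refl {Γ} (t : Tm F C) : Pf T Γ (.eq t t)
  | eqE {Γ s t} (A : Fm F C) : Pf T Γ (.eq s t) → Pf T Γ (A.inst s) → Pf T Γ (A.inst t)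

/-- All variables of the term are below `n`. -/
def Tm.Below (n : ℕ) : Tm F C → Prop
  | .var i => i < n
  | .cst _ => True
  | .zero => True
  | .succ t => t.Below n
  | .add s t => s.Below n ∧ t.Below n
  | .mul s t => s.Below n ∧ t.Below n
  | .app _ ts => ∀ i, (ts i).Below n

/-- All free variables of the formula are below `n`; sentences are the formulas with `Below 0`. -/
def Fm.Below : ℕ → Fm F C → Prop
  | _, .bot => True
  | n, .eq s t => s.Below n ∧ t.Below n
  | n, .and A B => A.Below n ∧ B.Below n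
  | n, .or A B => A.Below n ∧ B.Below n
  | n, .imp A B => A.Below n ∧ B.Below n
  | n, .all A => A.Below (n + 1)
  | n, .ex A => A.Below (n + 1)

/-- Every further symbol occurring in the term has rank below `r`. -/
def Tm.RankBelow (rank : (n : ℕ) → F n → ℕ) (r : ℕ) : Tm F C → Prop
  | .var _ => True
  | .cst _ => True
  | .zero => True
  | .succ t => t.RankBelow rank r
  | .add s t => s.RankBelow rank r ∧ t.RankBelow rank r
  | .mul s t => s.RankBelow rank r ∧ t.RankBelow rank r
  | .app f ts => rank _ f < r ∧ ∀ i, (ts i).RankBelow rank r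

/-- A term without constants, read in the language with constants `C`. -/
def Tm.lift : Tm F Empty → Tm F C
  | .var i => .var i
  | .cst c => c.elim
  | .zero => .zero
  | .succ t => .succ t.lift
  | .add s t => .add s.lift t.lift
  | .mul s t => .mul s.lift t.lift
  | .app f ts => .app f (fun i => (ts i).lift)

/-- How an `n`-ary symbol `f` is introduced: explicitly, `f(x) = t(x)`, or by primitive recursion,
`f(0, x) = t₀(x)` and `f(S y, x) = t₁(f(y, x), y, x)`. -/
inductive Defn (F : ℕ → Type) : ℕ → Type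
  | expl {n : ℕ} (t : Tm F Empty) : Defn F n
  | prec {n : ℕ} (t₀ t₁ : Tm F Empty) : Defn F (n + 1)

/-- The defining terms use the right variables and only symbols of rank below `r`. -/
def Defn.Ok (rank : (n : ℕ) → F n → ℕ) (r : ℕ) : {n : ℕ} → Defn F n → Prop
  | n, .expl t => t.Below n ∧ t.RankBelow rank r
  | n + 1, .prec t₀ t₁ =>
      t₀.Below n ∧ t₁.Below (n + 2) ∧ t₀.RankBelow rank r ∧ t₁.RankBelow rank r

/-- A language of arithmetic: `0, S, +, *` and a family of primitive recursive function symbols, each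
defined from symbols of smaller rank. -/
structure Lang where
  F : ℕ → Type
  rank : (n : ℕ) → F n → ℕ
  defn : (n : ℕ) → F n → Defn F n
  ok : ∀ n f, (defn n f).Ok rank (rank n f)

/-- The language `0, S, +, *` with no further symbol. -/
abbrev Lang.basic : Lang where
  F := fun _ => Empty
  rank := fun _ f => f.elim
  defn := fun _ f => f.elim
  ok := fun _ f => f.elim

/-- The non-logical axioms of arithmetic in the language `L` with constants `C`: the axioms for
`S, +, *`, induction for every formula, and the defining equations of the further symbols. -/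
inductive HAx (L : Lang) (C : Type u) : Fm L.F C → Prop
  | succ_ne_zero : HAx L C (.imp (.eq (.succ (.var 0)) .zero) .bot)
  | succ_inj : HAx L C (.imp (.eq (.succ (.var 0)) (.succ (.var 1))) (.eq (.var 0) (.var 1)))
  | add_zero : HAx L C (.eq (.add (.var 0) .zero) (.var 0))
  | add_succ : HAx L C (.eq (.add (.var 0) (.succ (.var 1))) (.succ (.add (.var 0) (.var 1))))
  | mul_zero : HAx L C (.eq (.mul (.var 0) .zero) .zero)
  | mul_succ : HAx L C
      (.eq (.mul (.var 0) (.succ (.var 1))) (.add (.mul (.var 0) (.var 1)) (.var 0)))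
  | ind (A : Fm L.F C) : HAx L C (.imp (A.inst .zero)
      (.imp (.all (.imp A (A.subst (scons (.succ (.var 0)) (fun i => .var (i + 1)))))) (.all A)))
  | expl {n} (f : L.F n) (t) : L.defn n f = .expl t →
      HAx L C (.eq (.app f (fun i => .var i)) t.lift)
  | prec_zero {n} (f : L.F (n + 1)) (t₀ t₁) : L.defn (n + 1) f = .prec t₀ t₁ →
      HAx L C (.eq (.app f (Fin.cons .zero (fun i : Fin n => .var i))) t₀.lift)
  | prec_succ {n} (f : L.F (n + 1)) (t₀ t₁) : L.defn (n + 1) f = .prec t₀ t₁ →
      HAx L C (.eq (.app f (Fin.cons (.succ (.var 0)) (fun i : Fin n => .var (i + 1))))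
        (t₁.lift.subst (scons (.app f (fun i => .var i)) .var)))

/-- Heyting arithmetic: the axioms `HAx`, used with the intuitionistic calculus `Pf`. -/
def HA (L : Lang) (C : Type u) : Set (Fm L.F C) := {A | HAx L C A}

/-- Peano arithmetic: the same axioms with classical logic (excluded middle for every formula). -/
def PA (L : Lang) (C : Type u) : Set (Fm L.F C) :=
  HA L C ∪ {B | ∃ A, B = .or A (.imp A .bot)}

/-- A classical structure for the language; equality is read as identity. -/
structure Str (F : ℕ → Type) where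
  N : Type u
  zero : N
  succ : N → N
  add : N → N → N
  mul : N → N → N
  app : (n : ℕ) → F n → (Fin n → N) → N

universe v

/-- Value of a term; `κ` interprets the constants and `ρ` the variables. -/
def Tm.ev (M : Str.{v} F) (κ : C → M.N) (ρ : ℕ → M.N) : Tm F C → M.N
  | .var i => ρ i
  | .cst c => κ c
  | .zero => M.zero
  | .succ t => M.succ (t.ev M κ ρ)
  | .add s t => M.add (s.ev M κ ρ) (t.ev M κ ρ)
  | .mul s t => M.mul (s.ev M κ ρ) (t.ev M κ ρ)
  | .app f ts => M.app _ f (fun i => (ts i).ev M κ ρ)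

/-- Classical (Tarski) satisfaction. -/
def Fm.Sat (M : Str.{v} F) (κ : C → M.N) : (ℕ → M.N) → Fm F C → Prop
  | _, .bot => False
  | ρ, .eq s t => s.ev M κ ρ = t.ev M κ ρ
  | ρ, .and A B => A.Sat M κ ρ ∧ B.Sat M κ ρ
  | ρ, .or A B => A.Sat M κ ρ ∨ B.Sat M κ ρ
  | ρ, .imp A B => A.Sat M κ ρ → B.Sat M κ ρ
  | ρ, .all A => ∀ a, A.Sat M κ (scons a ρ)
  | ρ, .ex A => ∃ a, A.Sat M κ (scons a ρ)

/-- `s < t` abbreviates `∃ z, s + S z = t`. -/
def Fm.lt (s t : Tm F C) : Fm F C := .ex (.eq (.add s.shift (.succ (.var 0))) t.shift)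

/-- Bounded formulas. -/
inductive Delta0 : Fm F C → Prop
  | bot : Delta0 .bot
  | eq (s t) : Delta0 (.eq s t)
  | and {A B} : Delta0 A → Delta0 B → Delta0 (.and A B)
  | or {A B} : Delta0 A → Delta0 B → Delta0 (.or A B)
  | imp {A B} : Delta0 A → Delta0 B → Delta0 (.imp A B)
  | ball (t : Tm F C) {A} : Delta0 A → Delta0 (.all (.imp (.lt (.var 0) t.shift) A))
  | bex (t : Tm F C) {A} : Delta0 A → Delta0 (.ex (.and (.lt (.var 0) t.shift) A))

/-- A block of existential quantifiers in front of a bounded formula. -/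
inductive Sigma1 : Fm F C → Prop
  | base {A} : Delta0 A → Sigma1 A
  | ex {A} : Sigma1 A → Sigma1 (.ex A)

/-- A block of universal quantifiers in front of a `Sigma1` formula. -/
inductive Pi2 : Fm F C → Prop
  | base {A} : Sigma1 A → Pi2 A
  | all {A} : Pi2 A → Pi2 (.all A)

/-- `M` satisfies every `Pi2` sentence provable in PA. -/
def ModelsPi2PA (L : Lang) (M : Str.{v} L.F) : Prop :=
  ∀ A : Fm L.F Empty, Pi2 A → A.Below 0 → Pf (PA L Empty) [] A →
    A.Sat M Empty.elim (fun _ => M.zero)

/-- The diagram of `M`: the atomic and negated atomic sentences with constants for the elements of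
`M` that are true in `M`. -/
def Diag (M : Str.{v} F) : Set (Fm F M.N) :=
  {A | (∃ s t, A = .eq s t ∨ A = .imp (.eq s t) .bot) ∧ A.Below 0 ∧ A.Sat M id (fun _ => M.zero)}

/-- The existence property. -/
def ExistenceProperty (T : Set (Fm F C)) : Prop :=
  ∀ A : Fm F C, (Fm.ex A).Below 0 → Pf T [] (.ex A) → ∃ t : Tm F C, t.Below 0 ∧ Pf T [] (A.inst t)

end Pool.Agent.HAEP
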