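import Pool.Agent.Lib.MP_ebcb3a_lc.Pell

/-! Relations that are Diophantine uniformly in all models of PA. -/

namespace Pool.Agent.HAEP

/-- Polynomial functions, uniformly in the model. -/
inductive UT {V : Type} : ((M : Mod) → (V → ZZ M) → ZZ M) → Prop
  | var (v : V) : UT fun _ ρ => ρ v
  | zero : UT fun _ _ => 0
  | one : UT fun _ _ => 1
  | add {f g} : UT f → UT g → UT fun M ρ => f M ρ + g M ρ
  | mul {f g} : UT f → UT g → UT fun M ρ => f M ρ * g M ρ
  | neg {f} : UT f → UT fun M ρ => -f M ρ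

/-- Diophantine relations, uniformly in the model. -/
def UD {V : Type} (P : (M : Mod) → (V → ZZ M) → Prop) : Prop :=
  ∃ (m : ℕ) (f : (M : Mod) → (V ⊕ Fin m → ZZ M) → ZZ M), UT f ∧
    ∀ M ρ, P M ρ ↔ ∃ w : Fin m → ZZ M, (∀ i, 0 ≤ w i) ∧ f M (Sum.elim ρ w) = 0

variable {V W : Type}

namespace UT

variable {f g : (M : Mod) → (V → ZZ M) → ZZ M}

theorem of_eq (h : UT f) (e : ∀ M ρ, g M ρ = f M ρ) : UT g := by
  rwa [show g = f from funext fun M => funext fun ρ => e M ρ]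

theorem sub (h : UT f) (k : UT g) : UT fun M ρ => f M ρ - g M ρ :=
  (h.add k.neg).of_eq fun _ _ => sub_eq_add_neg _ _

theorem two : UT (V := V) fun _ _ => 2 := (one.add one).of_eq fun _ _ => one_add_one_eq_two.symm
theorem four : UT (V := V) fun _ _ => 4 := (two.add two).of_eq fun _ _ => by norm_num

theorem comp (h : UT f) (σ : V → (M : Mod) → (W → ZZ M) → ZZ M) (hσ : ∀ v, UT (σ v)) :
    UT fun M ρ => f M fun v => σ v M ρ := by
  induction h with
  | var v => exact hσ v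
  | zero => exact zero
  | one => exact one
  | add _ _ a b => exact a.add b
  | mul _ _ a b => exact a.mul b
  | neg _ a => exact a.neg

theorem bound (h : UT f) (β : V → (M : Mod) → (W → ZZ M) → ZZ M) (hβ : ∀ v, UT (β v)) :
    ∃ B, UT B ∧ ∀ M τ ρ, (∀ v, |τ v| ≤ β v M ρ) → |f M τ| ≤ B M ρ := by
  induction h with
  | var v => exact ⟨_, hβ v, fun M τ ρ h => h v⟩
  | zero => exact ⟨_, zero, fun _ _ _ _ => by simp⟩
  | one => exact ⟨_, one, fun _ _ _ _ => by simp⟩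
  | add _ _ a b =>
    obtain ⟨A, a, a'⟩ := a; obtain ⟨B, b, b'⟩ := b
    exact ⟨_, a.add b, fun M τ ρ h => (abs_add_le _ _).trans (add_le_add (a' M τ ρ h) (b' M τ ρ h))⟩
  | mul _ _ a b =>
    obtain ⟨A, a, a'⟩ := a; obtain ⟨B, b, b'⟩ := b
    exact ⟨_, a.mul b, fun M τ ρ h => by
      rw [abs_mul]
      exact mul_le_mul (a' M τ ρ h) (b' M τ ρ h) (abs_nonneg _) ((abs_nonneg _).trans (a' M τ ρ h))⟩
  | neg _ a => obtain ⟨A, a, a'⟩ := a; exact ⟨_, a, fun M τ ρ h => by simpa using a' M τ ρ h⟩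

theorem congr (h : UT f) {M : Mod} {p : ZZ M} {τ τ' : V → ZZ M} (e : ∀ v, p ∣ τ v - τ' v) :
    p ∣ f M τ - f M τ' := by
  induction h with
  | var v => exact e v
  | zero => simp
  | one => simp
  | add _ _ a b => exact (congrArg _ (by ring)).mp (dvd_add a b)
  | @mul f g _ _ a b =>
    exact (congrArg _ (by ring)).mp (dvd_add (a.mul_right (g M τ)) (b.mul_left (f M τ')))
  | neg _ a => exact (congrArg _ (by ring)).mp a.neg_right

theorem df (h : UT f) {M : Mod} {α : Type} [QB M α] {τ : α → V → ZZ M}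
    (e : ∀ v, DF M fun x => τ x v) : DF M fun x => f M (τ x) := by
  induction h with
  | var v => exact e v
  | zero => exact DF.const _
  | one => exact DF.const _
  | add _ _ a b => exact a.addZ b
  | mul _ _ a b => exact a.mulZ b
  | neg _ a => exact a.negZ

end UT

namespace UD

variable {P Q : (M : Mod) → (V → ZZ M) → Prop} {f g : (M : Mod) → (V → ZZ M) → ZZ M}

theorem of_fintype (W : Type) [Fintype W] (f : (M : Mod) → (V ⊕ W → ZZ M) → ZZ M) (hf : UT f)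
    (h : ∀ M ρ, P M ρ ↔ ∃ w : W → ZZ M, (∀ i, 0 ≤ w i) ∧ f M (Sum.elim ρ w) = 0) : UD P := by
  let e := Fintype.equivFin W
  refine ⟨_, fun M τ => f M fun v => τ (Sum.map id e v), hf.comp _ fun v => .var _, fun M ρ => ?_⟩
  rw [h]
  constructor
  · rintro ⟨w, h0, h1⟩
    refine ⟨fun i => w (e.symm i), fun i => h0 _, Eq.trans (congrArg _ ?_) h1⟩
    funext v; cases v <;> simp
  · rintro ⟨w, h0, h1⟩
    refine ⟨fun i => w (e i), fun i => h0 _, Eq.trans (congrArg _ ?_) h1⟩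
    funext v; cases v <;> simp

theorem of_iff (h : UD P) (e : ∀ M ρ, Q M ρ ↔ P M ρ) : UD Q := by
  rwa [show Q = P from funext fun M => funext fun ρ => propext (e M ρ)]

theorem comp (h : UD P) (σ : V → (M : Mod) → (W → ZZ M) → ZZ M) (hσ : ∀ v, UT (σ v)) :
    UD fun M ρ => P M fun v => σ v M ρ := by
  obtain ⟨m, f, hf, h⟩ := h
  refine ⟨m, _, hf.comp (W := W ⊕ Fin m) (Sum.elim (fun v M τ => σ v M fun u => τ (.inl u))
    (fun i _ τ => τ (.inr i))) fun v => ?_, fun M ρ => ?_⟩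
  · cases v with
    | inl v => exact (hσ v).comp _ fun u => .var _
    | inr i => exact .var _
  · refine (h _ _).trans ?_
    refine exists_congr fun w => and_congr_right fun _ => Eq.congr_left (congrArg _ ?_)
    funext v; cases v <;> rfl

theorem eq (hf : UT f) (hg : UT g) : UD fun M ρ => f M ρ = g M ρ :=
  ⟨0, fun M τ => f M (fun v => τ (.inl v)) - g M (fun v => τ (.inl v)),
    (hf.comp _ fun _ => .var _).sub (hg.comp _ fun _ => .var _), fun M ρ => by simp [sub_eq_zero]⟩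

theorem le (hf : UT f) (hg : UT g) : UD fun M ρ => f M ρ ≤ g M ρ :=
  ⟨1, fun M τ => g M (fun v => τ (.inl v)) - f M (fun v => τ (.inl v)) - τ (.inr 0),
    ((hg.comp _ fun _ => .var _).sub (hf.comp _ fun _ => .var _)).sub (.var _), fun M ρ =>
    ⟨fun h => ⟨fun _ => g M ρ - f M ρ, fun _ => sub_nonneg.2 h, sub_self _⟩,
      fun ⟨_, h0, h1⟩ => sub_nonneg.1 ((sub_eq_zero.1 h1).symm ▸ h0 0)⟩⟩

theorem lt (hf : UT f) (hg : UT g) : UD fun M ρ => f M ρ < g M ρ :=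
  (le (hf.add .one) hg).of_iff fun _ _ => ⟨succ_le, fun h => by linarith⟩

theorem and (h : UD P) (k : UD Q) : UD fun M ρ => P M ρ ∧ Q M ρ := by
  obtain ⟨m, f, hf, h⟩ := h; obtain ⟨n, g, hg, k⟩ := k
  have a := hf.comp (W := V ⊕ (Fin m ⊕ Fin n)) _ fun v => .var (Sum.map id .inl v)
  have b := hg.comp (W := V ⊕ (Fin m ⊕ Fin n)) _ fun v => .var (Sum.map id .inr v)
  refine of_fintype _ _ ((a.mul a).add (b.mul b)) fun M ρ => ?_
  have e₁ : ∀ w : Fin m ⊕ Fin n → ZZ M, (fun v => Sum.elim ρ w (Sum.map id .inl v)) =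
      Sum.elim ρ fun i => w (.inl i) := fun w => by funext v; cases v <;> rfl
  have e₂ : ∀ w : Fin m ⊕ Fin n → ZZ M, (fun v => Sum.elim ρ w (Sum.map id .inr v)) =
      Sum.elim ρ fun i => w (.inr i) := fun w => by funext v; cases v <;> rfl
  simp only [h, k, e₁, e₂, mul_self_add_mul_self_eq_zero]
  exact ⟨fun ⟨⟨w, h0, h1⟩, ⟨w', k0, k1⟩⟩ => ⟨Sum.elim w w', fun i => by cases i <;> simp [h0, k0],
    h1, k1⟩, fun ⟨w, h0, h1, k1⟩ => ⟨⟨_, fun _ => h0 _, h1⟩, ⟨_, fun _ => h0 _, k1⟩⟩⟩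

theorem or (h : UD P) (k : UD Q) : UD fun M ρ => P M ρ ∨ Q M ρ := by
  obtain ⟨m, f, hf, h⟩ := h; obtain ⟨n, g, hg, k⟩ := k
  have a := hf.comp (W := V ⊕ (Fin m ⊕ Fin n)) _ fun v => .var (Sum.map id .inl v)
  have b := hg.comp (W := V ⊕ (Fin m ⊕ Fin n)) _ fun v => .var (Sum.map id .inr v)
  refine of_fintype _ _ (a.mul b) fun M ρ => ?_
  have e₁ : ∀ w : Fin m ⊕ Fin n → ZZ M, (fun v => Sum.elim ρ w (Sum.map id .inl v)) =
      Sum.elim ρ fun i => w (.inl i) := fun w => by funext v; cases v <;> rfl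
  have e₂ : ∀ w : Fin m ⊕ Fin n → ZZ M, (fun v => Sum.elim ρ w (Sum.map id .inr v)) =
      Sum.elim ρ fun i => w (.inr i) := fun w => by funext v; cases v <;> rfl
  simp only [h, k, e₁, e₂, mul_eq_zero]
  constructor
  · rintro (⟨w, h0, h1⟩ | ⟨w, h0, h1⟩)
    · exact ⟨Sum.elim w 0, fun i => by cases i <;> simp [h0], Or.inl h1⟩
    · exact ⟨Sum.elim 0 w, fun i => by cases i <;> simp [h0], Or.inr h1⟩
  · rintro ⟨w, h0, h1 | h1⟩
    · exact Or.inl ⟨_, fun _ => h0 _, h1⟩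
    · exact Or.inr ⟨_, fun _ => h0 _, h1⟩

theorem exFun {ι : Type} [Fintype ι] {R : (M : Mod) → (ι → ZZ M) → (V → ZZ M) → Prop}
    (h : UD fun M (ρ : V ⊕ ι → ZZ M) => R M (fun i => ρ (.inr i)) fun v => ρ (.inl v)) :
    UD fun M ρ => ∃ z, R M z ρ := by
  obtain ⟨m, f, hf, h⟩ := h
  refine of_fintype (Fin m ⊕ (ι ⊕ ι)) _ (hf.comp (W := V ⊕ (Fin m ⊕ (ι ⊕ ι)))
    (Sum.elim (Sum.elim (fun v _ τ => τ (.inl v))
      fun i _ τ => τ (.inr (.inr (.inl i))) - τ (.inr (.inr (.inr i))))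
      fun i _ τ => τ (.inr (.inl i))) ?_) fun M ρ => ?_
  · rintro ((v | i) | i)
    · exact .var _
    · exact (UT.var _).sub (.var _)
    · exact .var _
  constructor
  · rintro ⟨z, hz⟩
    obtain ⟨w, h0, h1⟩ := (h M (Sum.elim ρ z)).1 hz
    choose a b e using fun i => exists_sub (z i)
    refine ⟨Sum.elim w (Sum.elim (fun i => io (a i)) fun i => io (b i)), ?_,
      Eq.trans (congrArg _ ?_) h1⟩
    · rintro (i | i | i) <;> simp [h0, io_nonneg]
    · funext v; rcases v with (v | i) | i <;> simp [e]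
  · rintro ⟨w, h0, h1⟩
    refine ⟨fun i => w (.inr (.inl i)) - w (.inr (.inr i)), (h M (Sum.elim ρ _)).2
      ⟨fun i => w (.inl i), fun _ => h0 _, Eq.trans (congrArg _ ?_) h1⟩⟩
    funext v; rcases v with (v | i) | i <;> simp

theorem ex {R : (M : Mod) → ZZ M → (V → ZZ M) → Prop}
    (h : UD fun M (ρ : Option V → ZZ M) => R M (ρ none) fun v => ρ (some v)) :
    UD fun M ρ => ∃ x, R M x ρ :=
  (exFun (ι := Unit) (R := fun M z ρ => R M (z ()) ρ) (h.comp (W := V ⊕ Unit)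
    (fun o _ τ => τ (o.elim (.inr ()) .inl)) fun _ => .var _)).of_iff
    fun _ _ => ⟨fun ⟨x, h⟩ => ⟨fun _ => x, h⟩, fun ⟨_, h⟩ => ⟨_, h⟩⟩

theorem allFin {ι : Type} [Fintype ι] {R : ι → (M : Mod) → (V → ZZ M) → Prop}
    (h : ∀ i, UD (R i)) : UD fun M ρ => ∀ i, R i M ρ := by
  classical
  have : ∀ s : Finset ι, UD fun M ρ => ∀ i ∈ s, R i M ρ := by
    intro s
    induction s using Finset.induction_on with
    | empty => exact (eq .zero .zero).of_iff fun _ _ => by simp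
    | insert a s _ ih => exact ((h a).and ih).of_iff fun _ _ => by simp
  exact (this Finset.univ).of_iff fun _ _ => by simp

theorem dvd (hf : UT f) (hg : UT g) : UD fun M ρ => f M ρ ∣ g M ρ :=
  ex (R := fun M c ρ => g M ρ = f M ρ * c)
    (eq (hg.comp _ fun _ => .var _) ((hf.comp _ fun _ => .var _).mul (.var _)))

theorem rel3 {R : (M : Mod) → ZZ M → ZZ M → ZZ M → Prop}
    (h : UD (V := ℕ) fun M ρ => R M (ρ 0) (ρ 1) (ρ 2)) {a b c : (M : Mod) → (V → ZZ M) → ZZ M}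
    (ha : UT a) (hb : UT b) (hc : UT c) : UD fun M ρ => R M (a M ρ) (b M ρ) (c M ρ) :=
  h.comp (scons a (scons b fun _ => c)) fun i => by
    rcases i with _ | _ | i
    exacts [ha, hb, hc]

end UD

variable {M : Mod}

def AlR (a b c : ZZ M) : Prop := 4 ≤ b ∧ 0 ≤ c ∧ a = al b c
def PwR (p q r : ZZ M) : Prop := 0 < q ∧ 0 ≤ r ∧ p = pw q r
def BinR (c n k : ZZ M) : Prop := 0 ≤ n ∧ 0 ≤ k ∧ c * fac k = dsc n k
def FacR (f n : ZZ M) : Prop := 0 ≤ n ∧ f = fac n
def DscR (d z w : ZZ M) : Prop := 0 ≤ z ∧ 0 ≤ w ∧ d = dsc z w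
def MdR (r a m : ZZ M) : Prop := 0 < m ∧ r = md a m

variable {a b c : (M : Mod) → (V → ZZ M) → ZZ M}

theorem UD.al (ha : UT a) (hb : UT b) (hc : UT c) : UD fun M ρ => AlR (a M ρ) (b M ρ) (c M ρ) := by
  refine UD.rel3 (R := fun _ => AlR) (UD.of_iff ?_ fun M ρ =>
    and_congr_right fun hb => and_congr_right fun hc => matiyasevich hb hc) ha hb hc
  repeat' first
    | with_reducible apply UD.and | with_reducible apply UD.ex | with_reducible apply UD.eq
    | with_reducible apply UD.le | with_reducible apply UD.lt | with_reducible apply UD.dvd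
    | with_reducible apply UT.add | with_reducible apply UT.sub | with_reducible apply UT.mul
    | exact UT.var _ | exact UT.zero | exact UT.one | exact UT.two | exact UT.four

theorem UD.pw (ha : UT a) (hb : UT b) (hc : UT c) : UD fun M ρ => PwR (a M ρ) (b M ρ) (c M ρ) := by
  refine UD.rel3 (R := fun _ => PwR) (UD.of_iff (P := fun M ρ => 0 < ρ 1 ∧ 0 ≤ ρ 2 ∧ ∃ a b x y,
    AlR a (ρ 1 + 4) (ρ 2 + 1) ∧ b = a + ρ 1 + 4 ∧ AlR x b (ρ 2) ∧ AlR y b (ρ 2 + 1) ∧ 0 ≤ ρ 0 ∧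
      ρ 0 < b * ρ 1 - ρ 1 * ρ 1 - 1 ∧ b * ρ 1 - ρ 1 * ρ 1 - 1 ∣ ρ 1 * x - (b * x - y) - ρ 0) ?_
    fun M ρ => and_congr_right fun hb => and_congr_right fun hc => (pw_iff hb hc).trans ?_) ha hb hc
  · repeat' first
    | with_reducible apply UD.al
    | with_reducible apply UD.and | with_reducible apply UD.ex | with_reducible apply UD.eq
    | with_reducible apply UD.le | with_reducible apply UD.lt | with_reducible apply UD.dvd
    | with_reducible apply UT.add | with_reducible apply UT.sub | with_reducible apply UT.mul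
    | exact UT.var _ | exact UT.zero | exact UT.one | exact UT.two | exact UT.four
  · constructor
    · rintro ⟨a, b, x, y, h1, h2, h3, h4, h⟩
      have : 4 ≤ b := by linarith [al_nonneg (b := ρ 1 + 4) (n := ρ 2 + 1) (by linarith) (by linarith)]
      exact ⟨a, b, x, y, ⟨by linarith, by linarith, h1⟩, h2, ⟨this, hc, h3⟩,
        ⟨this, by linarith, h4⟩, h⟩
    · rintro ⟨a, b, x, y, h1, h2, h3, h4, h⟩
      exact ⟨a, b, x, y, h1.2.2, h2, h3.2.2, h4.2.2, h⟩

theorem UD.bin (ha : UT a) (hb : UT b) (hc : UT c) : UD fun M ρ => BinR (a M ρ) (b M ρ) (c M ρ) := by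
  refine UD.rel3 (R := fun _ => BinR) (UD.of_iff (P := fun M ρ => 0 ≤ ρ 1 ∧ 0 ≤ ρ 2 ∧
    ∃ u H L x y z, PwR x 2 (ρ 1) ∧ PwR y (u + 1) (ρ 1) ∧ PwR z u (ρ 2) ∧ u = x + 1 ∧
      y = (H * u + ρ 0) * z + L ∧ 0 ≤ ρ 0 ∧ ρ 0 < u ∧ 0 ≤ L ∧ L < z) ?_
    fun M ρ => and_congr_right fun hb => and_congr_right fun hc => (binom_iff hb hc).trans ?_)
    ha hb hc
  · repeat' first
    | with_reducible apply UD.pw
    | with_reducible apply UD.and | with_reducible apply UD.ex | with_reducible apply UD.eq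
    | with_reducible apply UD.le | with_reducible apply UD.lt | with_reducible apply UD.dvd
    | with_reducible apply UT.add | with_reducible apply UT.sub | with_reducible apply UT.mul
    | exact UT.var _ | exact UT.zero | exact UT.one | exact UT.two | exact UT.four
  · constructor
    · rintro ⟨u, H, L, h1, h2, h3, h4, h⟩
      exact ⟨u, H, L, _, _, _, ⟨two_pos, hb, rfl⟩, ⟨by linarith, hb, rfl⟩, ⟨by linarith, hc, rfl⟩,
        h1, h2, h3, h4, h⟩
    · rintro ⟨u, H, L, _, _, _, ⟨-, -, rfl⟩, ⟨-, -, rfl⟩, ⟨-, -, rfl⟩, h⟩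
      exact ⟨u, H, L, h⟩

theorem UD.fac (ha : UT a) (hb : UT b) : UD fun M ρ => FacR (a M ρ) (b M ρ) := by
  refine UD.rel3 (R := fun _ a b _ => FacR a b) (UD.of_iff (P := fun M ρ => 0 ≤ ρ 1 ∧
    ∃ r c x y, PwR x (ρ 1 + 1) (ρ 1) ∧ PwR y r (ρ 1) ∧ r = ρ 1 * ρ 1 * (x + 1) + 1 ∧
      BinR c r (ρ 1) ∧ ρ 0 * c ≤ y ∧ y < (ρ 0 + 1) * c) ?_
    fun M ρ => and_congr_right fun hb => (fac_iff hb).trans ?_) ha hb hb
  · repeat' first
    | with_reducible apply UD.pw | with_reducible apply UD.bin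
    | with_reducible apply UD.and | with_reducible apply UD.ex | with_reducible apply UD.eq
    | with_reducible apply UD.le | with_reducible apply UD.lt | with_reducible apply UD.dvd
    | with_reducible apply UT.add | with_reducible apply UT.sub | with_reducible apply UT.mul
    | exact UT.var _ | exact UT.zero | exact UT.one | exact UT.two | exact UT.four
  · constructor
    · rintro ⟨r, c, h1, h2, h⟩
      have := pw_pos (show 0 < ρ 1 + 1 by linarith) hb
      have r0 : 0 < r := by rw [h1]; positivity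
      exact ⟨r, c, _, _, ⟨by linarith, hb, rfl⟩, ⟨r0, hb, rfl⟩, h1, ⟨r0.le, hb, h2⟩, h⟩
    · rintro ⟨r, c, _, _, ⟨-, -, rfl⟩, ⟨-, -, rfl⟩, h1, h2, h⟩
      exact ⟨r, c, h1, h2.2.2, h⟩

theorem UD.dsc (ha : UT a) (hb : UT b) (hc : UT c) : UD fun M ρ => DscR (a M ρ) (b M ρ) (c M ρ) := by
  refine UD.rel3 (R := fun _ => DscR) (UD.of_iff (P := fun M ρ =>
    ∃ c f, BinR c (ρ 1) (ρ 2) ∧ FacR f (ρ 2) ∧ ρ 0 = c * f) ?_ fun M ρ => ?_) ha hb hc
  · repeat' first
    | with_reducible apply UD.fac | with_reducible apply UD.bin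
    | with_reducible apply UD.and | with_reducible apply UD.ex | with_reducible apply UD.eq
    | with_reducible apply UT.mul | exact UT.var _
  · constructor
    · rintro ⟨h1, h2, h⟩
      obtain ⟨c, hc⟩ := exists_binom h1 h2
      exact ⟨c, _, ⟨h1, h2, hc⟩, ⟨h2, rfl⟩, h.trans hc.symm⟩
    · rintro ⟨c, _, ⟨h1, h2, hc⟩, ⟨-, rfl⟩, h⟩
      exact ⟨h1, h2, h.trans hc⟩

theorem UD.md (ha : UT a) (hb : UT b) (hc : UT c) : UD fun M ρ => MdR (a M ρ) (b M ρ) (c M ρ) :=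
  ((UD.le .zero ha).and ((UD.lt ha hc).and (UD.dvd hc (hb.sub ha)))).of_iff fun _ _ =>
    ⟨fun h => by rw [h.2]; exact md_spec _ h.1,
      fun h => ⟨h.1.trans_lt h.2.1, (md_eq h.1 h.2.1 h.2.2).symm⟩⟩

end Pool.Agent.HAEP
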