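import Pool.Agent.Lib.MP_ebcb3a_lc.Dioph

/-! Elimination of a bounded universal quantifier (Davis, Putnam, Robinson, Matiyasevich) in all
models of PA, and extraction of an existential formula. -/

namespace Pool.Agent.HAEP

variable {M : Mod}

theorem sub_dvd_dsc (z : ZZ M) {x c : ZZ M} (hx : 0 ≤ x) (hc : x < c) : z - x ∣ dsc z c := by
  refine ind (fun c => x < c → z - x ∣ dsc z c) (by fun_prop) (fun h => absurd h (not_lt.2 hx))
    (fun c c0 ih h => ?_) c (by linarith) hc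
  rw [dsc_succ _ c0]
  rcases (le_of_lt_succ h).lt_or_eq with l | rfl
  · exact (ih l).mul_right _
  · exact dvd_mul_left _ _

theorem prime_dvd_dsc {p : ZZ M} (hp : 1 < p) (hq : ∀ e, ¬ p ∣ e → IsCoprime p e) (z : ZZ M)
    {c : ZZ M} (hc : 0 ≤ c) : p ∣ dsc z c → ∃ x, 0 ≤ x ∧ x < c ∧ p ∣ z - x := by
  refine ind (fun c => p ∣ dsc z c → ∃ x, 0 ≤ x ∧ x < c ∧ p ∣ z - x) (by fun_prop)
    (fun h => absurd (by simpa using h) (not_dvd_one hp)) (fun c c0 ih h => ?_) c hc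
  rw [dsc_succ _ c0] at h
  by_cases k : p ∣ z - c
  · exact ⟨c, c0, by linarith, k⟩
  · obtain ⟨x, h0, h1, h2⟩ := ih ((hq _ k).dvd_of_dvd_mul_right h)
    exact ⟨x, h0, by linarith, h2⟩

theorem moduli {b K q : ZZ M} (hb : 0 ≤ b) (hK : b + 2 ≤ K) (hq : q + 1 = fac b * fac K) :
    ∃ m : ZZ M → ZZ M, DF M m ∧ (∀ y, 0 ≤ y → y < b → 1 < m y ∧ m y ∣ q - y ∧
      ∀ d, 1 < d → d ∣ m y → K < d) ∧
      (∀ i j, 0 ≤ i → i < j → j < b → IsCoprime (m i) (m j)) ∧
      ∀ C, C * fac b = dsc q b → (∀ y, 0 ≤ y → y < b → m y ∣ C) ∧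
        ∀ X, (∀ y, 0 ≤ y → y < b → m y ∣ X) → C ∣ X := by
  have K0 : 0 ≤ K := by linarith
  let m : ZZ M → ZZ M := fun y => the fun m => 0 ≤ y ∧ (y + 1) * (m + 1) = q + 1
  have u : ∀ y a c : ZZ M, (0 ≤ y ∧ (y + 1) * (a + 1) = q + 1) →
      (0 ≤ y ∧ (y + 1) * (c + 1) = q + 1) → a = c := fun y a c h k =>
    add_right_cancel (mul_left_cancel₀ (by linarith [h.1]) (h.2.trans k.2.symm))
  have hm : DF M m := DF.the (by fun_prop) u
  have h1 : ∀ y, 0 ≤ y → y < b → 1 < m y ∧ q - y = (y + 1) * m y ∧ ∀ d, 1 < d → d ∣ m y → K < d := by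
    intro y y0 yb
    obtain ⟨g, hg⟩ := dvd_fac hb (y + 1) (by linarith) (succ_le yb)
    have e : 0 ≤ y ∧ (y + 1) * (g * fac K - 1 + 1) = q + 1 := ⟨y0, by rw [hq, hg]; ring⟩
    have e' : m y = g * fac K - 1 := u y _ _
      (the_spec (R := fun m => 0 ≤ y ∧ (y + 1) * (m + 1) = q + 1) ⟨_, e⟩) e
    have g0 : 0 < g := by
      have := fac_pos hb
      rw [hg] at this
      exact pos_of_mul_pos_left (mul_comm g _ ▸ this) (by linarith)
    have k1 := le_of_dvd' (dvd_fac K0 K (by linarith) le_rfl) (fac_pos K0)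
    refine ⟨by rw [e']; nlinarith [one_le g0, succ_le yb], by rw [e']; linear_combination -e.2,
      fun d d1 hd => lt_of_not_ge fun dK => not_dvd_one d1 ?_⟩
    have := dvd_sub ((dvd_fac K0 d (by linarith) dK).mul_left g) hd
    rwa [e', sub_sub_cancel] at this
  have h2 : ∀ i j, 0 ≤ i → i < j → j < b → IsCoprime (m i) (m j) := by
    intro i j i0 ij jb
    obtain ⟨a1, a2, a3⟩ := h1 i i0 (by linarith)
    obtain ⟨-, b2, -⟩ := h1 j (by linarith) jb
    refine coprime_of (by linarith) fun d d1 k1 k2 => ?_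
    have := dvd_sub (k1.mul_left (i + 1)) (k2.mul_left (j + 1))
    rw [← a2, ← b2, sub_sub_sub_cancel_left] at this
    linarith [le_of_dvd' this (by linarith), a3 d d1 k1]
  refine ⟨m, hm, fun y y0 yb => ⟨(h1 y y0 yb).1, ⟨y + 1, by rw [(h1 y y0 yb).2.1]; ring⟩,
    (h1 y y0 yb).2.2⟩, h2, fun C hC => ?_⟩
  obtain ⟨C', e, k1, -, k2⟩ := ind (fun k => k ≤ b → ∃ C, C * fac k = dsc q k ∧
      (∀ y, 0 ≤ y → y < k → m y ∣ C) ∧ (∀ j, k ≤ j → j < b → IsCoprime C (m j)) ∧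
      ∀ X, (∀ y, 0 ≤ y → y < k → m y ∣ X) → C ∣ X) (by fun_prop)
    (fun _ => ⟨1, by simp, fun i h k => absurd k (not_lt.2 h), fun _ _ _ => isCoprime_one_left,
      fun _ _ => one_dvd _⟩)
    (fun k k0 ih kb => by
      obtain ⟨C, e, a1, a2, a3⟩ := ih (by linarith)
      refine ⟨C * m k, ?_, fun y y0 yk => ?_, fun j kj jb => (a2 j (by linarith) jb).mul_left
        (h2 k j k0 (by linarith) jb), fun X hX => (a2 k le_rfl (by linarith)).mul_dvd
          (a3 X fun y y0 yk => hX y y0 (by linarith)) (hX k k0 (by linarith))⟩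
      · rw [fac_succ k0, dsc_succ _ k0, (h1 k k0 (by linarith)).2.1, ← e]; ring
      · rcases (le_of_lt_succ yk).lt_or_eq with l | rfl
        · exact (a1 y y0 l).mul_right _
        · exact dvd_mul_left _ _) b hb le_rfl
  obtain rfl : C = C' := mul_right_cancel₀ (fac_pos hb).ne' (hC.trans e.symm)
  exact ⟨k1, k2⟩

theorem dpr {n : ℕ} (F : ZZ M → (Fin n → ZZ M) → ZZ M)
    (hF : DF M fun x : ZZ M × (Fin n → ZZ M) => F x.1 x.2) (B : ZZ M → ZZ M)
    (hB : ∀ c y x, |y| ≤ c → (∀ i, |x i| ≤ c) → |F y x| ≤ B c)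
    (hc : ∀ p y y' x x', p ∣ y - y' → (∀ i, p ∣ x i - x' i) → p ∣ F y x - F y' x') {b : ZZ M}
    (hb : 0 ≤ b) : (∀ y, 0 ≤ y → y < b → ∃ x, (∀ i, 0 ≤ x i) ∧ F y x = 0) ↔
      ∃ c f g q C, b ≤ c ∧ FacR f b ∧ FacR g (B c + c + 2) ∧ q + 1 = f * g ∧ BinR C q b ∧
        ∃ z : Fin n → ZZ M, C ∣ F q z ∧ ∀ i, ∃ D, DscR D (z i) c ∧ C ∣ D := by
  have B0 : ∀ c, 0 ≤ c → 0 ≤ B c := fun c h =>
    (abs_nonneg _).trans (hB c 0 0 (by simpa using h) (by simpa using fun _ => h))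
  constructor
  · intro h
    obtain ⟨w, w0, hw⟩ := collect (fun y x => (∀ i, 0 ≤ x i) ∧ F y x = 0) (by fun_prop) hb h
    have c0 : 0 ≤ w + b := by linarith
    have K0 := B0 _ c0
    obtain ⟨q, hq⟩ : ∃ q, q + 1 = fac b * fac (B (w + b) + (w + b) + 2) := ⟨_, sub_add_cancel _ _⟩
    have q0 : 0 ≤ q := by
      have := mul_pos (fac_pos hb) (fac_pos (show 0 ≤ B (w + b) + (w + b) + 2 by linarith))
      linarith [one_le this]
    obtain ⟨m, hm, m1, m2, m3⟩ := moduli hb (by linarith) hq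
    obtain ⟨C, hC⟩ := exists_binom q0 hb
    obtain ⟨z, z0, hz⟩ := crt (fun y x => (∀ i, 0 ≤ x i ∧ x i < w + b) ∧ F y x = 0) (by fun_prop)
      m hm hb (fun i i0 ib => by linarith [(m1 i i0 ib).1]) m2 fun y y0 yb => by
        obtain ⟨x, hx, k⟩ := hw y y0 yb
        exact ⟨x, fun i => ⟨hx.1 i, by linarith [(k i).2]⟩, hx.2⟩
    refine ⟨w + b, _, _, q, C, by linarith, ⟨hb, rfl⟩, ⟨by linarith, rfl⟩, hq, ⟨q0, hb, hC⟩, z,
      (m3 C hC).2 _ fun y y0 yb => ?_, fun i => ⟨_, ⟨z0 i, c0, rfl⟩,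
        (m3 C hC).2 _ fun y y0 yb => ?_⟩⟩
    · obtain ⟨x, hx, k⟩ := hz y y0 yb
      simpa [hx.2] using hc _ _ _ _ _ (m1 y y0 yb).2.1 k
    · obtain ⟨x, hx, k⟩ := hz y y0 yb
      exact (k i).trans (sub_dvd_dsc _ (hx.1 i).1 (hx.1 i).2)
  · rintro ⟨c, _, _, q, C, bc, ⟨-, rfl⟩, ⟨-, rfl⟩, hq, ⟨-, -, hC⟩, z, h1, h2⟩ y y0 yb
    have c0 : 0 ≤ c := by linarith
    have K0 := B0 _ c0
    obtain ⟨m, -, m1, -, m3⟩ := moduli hb (by linarith) hq
    obtain ⟨a1, a2, a3⟩ := m1 y y0 yb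
    obtain ⟨p, p1, p2, p3⟩ := exists_prime a1
    have pC := p2.trans ((m3 C hC).1 y y0 yb)
    have : ∀ i, ∃ x, 0 ≤ x ∧ x < c ∧ p ∣ z i - x := fun i => by
      obtain ⟨_, ⟨-, -, rfl⟩, k⟩ := h2 i
      exact prime_dvd_dsc p1 p3 _ c0 (pC.trans k)
    choose x x0 x1 x2 using this
    have k1 := dvd_sub (pC.trans h1) (hc p _ _ _ _ (p2.trans a2) x2)
    rw [sub_sub_cancel] at k1
    have k2 := abs_le.1 (hB c y x (by rw [abs_of_nonneg y0]; linarith)
      fun i => by rw [abs_of_nonneg (x0 i)]; exact (x1 i).le)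
    have k3 := a3 p p1 p2
    exact ⟨x, x0, dvd_zero' k1 (by linarith [k2.1]) (by linarith [k2.2])⟩

theorem UD.ball {V : Type} {P : (M : Mod) → ZZ M → (V → ZZ M) → Prop}
    (h : UD fun M (ρ : Option V → ZZ M) => P M (ρ none) fun v => ρ (some v))
    {b : (M : Mod) → (V → ZZ M) → ZZ M} (hb : UT b) :
    UD fun M ρ => 0 ≤ b M ρ ∧ ∀ y, 0 ≤ y → y < b M ρ → P M y ρ := by
  obtain ⟨n, f, hf, h⟩ := h
  obtain ⟨B, hB, hB'⟩ := hf.bound (W := Option V)
    (Sum.elim (fun o => o.elim (fun _ τ => τ none) fun v _ τ => τ (some v) * τ (some v))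
      fun _ _ τ => τ none) (by
      rintro ((_ | v) | i)
      exacts [.var _, (UT.var _).mul (.var _), .var _])
  refine UD.of_iff (P := fun M ρ => 0 ≤ b M ρ ∧ ∃ c f₁ g q C, b M ρ ≤ c ∧ FacR f₁ (b M ρ) ∧
    FacR g (B M (fun o => o.elim c ρ) + c + 2) ∧ q + 1 = f₁ * g ∧ BinR C q (b M ρ) ∧
      ∃ z : Fin n → ZZ M, C ∣ f M (Sum.elim (fun o => o.elim q ρ) z) ∧
        ∀ i, ∃ D, DscR D (z i) c ∧ C ∣ D) ?_ fun M ρ => and_congr_right fun b0 => ?_
  · have hb' := hb.comp (W := Option (Option (Option (Option (Option V))))) _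
      fun v => .var (some (some (some (some (some v)))))
    refine (UD.le .zero hb).and (.ex (.ex (.ex (.ex (.ex ((UD.le hb' (.var _)).and
      ((UD.fac (.var _) hb').and ((UD.fac (.var _) (((UT.of_eq (hB.comp
        (fun o _ τ => τ (o.elim (some (some (some (some none))))
          fun v => some (some (some (some (some v)))))) fun _ => .var _) ?_).add (.var _)).add
        .two)).and ((UD.eq ((UT.var _).add .one) ((UT.var _).mul (.var _))).and
          ((UD.bin (.var _) (.var _) hb').and (.exFun ((UD.dvd (.var _) (UT.of_eq (hf.comp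
            (fun o _ τ => τ (Sum.map (fun o => o.elim (some none)
              fun v => some (some (some (some (some v))))) id o)) fun _ => .var _) ?_)).and
            (.allFin fun i => .ex ((UD.dsc (.var _) (.var _) (.var _)).and
              (.dvd (.var _) (.var _))))))))))))))))
    · intro M ρ; refine congrArg _ (funext fun o => ?_); cases o <;> rfl
    · intro M ρ; refine congrArg _ (funext fun o => ?_); rcases o with (_ | _) | _ <;> rfl
  · rw [← dpr (fun y x => f M (Sum.elim (fun o => o.elim y ρ) x)) ?_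
      (fun c => B M fun o => o.elim c ρ) ?_ ?_ b0]
    · exact forall₃_congr fun y _ _ => h M fun o => o.elim y ρ
    · refine hf.df ?_
      rintro ((_ | v) | i)
      · exact DF.id'.fst
      · exact DF.const _
      · exact (DF.apply i).comp DF.id'.snd
    · intro c y x hy hx
      refine hB' M _ _ ?_
      rintro ((_ | v) | i)
      exacts [hy, abs_le_sq _, hx i]
    · intro p y y' x x' hy hx
      refine hf.congr ?_
      rintro ((_ | v) | i)
      exacts [hy, by simp, hx i]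

theorem UT.terms {V : Type} {f : (M : Mod) → (V → ZZ M) → ZZ M} (h : UT f) (τ : V → ℕ) :
    ∃ s t : Tm0, ∀ (M : Mod) (ρ : ℕ → NN M), (f M fun v => io (ρ (τ v))) =
      io (s.ev M.M Empty.elim ρ) - io (t.ev M.M Empty.elim ρ) := by
  induction h with
  | var v => exact ⟨.var (τ v), .zero, fun M ρ => (sub_zero _).symm⟩
  | zero => exact ⟨.zero, .zero, fun M ρ => (sub_self _).symm⟩
  | one => exact ⟨.succ .zero, .zero, fun M ρ => (sub_zero _).symm⟩
  | add _ _ a b =>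
    obtain ⟨s, t, a⟩ := a; obtain ⟨s', t', b⟩ := b
    refine ⟨.add s s', .add t t', fun M ρ => ?_⟩
    change _ = io (_ + _) - io (_ + _)
    simp only [a, b, map_add]; ring
  | mul _ _ a b =>
    obtain ⟨s, t, a⟩ := a; obtain ⟨s', t', b⟩ := b
    refine ⟨.add (.mul s s') (.mul t t'), .add (.mul s t') (.mul t s'), fun M ρ => ?_⟩
    change _ = io (_ * _ + _ * _) - io (_ * _ + _ * _)
    simp only [a, b, map_add, map_mul]; ring
  | neg _ a => obtain ⟨s, t, a⟩ := a; exact ⟨t, s, fun M ρ => by simp only [a]; ring⟩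

end Pool.Agent.HAEP
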