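import Pool.Agent.Lib.MP_ebcb3a_lc.Realize

/-! The existence property, given a machine. -/

namespace Pool.Agent.HAEP

universe u v

section
variable {F : ℕ → Type} {C : Type u} {T : Set (Fm F C)} {Γ : List (Fm F C)} {A B D E : Fm F C}

theorem Pf.ex_mono (h : Pf T Γ (.ex A)) (k : Pf T (A :: Γ.map Fm.shift) B) : Pf T Γ (.ex B) := by
  refine .exE h (.exI (A := B.subst (up fun i => .var (i + 1))) (.var 0) ?_)
  rw [Fm.subst_up_inst, show (scons (Tm.var 0) fun i => Tm.var (i + 1)) = (Tm.var : ℕ → Tm F C) from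
    up_var, Fm.subst_id]
  exact k

theorem exs_of_not (hD : D.Below 0) (m) (h : Pf T Γ (.imp D .bot)) : Pf T Γ (exs m (.imp D E)) := by
  induction m generalizing Γ with
  | zero => exact .impI (.botE (h.wk.impE .hyp0))
  | succ m ih =>
    refine Pf.ex_mono (A := .eq .zero .zero) (.exI .zero (.refl _)) (ih ?_).wk
    have := h.shift
    rwa [Fm.shift, Fm.subst_imp, hD.closed] at this

theorem exs_of_exs (m) (h : Pf T Γ (exs m E)) : Pf T Γ (exs m (.imp D E)) := by
  induction m generalizing Γ with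
  | zero => exact .impI h.wk
  | succ m ih => exact Pf.ex_mono h (ih .hyp0)

/-- Quantifier-free formulas behind a block of existential quantifiers. -/
inductive QF : Fm F C → Prop
  | bot : QF .bot
  | eq (s t) : QF (.eq s t)
  | and {A B : Fm F C} : QF A → QF B → QF (.and A B)
  | imp {A B : Fm F C} : QF A → QF B → QF (.imp A B)

theorem QF.tr {C' : Type v} (h : QF A) (g : C → Tm F C') (σ) :
    Delta0 (A.tr (fun _ f => f) g σ) := by
  induction h with
  | bot => exact .bot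
  | eq => exact .eq _ _
  | and _ _ a b => exact .and a b
  | imp _ _ a b => exact .imp a b

theorem QF.tr_exs {C' : Type v} (h : QF A) (m) (g : C → Tm F C') (σ) :
    Sigma1 ((exs m A).tr (fun _ f => f) g σ) := by
  induction m generalizing g σ with
  | zero => exact .base (h.tr g σ)
  | succ m ih => exact .ex (ih _ _)

/-- Conjunction of a list. -/
def conj : List (Fm F C) → Fm F C
  | [] => .imp .bot .bot
  | A :: Γ => .and A (conj Γ)

theorem pf_conj (h : A ∈ Γ) : Pf T [conj Γ] A := by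
  suffices ∀ Δ, Pf T Δ (conj Γ) → Pf T Δ A from this _ .hyp0
  induction Γ with
  | nil => simp at h
  | cons B Γ ih =>
    intro Δ k
    rcases List.mem_cons.1 h with rfl | h
    · exact k.andE1
    · exact ih h Δ k.andE2

variable (M : Str.{v} F)

theorem Tm.consts (t : Tm F C) : ∃ cs : List C, ∀ κ κ' ρ, (∀ c ∈ cs, κ c = κ' c) →
    t.ev M κ ρ = t.ev M κ' ρ := by
  induction t with
  | var => exact ⟨[], fun _ _ _ _ => rfl⟩
  | cst c => exact ⟨[c], fun _ _ _ h => h c List.mem_cons_self⟩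
  | zero => exact ⟨[], fun _ _ _ _ => rfl⟩
  | succ t a => obtain ⟨l, a⟩ := a; exact ⟨l, fun κ κ' ρ h => by simp [Tm.ev, a κ κ' ρ h]⟩
  | add s t a b =>
    obtain ⟨l, a⟩ := a; obtain ⟨l', b⟩ := b
    exact ⟨l ++ l', fun κ κ' ρ h => by
      simp [Tm.ev, a κ κ' ρ fun c hc => h c (List.mem_append_left _ hc),
        b κ κ' ρ fun c hc => h c (List.mem_append_right _ hc)]⟩
  | mul s t a b =>
    obtain ⟨l, a⟩ := a; obtain ⟨l', b⟩ := b
    exact ⟨l ++ l', fun κ κ' ρ h => by
      simp [Tm.ev, a κ κ' ρ fun c hc => h c (List.mem_append_left _ hc),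
        b κ κ' ρ fun c hc => h c (List.mem_append_right _ hc)]⟩
  | app f ts a =>
    choose l a using a
    refine ⟨(List.ofFn l).flatten, fun κ κ' ρ h => ?_⟩
    simp only [Tm.ev]; congr 1; funext i
    exact a i κ κ' ρ fun c hc => h c (List.mem_flatten.2 ⟨_, List.mem_ofFn.2 ⟨i, rfl⟩, hc⟩)

theorem Fm.consts (A : Fm F C) : ∃ cs : List C, ∀ κ κ' ρ, (∀ c ∈ cs, κ c = κ' c) →
    (A.Sat M κ ρ ↔ A.Sat M κ' ρ) := by
  induction A with
  | bot => exact ⟨[], fun _ _ _ _ => Iff.rfl⟩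
  | eq s t =>
    obtain ⟨l, a⟩ := s.consts M; obtain ⟨l', b⟩ := t.consts M
    exact ⟨l ++ l', fun κ κ' ρ h => by
      simp [Fm.Sat, a κ κ' ρ fun c hc => h c (List.mem_append_left _ hc),
        b κ κ' ρ fun c hc => h c (List.mem_append_right _ hc)]⟩
  | and s t a b =>
    obtain ⟨l, a⟩ := a; obtain ⟨l', b⟩ := b
    exact ⟨l ++ l', fun κ κ' ρ h => by
      simp [Fm.Sat, a κ κ' ρ fun c hc => h c (List.mem_append_left _ hc),
        b κ κ' ρ fun c hc => h c (List.mem_append_right _ hc)]⟩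
  | or s t a b =>
    obtain ⟨l, a⟩ := a; obtain ⟨l', b⟩ := b
    exact ⟨l ++ l', fun κ κ' ρ h => by
      simp [Fm.Sat, a κ κ' ρ fun c hc => h c (List.mem_append_left _ hc),
        b κ κ' ρ fun c hc => h c (List.mem_append_right _ hc)]⟩
  | imp s t a b =>
    obtain ⟨l, a⟩ := a; obtain ⟨l', b⟩ := b
    exact ⟨l ++ l', fun κ κ' ρ h => by
      simp [Fm.Sat, a κ κ' ρ fun c hc => h c (List.mem_append_left _ hc),
        b κ κ' ρ fun c hc => h c (List.mem_append_right _ hc)]⟩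
  | all A a => obtain ⟨l, a⟩ := a; exact ⟨l, fun κ κ' ρ h => by simp [Fm.Sat, a κ κ' _ h]⟩
  | ex A a => obtain ⟨l, a⟩ := a; exact ⟨l, fun κ κ' ρ h => by simp [Fm.Sat, a κ κ' _ h]⟩

theorem Fm.Below.sat (h : A.Below 0) (κ : C → M.N) (ρ) :
    A.Sat M κ ρ ↔ A.Sat M κ fun _ => M.zero := by
  conv_lhs => rw [← h.closed fun _ => .zero, Fm.sat_subst]
  rfl

theorem sat_exs (hD : D.Below 0) (κ : C → M.N) (hs : D.Sat M κ fun _ => M.zero) (m ρ)
    (h : (exs m (.imp D E)).Sat M κ ρ) : (exs m E).Sat M κ ρ := by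
  induction m generalizing ρ with
  | zero => exact h ((hD.sat M κ ρ).2 hs)
  | succ m ih => obtain ⟨a, h⟩ := h; exact ⟨a, ih _ h⟩

theorem coh_exs (m) (s t : Tm F C) : Coh (exs m (.eq s t)) := by
  induction m with
  | zero => exact .eq _ _
  | succ m ih => exact .ex ih

theorem emb_exs (m) (s t : Tm0) (σ : ℕ → Tm F C) :
    ∃ s' t', (exs m (.eq s t)).emb σ = exs m (.eq s' t') := by
  induction m generalizing σ with
  | zero => exact ⟨_, _, rfl⟩
  | succ m ih => obtain ⟨s', t', h⟩ := ih (up σ); exact ⟨s', t', by simp [exs, h]⟩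

end

variable {L : Lang} {M : Str.{v} L.F}

theorem pa_tr {C : Type u} {C' : Type v} {B : Fm L.F C} (h : B ∈ PA L C) (g : C → Tm L.F C') (σ) :
    Pf (PA L C') [] (B.tr (fun _ f => f) g σ) := by
  rcases h with h | ⟨A, rfl⟩
  · refine Pf.monoT Set.subset_union_left ?_
    match B, h with
    | _, .succ_ne_zero => exact .ax σ HAx.succ_ne_zero
    | _, .succ_inj => exact .ax σ HAx.succ_inj
    | _, .add_zero => exact .ax σ HAx.add_zero
    | _, .add_succ => exact .ax σ HAx.add_succ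
    | _, .mul_zero => exact .ax σ HAx.mul_zero
    | _, .mul_succ => exact .ax σ HAx.mul_succ
    | _, .ind A => exact ind_tr _ _ σ A
    | _, .expl f t e =>
      simpa [Fm.tr, Tm.tr, Tm.lift_tr] using Pf.ax (T := HA L C') (Γ := []) σ (HAx.expl f t e)
    | _, .prec_zero f t₀ t₁ e =>
      have := Pf.ax (T := HA L C') (Γ := []) σ (HAx.prec_zero f t₀ t₁ e)
      simp only [Fm.tr, Tm.tr, Tm.lift_tr]
      refine Eq.mp (congrArg (fun x => Pf _ _ (Fm.eq (Tm.app f x) _)) ?_) this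
      funext i; exact Fin.cases rfl (fun _ => rfl) i
    | _, .prec_succ f t₀ t₁ e =>
      have := Pf.ax (T := HA L C') (Γ := []) σ (HAx.prec_succ f t₀ t₁ e)
      simp only [Fm.tr, Tm.tr, Tm.lift_tr, Tm.subst_tr]
      simp only [Fm.subst_eq, Tm.subst_subst, Tm.subst_app] at this
      refine Eq.mp (congrArg₂ (fun x y => Pf _ _ (Fm.eq (Tm.app f x) (Tm.subst y _))) ?_ ?_) this
      · funext i; exact Fin.cases rfl (fun _ => rfl) i
      · funext i; cases i <;> rfl
  · have := Pf.ax (T := PA L C') (Γ := []) Tm.var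
      (A := .or (A.tr (fun _ f => f) g σ) (.imp (A.tr (fun _ f => f) g σ) .bot)) (Or.inr ⟨_, rfl⟩)
    rwa [Fm.subst_id] at this

theorem pi2_true (hM : ModelsPi2PA L M) (n) (A : Fm L.F Empty) (hA : A.Below n) (h : Pi2 A)
    (k : Pf (PA L Empty) [] A) (ρ) : A.Sat M Empty.elim ρ := by
  induction n generalizing A ρ with
  | zero => exact (hA.sat M _ ρ).2 (hM A h hA k)
  | succ n ih =>
    have := ih (.all A) hA (.all h) (.allI k) (fun i => ρ (i + 1)) (ρ 0)
    rwa [show scons (ρ 0) (fun i => ρ (i + 1)) = ρ from funext fun i => by cases i <;> rfl] at this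

theorem sig_complete {G : Fm L.F M.N} (hG : Coh G) (ρ) (h : G.Sat M id ρ) :
    Pf (HA L M.N ∪ Diag M) [] (G.subst fun i => .cst (ρ i)) := by
  induction hG generalizing ρ with
  | eq s t =>
    have c : ∀ t : Tm L.F M.N, (t.subst fun i => .cst (ρ i)).Below 0 := fun t => by
      obtain ⟨n, hn⟩ := t.exists_below; exact hn.subst fun _ _ => trivial
    have := Pf.ax (T := HA L M.N ∪ Diag M) (Γ := []) Tm.var
      (A := (Fm.eq s t).subst fun i => .cst (ρ i))
      (Or.inr ⟨⟨_, _, Or.inl rfl⟩, ⟨c s, c t⟩, (Fm.sat_subst _ _ _ _ _).2 h⟩)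
    rwa [Fm.subst_id] at this
  | and _ _ a b => exact .andI (a ρ h.1) (b ρ h.2)
  | or _ _ a b => exact h.elim (fun h => (a ρ h).orI1) (fun h => (b ρ h).orI2)
  | ex _ a =>
    obtain ⟨x, hx⟩ := h
    refine .exI (A := Fm.subst (up _) _) (.cst x) ?_
    rw [Fm.subst_up_inst, ← scons_comp Tm.cst]
    exact a _ hx

theorem sig_sound (hM : ModelsPi2PA L M) (m) (s t : Tm L.F M.N)
    (h : Pf (HA L M.N ∪ Diag M) [] (exs m (.eq s t))) :
    (exs m (.eq s t)).Sat M id fun _ => M.zero := by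
  classical
  obtain ⟨Λ, hΛ, h⟩ := h.finite fun B hB => hB.2.1
  have hc : (conj Λ).Below 0 ∧ QF (conj Λ) ∧ (conj Λ).Sat M id fun _ => M.zero := by
    clear h
    induction Λ with
    | nil => exact ⟨⟨trivial, trivial⟩, .imp .bot .bot, id⟩
    | cons B Λ ih =>
      obtain ⟨a, b, c⟩ := ih fun B hB => hΛ B (List.mem_cons_of_mem _ hB)
      obtain ⟨⟨x, y, e⟩, b', c'⟩ := hΛ B List.mem_cons_self
      refine ⟨⟨b', a⟩, .and ?_ b, c', c⟩
      rcases e with rfl | rfl
      · exact .eq _ _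
      · exact .imp (.eq _ _) .bot
  have h1 : Pf (HA L M.N) [conj Λ] (exs m (.eq s t)) := by
    simpa using (h Λ (List.Subset.refl _) (List.nil_subset _)).cut (Δ := [conj Λ]) Tm.var
      fun B hB => by simpa using pf_conj hB
  have h2 : Pf (PA L M.N) [] (exs m (.imp (conj Λ) (.eq s t))) := by
    have := Pf.ax (T := PA L M.N) (Γ := []) Tm.var (A := .or (conj Λ) (.imp (conj Λ) .bot))
      (Or.inr ⟨_, rfl⟩)
    rw [Fm.subst_id] at this
    exact this.orE (exs_of_exs m (h1.monoT Set.subset_union_left)) (exs_of_not hc.1 m .hyp0)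
  obtain ⟨cs, hcs⟩ := (exs m (.imp (conj Λ) (.eq s t))).consts M
  have h3 := h2.tr (T' := PA L Empty) (fun _ f => f) (fun _ => True) (fun _ _ => trivial)
    (fun B hB g σ _ => pa_tr hB g σ) (fun c => .var (cs.idxOf c)) (fun _ => .zero) [] trivial
    (by simp)
  obtain ⟨n, hn⟩ := Fm.exists_below ((exs m (.imp (conj Λ) (.eq s t))).tr (fun _ f => f)
    (fun c => (.var (cs.idxOf c) : Tm L.F Empty)) fun _ => .zero)
  have h4 := pi2_true hM n _ hn (.base ((QF.imp hc.2.1 (.eq s t)).tr_exs m _ _)) h3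
    fun i => cs.getD i M.zero
  rw [Fm.sat_tr] at h4
  refine sat_exs M hc.1 id hc.2.2 m _ ((hcs _ _ _ fun c hc => ?_).1 h4)
  simp [Tm.ev, List.getD_eq_getElem?_getD, List.getElem?_idxOf hc]

theorem ep_of_machine (K : Machine) (hM : ModelsPi2PA L M) :
    ExistenceProperty (HA L M.N ∪ Diag M) := by
  intro A hA h
  let X : Ctx L M.N := ⟨K, HA L M.N ∪ Diag M, Set.subset_union_left⟩
  obtain ⟨p, hp⟩ := Ctx.sound (X := X) (fun B hB => hB.1) rfl h (fun _ => Ctx.kP .zero)
    fun _ => .zero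
  have h1 := hp [] .zero (fun _ => .zero) (fun _ => Ctx.ev_k) fun i B hi => by simp at hi
  have h2 : X.Run [] (Ctx.compP Ctx.fstP p) .zero fun v => (A.subst (up fun _ => .zero)).inst v := by
    refine h1.comp fun Δ u _ hu => Ctx.tot_iff.1 (Ctx.Q_exE hu fun Δ' a b _ e k => Ctx.tot_iff.2 ?_)
    refine Ctx.Run.congr e (Ctx.ev_fst.conseq fun Δ'' v s j => ?_)
    exact Pf.eqE _ j.symm (by simpa using (Ctx.Q_true k).weaken s)
  generalize Ctx.compP Ctx.fstP p = q at h2
  obtain ⟨m, s, t, hJ⟩ := K.prenex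
  obtain ⟨s', t', hJ'⟩ : ∃ s' t', K.Jf q.shift .zero (.var 0) = exs m (.eq s' t') := by
    rw [Machine.Jf, hJ]; exact emb_exs _ _ _ _
  obtain ⟨b, hb⟩ := sig_sound hM (m + 1) s' t' (by rw [exs, ← hJ']; exact h2.1)
  have h3 := sig_complete (coh_exs m s' t') _ hb
  rw [← hJ', scons_comp Tm.cst] at h3
  have h4 := Ctx.tot_iff.1 (by
    simpa using (Ctx.tot_iff.2 h2).subst fun _ => (.cst M.zero : Tm L.F M.N))
  have h5 := h4.2 [] (.cst b) (List.Subset.refl _) (by simpa using h3)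
  refine ⟨.cst b, trivial, ?_⟩
  rw [Fm.inst, Fm.Below.congr (n := 1) hA (τ := scons (.cst b) fun _ => .zero)
    fun i hi => by obtain rfl : i = 0 := by omega
                   rfl]
  simpa using h5

end Pool.Agent.HAEP
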