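import Pool.Agent.Lib.MP_ebcb3a_lc.Complete

/-! Friedman's translation: an implication between positive existential formulas that holds in all
models of PA is provable in HA. -/

namespace Pool.Agent.HAEP

universe u

theorem Pf.ind {L : Lang} {C : Type u} {T : Set (Fm L.F C)} (hT : HA L C ⊆ T) {Γ} (A : Fm L.F C)
    (h0 : Pf T Γ (A.inst .zero))
    (hs : ∀ Δ t, Γ ⊆ Δ → Pf T Δ (A.inst t) → Pf T Δ (A.inst (.succ t))) (t) :
    Pf T Γ (A.inst t) := by
  have := Pf.ax (Γ := Γ) Tm.var (hT (HAx.ind A))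
  rw [Fm.subst_id] at this
  refine .allE t ((this.impE h0).impE (.allI' fun t => .impK fun Δ s h => ?_))
  simpa [Fm.inst, Fm.subst_subst] using hs Δ t s h

/-- Positive existential formulas. -/
inductive Coh {F : ℕ → Type} {C : Type u} : Fm F C → Prop
  | eq (s t) : Coh (.eq s t)
  | and {A B} : Coh A → Coh B → Coh (.and A B)
  | or {A B} : Coh A → Coh B → Coh (.or A B)
  | ex {A} : Coh A → Coh (.ex A)

theorem Coh.subst {F : ℕ → Type} {C : Type u} {A : Fm F C} (h : Coh A) (σ : ℕ → Tm F C) :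
    Coh (A.subst σ) := by
  induction h generalizing σ with
  | eq => exact .eq _ _
  | and _ _ a b => exact .and (a _) (b _)
  | or _ _ a b => exact .or (a _) (b _)
  | ex _ a => exact .ex (a _)

abbrev nn (R A : Fm0) : Fm0 := .imp (.imp A R) R

def Fm.fr : Fm0 → Fm0 → Fm0
  | R, .bot => R
  | R, .eq s t => nn R (.eq s t)
  | R, .and A B => .and (fr R A) (fr R B)
  | R, .or A B => nn R (.or (fr R A) (fr R B))
  | R, .imp A B => .imp (fr R A) (fr R B)
  | R, .all A => .all (fr R.shift A)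
  | R, .ex A => nn R (.ex (fr R.shift A))

open Fm

@[simp] theorem up_fold {F : ℕ → Type} {C : Type u} (σ : ℕ → Tm F C) :
    scons (Tm.var 0) (fun i => (σ i).shift) = up σ := rfl

theorem fr_subst (R A : Fm0) (σ) : (fr R A).subst σ = fr (R.subst σ) (A.subst σ) := by
  induction A generalizing R σ <;> simp_all [fr]

theorem fr_inst (R A : Fm0) (t) : (fr R.shift A).inst t = fr R (A.inst t) := by
  simp [Fm.inst, fr_subst]

variable {Γ : List Fm0} {R A B : Fm0}

theorem nn_intro (h : Pf HA0 Γ A) : Pf HA0 Γ (nn R A) := .impI (Pf.hyp0.impE h.wk)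

theorem nn_bind (h : Pf HA0 Γ (nn R A)) (k : ∀ Δ, Γ ⊆ Δ → Pf HA0 Δ A → Pf HA0 Δ (nn R B)) :
    Pf HA0 Γ (nn R B) :=
  .impI (h.wk.impE (.impI ((k _ (List.subset_cons_of_subset _ (List.subset_cons_self _ _))
    Pf.hyp0).impE Pf.hyp0.wk)))

theorem stable (h : Pf HA0 Γ (nn R (fr R A))) : Pf HA0 Γ (fr R A) := by
  induction A generalizing R Γ with
  | bot => exact h.impE (.impI Pf.hyp0)
  | eq => exact nn_bind h fun _ _ k => k
  | or => exact nn_bind h fun _ _ k => k
  | ex => exact nn_bind h fun _ _ k => k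
  | and A B a b =>
    exact .andI (a (nn_bind h fun _ _ k => nn_intro k.andE1))
      (b (nn_bind h fun _ _ k => nn_intro k.andE2))
  | imp A B a b =>
    exact .impK fun Δ s x => b (nn_bind (h.weaken s) fun _ s' k => nn_intro (k.impE (x.weaken s')))
  | all A a =>
    refine .allI (a ?_)
    refine nn_bind (A := (Fm.all (fr R.shift A)).shift) h.shift fun _ _ k => nn_intro ?_
    have := Pf.allE (A := (fr R.shift A).subst (up fun i => .var (i + 1))) (.var 0) k
    rw [Fm.subst_up_inst, show (scons (Tm.var 0) fun i => Tm.var (i + 1)) = (Tm.var : ℕ → Tm0) from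
      up_var, Fm.subst_id] at this
    exact this

theorem fr_of_bind (h : Pf HA0 Γ (nn R A)) (k : ∀ Δ, Γ ⊆ Δ → Pf HA0 Δ A → Pf HA0 Δ (fr R B)) :
    Pf HA0 Γ (fr R B) := stable (nn_bind h fun Δ s x => nn_intro (k Δ s x))

theorem fr_ax (h : A ∈ PA0) (σ) : Pf HA0 Γ (fr R (A.subst σ)) := by
  rcases h with h | ⟨A, rfl⟩
  · have h' : ∀ {Δ}, Pf HA0 Δ (A.subst σ) := .ax σ h
    match A, h, @h' with
    | _, .succ_ne_zero, h' => exact .impI (Pf.hyp0.impE (.impI (.botE (h'.impE Pf.hyp0))))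
    | _, .succ_inj, h' => exact .impK fun _ _ x => nn_bind x fun _ _ y => nn_intro (h'.impE y)
    | _, .add_zero, h' => exact nn_intro h'
    | _, .add_succ, h' => exact nn_intro h'
    | _, .mul_zero, h' => exact nn_intro h'
    | _, .mul_succ, h' => exact nn_intro h'
    | _, .ind A, _ =>
      refine .impK fun _ _ x => .impK fun _ s y => .allI' fun t => ?_
      refine Pf.ind (L := Lang.basic) le_rfl _ ?_ (fun Δ r s' z => ?_) t
      · simpa [fr_inst] using x.weaken s
      · have := ((y.weaken s').allE r).impE z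
        simpa [fr_inst, Fm.inst, fr_subst, Fm.subst_subst] using this
    | _, .expl f _ _, _ => exact f.elim
    | _, .prec_zero f _ _ _, _ => exact f.elim
    | _, .prec_succ f _ _ _, _ => exact f.elim
  · exact .impI (Pf.hyp0.impE (.orI2 (.impI (Pf.hyp0.wk.impE (.orI1 Pf.hyp0)))))

theorem fr_sound (h : Pf PA0 Γ A) :
    ∀ σ Δ, (∀ B ∈ Γ, Pf HA0 Δ (fr R (B.subst σ))) → Pf HA0 Δ (fr R (A.subst σ)) := by
  have hcons : ∀ {Γ : List Fm0} {A σ Δ Δ'}, (∀ B ∈ Γ, Pf HA0 Δ (fr R (B.subst σ))) → Δ ⊆ Δ' →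
      Pf HA0 Δ' (fr R (Fm.subst σ A)) → ∀ B ∈ A :: Γ, Pf HA0 Δ' (fr R (B.subst σ)) := by
    intro Γ A σ Δ Δ' H s hA B hB
    rcases List.mem_cons.1 hB with rfl | hB
    · exact hA
    · exact (H B hB).weaken s
  have hsh : ∀ {Γ : List Fm0} {σ Δ} t, (∀ B ∈ Γ, Pf HA0 Δ (fr R (B.subst σ))) →
      ∀ B ∈ Γ.map Fm.shift, Pf HA0 Δ (fr R (B.subst (scons t σ))) := by
    intro Γ σ Δ t H B hB
    obtain ⟨B', hB', rfl⟩ := List.mem_map.1 hB
    simpa using H B' hB'
  induction h with
  | hyp h => exact fun _ _ H => H _ h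
  | ax τ h => intro σ Δ _; rw [Fm.subst_subst]; exact fr_ax h _
  | botE _ a => exact fun σ Δ H => stable (.impI (a σ Δ H).wk)
  | andI _ _ a b => exact fun σ Δ H => .andI (a σ Δ H) (b σ Δ H)
  | andE1 _ a => exact fun σ Δ H => (a σ Δ H).andE1
  | andE2 _ a => exact fun σ Δ H => (a σ Δ H).andE2
  | orI1 _ a => exact fun σ Δ H => nn_intro (a σ Δ H).orI1
  | orI2 _ a => exact fun σ Δ H => nn_intro (a σ Δ H).orI2
  | orE _ _ _ a b c =>
    exact fun σ Δ H => fr_of_bind (a σ Δ H) fun _ s x => x.orK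
      (fun _ s' y => b σ _ (hcons H (List.Subset.trans s s') y))
      (fun _ s' y => c σ _ (hcons H (List.Subset.trans s s') y))
  | impI _ a => exact fun σ Δ H => .impK fun _ s x => a σ _ (hcons H s x)
  | impE _ _ a b => exact fun σ Δ H => (a σ Δ H).impE (b σ Δ H)
  | allI _ a =>
    intro σ Δ H; refine .allI' fun t => ?_
    simpa [fr_inst] using a _ _ (hsh t H)
  | allE t _ a => intro σ Δ H; simpa [fr_inst] using (a σ Δ H).allE (t.subst σ)
  | exI t _ a =>
    intro σ Δ H; refine nn_intro (.exI (t.subst σ) ?_)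
    simpa [fr_inst] using a σ Δ H
  | exE _ _ a b =>
    intro σ Δ H
    refine fr_of_bind (a σ Δ H) fun _ s x => x.exK fun _ t s' y => ?_
    simpa using b (scons t σ) _ (hcons (hsh t H) (List.Subset.trans s s') (by simpa [fr_inst] using y))
  | refl t => exact fun σ Δ _ => nn_intro (.refl _)
  | @eqE _ s t A _ _ a b =>
    intro σ Δ H
    refine fr_of_bind (a σ Δ H) fun _ s' x => ?_
    have := Pf.eqE (fr R.shift (A.subst (up σ))) x (by simpa [fr_inst] using (b σ Δ H).weaken s')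
    simpa [fr_inst] using this

theorem Coh.to_fr (hA : Coh A) (h : Pf HA0 Γ A) : Pf HA0 Γ (fr R A) := by
  induction hA generalizing R Γ with
  | eq => exact nn_intro h
  | and _ _ a b => exact .andI (a h.andE1) (b h.andE2)
  | or _ _ a b => exact nn_intro (h.orK (fun _ _ x => (a x).orI1) (fun _ _ x => (b x).orI2))
  | @ex A _ a =>
    refine nn_intro (.exE h (.exI (A := (fr R.shift A).subst (up fun i => .var (i + 1))) (.var 0) ?_))
    rw [Fm.subst_up_inst, show (scons (Tm.var 0) fun i => Tm.var (i + 1)) = (Tm.var : ℕ → Tm0) from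
      up_var, Fm.subst_id]
    exact a Pf.hyp0

theorem Coh.of_fr (hA : Coh A) (h : Pf HA0 Γ (fr R A)) : Pf HA0 Γ (nn R A) := by
  induction hA generalizing R Γ with
  | eq => exact h
  | and _ _ a b =>
    exact nn_bind (a h.andE1) fun _ s x => nn_bind (b (h.andE2.weaken s)) fun _ s' y =>
      nn_intro (.andI (x.weaken s') y)
  | or _ _ a b =>
    exact nn_bind h fun _ _ x => x.orK
      (fun _ _ y => nn_bind (a y) fun _ _ z => nn_intro z.orI1)
      (fun _ _ y => nn_bind (b y) fun _ _ z => nn_intro z.orI2)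
  | @ex A _ a =>
    refine nn_bind h fun _ _ x => .exE x (nn_bind (a Pf.hyp0) fun _ _ y => nn_intro ?_)
    refine .exI (A := A.subst (up fun i => .var (i + 1))) (.var 0) ?_
    rw [Fm.subst_up_inst, show (scons (Tm.var 0) fun i => Tm.var (i + 1)) = (Tm.var : ℕ → Tm0) from
      up_var, Fm.subst_id]
    exact y

theorem coh_imp {X Y : Fm0} (hX : Coh X) (hY : Coh Y)
    (h : ∀ (M : Mod) ρ, X.Sat M.M Empty.elim ρ → Y.Sat M.M Empty.elim ρ) : Pf HA0 [X] Y := by
  have h1 := fr_sound (R := Y) (complete (.imp X Y) h) Tm.var [X] (by simp)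
  rw [Fm.subst_id] at h1
  exact (hY.of_fr (h1.impE (hX.to_fr Pf.hyp0))).impE (.impI Pf.hyp0)

end Pool.Agent.HAEP
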