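import Pool.Agent.Lib.MP_ebcb3a_lc.Dpr
import Pool.Agent.Lib.MP_ebcb3a_lc.Api

/-! Construction of the machine: evaluation is derivability in a system of rules, which is
Diophantine in all models of PA. -/

namespace Pool.Agent.HAEP

variable {M : Mod}

theorem sat_exs_iff (m : ℕ) (A : Fm0) (ρ : ℕ → NN M) : (exs m A).Sat M.M Empty.elim ρ ↔
    ∃ ρ' : ℕ → NN M, (∀ i, ρ' (i + m) = ρ i) ∧ A.Sat M.M Empty.elim ρ' := by
  induction m generalizing ρ with
  | zero => exact ⟨fun h => ⟨ρ, fun _ => rfl, h⟩, fun ⟨ρ', e, h⟩ => (funext e : ρ' = ρ) ▸ h⟩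
  | succ m ih =>
    constructor
    · rintro ⟨a, h⟩
      obtain ⟨ρ', e, h⟩ := (ih _).1 h
      exact ⟨ρ', fun i => by rw [← add_assoc, add_right_comm]; exact e (i + 1), h⟩
    · rintro ⟨ρ', e, h⟩
      refine ⟨ρ' m, (ih _).2 ⟨ρ', fun i => ?_, h⟩⟩
      cases i with
      | zero => simp
      | succ i => rw [add_right_comm, add_assoc]; exact e i

theorem UD.formula {P : (M : Mod) → (ℕ → ZZ M) → Prop} (h : UD P) : ∃ m, ∃ s t : Tm0,
    ∀ (M : Mod) (ρ : ℕ → NN M), (exs m (.eq s t)).Sat M.M Empty.elim ρ ↔ P M fun i => io (ρ i) := by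
  obtain ⟨m, f, hf, h⟩ := h
  obtain ⟨s, t, e⟩ := hf.terms (Sum.elim (fun i => i + m) fun j => j)
  refine ⟨m, s, t, fun M ρ => ?_⟩
  rw [sat_exs_iff, h]
  constructor
  · rintro ⟨ρ', h1, h2⟩
    refine ⟨fun j => io (ρ' j), fun _ => io_nonneg _, ?_⟩
    have := e M ρ'
    rw [show s.ev M.M Empty.elim ρ' = t.ev M.M Empty.elim ρ' from h2, sub_self] at this
    refine Eq.trans (congrArg _ (funext fun v => ?_)) this
    cases v <;> simp [h1]
  · rintro ⟨w, h0, h1⟩
    choose n hn using fun i => nonneg_iff.1 (h0 i)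
    refine ⟨fun i => if h : i < m then n ⟨i, h⟩ else ρ (i - m), fun i => by simp, io_inj.1 ?_⟩
    rw [← sub_eq_zero, ← e]
    refine Eq.trans (congrArg _ (funext fun v => ?_)) h1
    cases v <;> simp [hn]

def BtR (x c d s i : ZZ M) : Prop := 0 ≤ d ∧ 0 ≤ i ∧ x = bt c d s i

theorem UD.bt {V : Type} {x c d s i : (M : Mod) → (V → ZZ M) → ZZ M} (hx : UT x) (hc : UT c)
    (hd : UT d) (hs : UT s) (hi : UT i) :
    UD fun M ρ => BtR (x M ρ) (c M ρ) (d M ρ) (s M ρ) (i M ρ) :=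
  ((UD.le .zero hd).and ((UD.le .zero hi).and (UD.md (hx.add hs) hc
    (UT.one.add ((hi.add .one).mul hd))))).of_iff fun _ _ =>
    and_congr_right fun h => and_congr_right fun k =>
      ⟨fun e => ⟨by positivity, by rw [e, HAEP.bt]; ring⟩, fun e => by rw [HAEP.bt, ← e.2]; ring⟩

/-- Derivability from axioms `L` by the two-premise rule `N`. -/
def Der (L : ZZ M → Prop) (N : ZZ M → ZZ M → ZZ M → Prop) (j : ZZ M) : Prop :=
  ∃ c d s n, BtR j c d s n ∧ (0 ≤ n + 1 ∧ ∀ i, 0 ≤ i → i < n + 1 → ∃ x, BtR x c d s i ∧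
    (L x ∨ ∃ k l y z, k < i ∧ l < i ∧ BtR y c d s k ∧ BtR z c d s l ∧ N x y z))

theorem der_iff {L : ZZ M → Prop} {N : ZZ M → ZZ M → ZZ M → Prop} {j : ZZ M} :
    Der L N j ↔ L j ∨ ∃ y z, N j y z ∧ Der L N y ∧ Der L N z := by
  constructor
  · rintro ⟨c, d, s, n, ⟨d0, n0, rfl⟩, -, h⟩
    obtain ⟨_, ⟨-, -, rfl⟩, k⟩ := h n n0 (by linarith)
    refine k.imp_right fun ⟨k, l, y, z, kn, ln, hy, hz, hN⟩ => ⟨y, z, hN,
      ⟨c, d, s, k, hy, by linarith [hy.2.1], fun i i0 ik => h i i0 (by linarith)⟩,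
      ⟨c, d, s, l, hz, by linarith [hz.2.1], fun i i0 ik => h i i0 (by linarith)⟩⟩
  · rintro (h | ⟨y, z, hN, ⟨c, d, s, n, ⟨d0, n0, rfl⟩, -, h⟩, ⟨c', d', s', n', ⟨d0', n0', rfl⟩, -, h'⟩⟩)
    · obtain ⟨c, d, s, d0, e⟩ := exists_seq (fun _ => j) (by fun_prop) zero_le_one
      refine ⟨c, d, s, 0, ⟨d0, le_rfl, (e 0 le_rfl one_pos).symm⟩, by simp, fun i i0 i1 =>
        ⟨j, ⟨d0, i0, (e i i0 (by linarith)).symm⟩, Or.inl h⟩⟩
    · obtain ⟨C, D, S, D0, e⟩ := exists_seq (fun i => if i < n + 1 then bt c d s i else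
        if i < n + 1 + (n' + 1) then bt c' d' s' (i - (n + 1)) else j) (by fun_prop)
        (n := n + 1 + (n' + 1) + 1) (by linarith)
      have e1 : ∀ {x i}, i < n + 1 → BtR x c d s i → BtR x C D S i := fun {x i} h k =>
        ⟨D0, k.2.1, by rw [e i k.2.1 (by linarith), if_pos h, k.2.2]⟩
      have e2 : ∀ {x i}, i < n' + 1 → BtR x c' d' s' i → BtR x C D S (n + 1 + i) := fun {x i} h k =>
        ⟨D0, by linarith [k.2.1], by
          rw [e _ (by linarith [k.2.1]) (by linarith), if_neg (by linarith [k.2.1]),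
            if_pos (by linarith), add_sub_cancel_left, k.2.2]⟩
      have e3 : BtR j C D S (n + 1 + (n' + 1)) := ⟨D0, by linarith, by
        rw [e _ (by linarith) (by linarith), if_neg (by linarith), if_neg (lt_irrefl _)]⟩
      refine ⟨C, D, S, _, e3, by linarith, fun i i0 i1 => ?_⟩
      rcases lt_or_ge i (n + 1) with a | a
      · obtain ⟨x, hx, k⟩ := h i i0 a
        exact ⟨x, e1 a hx, k.imp_right fun ⟨k, l, y, z, kn, ln, hy, hz, hN⟩ =>
          ⟨k, l, y, z, kn, ln, e1 (by linarith) hy, e1 (by linarith) hz, hN⟩⟩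
      obtain ⟨i, rfl⟩ : ∃ i', i = n + 1 + i' := ⟨i - (n + 1), by ring⟩
      rcases (le_of_lt_succ i1).lt_or_eq with b | b
      · obtain ⟨x, hx, k⟩ := h' i (by linarith) (by linarith)
        exact ⟨x, e2 (by linarith) hx, k.imp_right fun ⟨k, l, y, z, kn, ln, hy, hz, hN⟩ =>
          ⟨_, _, y, z, by linarith, by linarith, e2 (i := k) (by linarith) hy,
            e2 (i := l) (by linarith) hz, hN⟩⟩
      · rw [b]
        exact ⟨j, e3, Or.inr ⟨n, n + 1 + n', _, _, by linarith, by linarith,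
          e1 (by linarith) ⟨d0, n0, rfl⟩, e2 (by linarith) ⟨d0', n0', rfl⟩, hN⟩⟩

section
variable {R : Type} [CommSemiring R]

def gpr (a b : R) : R := (a + b) * (a + b) + a
def gins (k : ℕ) (x : R) : R := gpr k x
def tri (p e v : R) : R := gpr p (gpr e v)

def leafG (a b j : R) : Prop :=
  j = tri (gins 0 a) b a ∨ j = tri (gins 1 0) a a ∨ j = tri (gins 2 0) (gpr a b) a ∨
  j = tri (gins 3 0) (gpr a b) b ∨ j = tri (gins 4 0) a (a + 1) ∨
  j = tri (gins 5 0) (gpr a b) (a + b) ∨ j = tri (gins 6 0) (gpr a b) (a * b)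

def nodeG (p q e a b v j y z : R) : Prop :=
  (j = tri (gins 7 (gpr p q)) e (gpr a b) ∧ y = tri p e a ∧ z = tri q e b) ∨
  (j = tri (gins 8 (gpr p q)) e v ∧ y = tri q e a ∧ z = tri p a v) ∨
  (j = tri (gins 9 0) (gpr (gpr p e) a) v ∧ y = tri p (gpr e a) v ∧ z = y) ∨
  (j = tri (gins 10 (gpr p q)) (gpr e (gpr 0 b)) v ∧ y = tri p (gpr e b) v ∧ z = y) ∨
  (j = tri (gins 10 (gpr p q)) (gpr e (gpr (a + 1) b)) v ∧ y = tri q (gpr e b) v ∧ z = y) ∨
  (j = tri (gins 11 (gpr p q)) (gpr e 0) v ∧ y = tri p e v ∧ z = y) ∨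
  (j = tri (gins 11 (gpr p q)) (gpr e (a + 1)) v ∧ y = tri (gins 11 (gpr p q)) (gpr e a) b ∧
    z = tri q (gpr (gpr e a) b) v)

end

theorem io_gpr (a b : NN M) : io (gpr a b) = gpr (io a) (io b) := by simp [gpr]
theorem io_gins (k) (a : NN M) : io (gins k a) = gins k (io a) := by simp [gins, io_gpr]
theorem io_tri (a b c : NN M) : io (tri a b c) = tri (io a) (io b) (io c) := by simp [tri, io_gpr]

theorem leafG_io {a b j : NN M} : leafG (io a) (io b) (io j) ↔ leafG a b j := by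
  simp only [leafG, ← io_inj (M := M), io_tri, io_gins, io_gpr, map_zero, map_add, map_mul, map_one]

theorem nodeG_io {p q e a b v j y z : NN M} :
    nodeG (io p) (io q) (io e) (io a) (io b) (io v) (io j) (io y) (io z) ↔ nodeG p q e a b v j y z := by
  simp only [nodeG, ← io_inj (M := M), io_tri, io_gins, io_gpr, map_zero, map_add, map_one]

def leafZ (j : ZZ M) : Prop := ∃ a, 0 ≤ a ∧ ∃ b, 0 ≤ b ∧ leafG a b j
def nodeZ (j y z : ZZ M) : Prop := 0 ≤ y ∧ 0 ≤ z ∧ ∃ p, 0 ≤ p ∧ ∃ q, 0 ≤ q ∧ ∃ e, 0 ≤ e ∧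
  ∃ a, 0 ≤ a ∧ ∃ b, 0 ≤ b ∧ ∃ v, 0 ≤ v ∧ nodeG p q e a b v j y z

section
variable {V : Type} {a b c : (M : Mod) → (V → ZZ M) → ZZ M}

theorem UT.gpr (ha : UT a) (hb : UT b) : UT fun M ρ => gpr (a M ρ) (b M ρ) :=
  ((ha.add hb).mul (ha.add hb)).add ha
theorem UT.nat (k : ℕ) : UT (V := V) fun _ _ => k := by
  induction k with
  | zero => exact UT.zero.of_eq fun _ _ => Nat.cast_zero
  | succ k ih => exact (ih.add .one).of_eq fun _ _ => Nat.cast_succ k
theorem UT.gins (k : ℕ) (ha : UT a) : UT fun M ρ => gins k (a M ρ) := (UT.nat k).gpr ha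
theorem UT.tri (ha : UT a) (hb : UT b) (hc : UT c) : UT fun M ρ => tri (a M ρ) (b M ρ) (c M ρ) :=
  ha.gpr (hb.gpr hc)

theorem UD.leafZ (ha : UT a) : UD fun M ρ => leafZ (a M ρ) := by
  refine UD.rel3 (R := fun _ a _ _ => HAEP.leafZ a) ?_ ha ha ha
  unfold HAEP.leafZ leafG
  repeat' first
    | with_reducible apply UD.and | with_reducible apply UD.ex | with_reducible apply UD.eq
    | with_reducible apply UD.le | with_reducible apply UD.or
    | with_reducible apply UT.tri | with_reducible apply UT.gins | with_reducible apply UT.gpr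
    | with_reducible apply UT.add | with_reducible apply UT.mul
    | exact UT.var _ | exact UT.zero | exact UT.one

theorem UD.nodeZ (ha : UT a) (hb : UT b) (hc : UT c) :
    UD fun M ρ => nodeZ (a M ρ) (b M ρ) (c M ρ) := by
  refine UD.rel3 (R := fun _ => HAEP.nodeZ) ?_ ha hb hc
  unfold HAEP.nodeZ nodeG
  repeat' first
    | with_reducible apply UD.and | with_reducible apply UD.ex | with_reducible apply UD.eq
    | with_reducible apply UD.le | with_reducible apply UD.or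
    | with_reducible apply UT.tri | with_reducible apply UT.gins | with_reducible apply UT.gpr
    | with_reducible apply UT.add
    | exact UT.var _ | exact UT.zero | exact UT.one

theorem ud_der : UD (V := ℕ) fun _ ρ => Der leafZ nodeZ (tri (ρ 0) (ρ 1) (ρ 2)) := by
  unfold Der
  repeat' first
    | with_reducible apply UD.ball | with_reducible apply UD.bt | with_reducible apply UD.leafZ
    | with_reducible apply UD.nodeZ
    | with_reducible apply UD.and | with_reducible apply UD.ex | with_reducible apply UD.lt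
    | with_reducible apply UD.or | with_reducible apply UT.tri | with_reducible apply UT.add
    | exact UT.var _ | exact UT.one

end

theorem exists_nonneg {P : ZZ M → Prop} : (∃ a, 0 ≤ a ∧ P a) ↔ ∃ n, P (io n) :=
  ⟨fun ⟨a, h, k⟩ => by obtain ⟨n, rfl⟩ := nonneg_iff.1 h; exact ⟨n, k⟩,
    fun ⟨n, k⟩ => ⟨_, io_nonneg n, k⟩⟩

/-- Evaluation. -/
def Rel (M : Mod) (p e v : NN M) : Prop := Der leafZ nodeZ (io (tri p e v))

theorem gpr_inj {a b c d : NN M} : gpr a b = gpr c d ↔ a = c ∧ b = d := by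
  refine ⟨fun h => ?_, by rintro ⟨rfl, rfl⟩; rfl⟩
  rw [← io_inj, io_gpr, io_gpr, gpr, gpr] at h
  have := io_nonneg a; have := io_nonneg b; have := io_nonneg c; have := io_nonneg d
  have e : io a + io b = io c + io d := by
    rcases lt_trichotomy (io a + io b) (io c + io d) with l | l | l
    · nlinarith [succ_le l]
    · exact l
    · nlinarith [succ_le l]
  rw [e] at h
  have h1 := add_left_cancel h
  rw [h1] at e
  exact ⟨io_inj.1 h1, io_inj.1 (add_left_cancel e)⟩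

theorem gins_inj {k l : ℕ} {a b : NN M} : gins k a = gins l b ↔ k = l ∧ a = b := by
  rw [gins, gins, gpr_inj, ← io_inj, map_natCast, map_natCast, Nat.cast_inj]

theorem tri_inj {a b c a' b' c' : NN M} : tri a b c = tri a' b' c' ↔ a = a' ∧ b = b' ∧ c = c' := by
  simp only [tri, gpr_inj]

theorem rel_iff {p e v : NN M} : Rel M p e v ↔ (∃ a b, leafG a b (tri p e v)) ∨
    ∃ y z, (∃ p' q e' a b v', nodeG p' q e' a b v' (tri p e v) y z) ∧
      Der leafZ nodeZ (io y) ∧ Der leafZ nodeZ (io z) := by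
  rw [Rel, der_iff]
  refine or_congr (by simp only [leafZ, exists_nonneg, leafG_io]) ⟨?_, ?_⟩
  · rintro ⟨y, z, ⟨y0, z0, h⟩, k⟩
    obtain ⟨y, rfl⟩ := nonneg_iff.1 y0; obtain ⟨z, rfl⟩ := nonneg_iff.1 z0
    exact ⟨y, z, by simpa only [exists_nonneg, nodeG_io] using h, k⟩
  · rintro ⟨y, z, h, k⟩
    exact ⟨_, _, ⟨io_nonneg y, io_nonneg z, by simpa only [exists_nonneg, nodeG_io] using h⟩, k⟩

theorem num_eq (k : ℕ) : M.num k = (k : NN M) := by
  induction k with
  | zero => exact Nat.cast_zero.symm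
  | succ k ih => rw [Mod.num, ih, NN.succ_eq, Nat.cast_succ]

theorem ins_eq (k : ℕ) (x : NN M) : M.ins k x = gins k x := by rw [Mod.ins, num_eq]; rfl
theorem pr_eq (a b : NN M) : M.pr a b = gpr a b := rfl
theorem zero_eq : M.M.zero = (0 : NN M) := rfl
theorem zero_ne_succ (a : NN M) : 0 ≠ a + 1 := (NN.succ_ne' a).symm

theorem exists_machine : Nonempty Machine := by
  obtain ⟨m, s, t, h⟩ := ud_der.formula
  refine ⟨⟨_, ⟨m, s, t, rfl⟩, Rel, fun M p e v => by rw [h, Rel, io_tri]; rfl, ?_, ?_, ?_, ?_, ?_, ?_,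
    ?_, ?_, ?_, ?_, ?_, ?_, ?_, ?_⟩⟩
  all_goals
    intros
    rw [rel_iff]
    simp only [ins_eq, pr_eq, zero_eq, NN.succ_eq, Rel]
    simp [leafG, nodeG, tri_inj, gins_inj, gpr_inj, NN.succ_ne', zero_ne_succ]
  · exact eq_comm
  · rfl
  · rfl
  · exact ⟨fun ⟨a, b, h1, h2, h3⟩ => ⟨a, h2, b, h3, h1⟩, fun ⟨a, h2, b, h3, h1⟩ => ⟨a, b, h1, h2, h3⟩⟩

end Pool.Agent.HAEP
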