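import Pool.Agent.Lib.MP_ebcb3a_lc.Complete

/-! Definable functions in a model of PA, and the semiring structure of the model. -/

namespace Pool.Agent.HAEP

variable (M : Mod)

/-- The elements of the model. -/
abbrev NN : Type := M.M.N

instance : Zero (NN M) := ⟨M.M.zero⟩
instance : One (NN M) := ⟨M.M.succ M.M.zero⟩
instance : Add (NN M) := ⟨M.M.add⟩
instance : Mul (NN M) := ⟨M.M.mul⟩

/-- Definable predicates on assignments. -/
def DP (P : (ℕ → NN M) → Prop) : Prop := ∃ A : Fm F0 M.M.N, ∀ ρ, P ρ ↔ A.Sat M.M id ρ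

variable {M}

namespace DP

variable {P Q : (ℕ → NN M) → Prop}

theorem of_iff (h : DP M P) (e : ∀ ρ, Q ρ ↔ P ρ) : DP M Q := by
  obtain ⟨A, hA⟩ := h; exact ⟨A, fun ρ => (e ρ).trans (hA ρ)⟩

theorem ren (h : DP M P) (r : ℕ → ℕ) : DP M fun ρ => P fun i => ρ (r i) := by
  obtain ⟨A, hA⟩ := h
  exact ⟨A.subst fun i => .var (r i), fun ρ => (hA _).trans (Fm.sat_subst _ _ A ρ fun i => .var (r i)).symm⟩

theorem and (h : DP M P) (k : DP M Q) : DP M fun ρ => P ρ ∧ Q ρ := by
  obtain ⟨A, hA⟩ := h; obtain ⟨B, hB⟩ := k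
  exact ⟨.and A B, fun ρ => and_congr (hA ρ) (hB ρ)⟩

theorem imp (h : DP M P) (k : DP M Q) : DP M fun ρ => P ρ → Q ρ := by
  obtain ⟨A, hA⟩ := h; obtain ⟨B, hB⟩ := k
  exact ⟨.imp A B, fun ρ => imp_congr (hA ρ) (hB ρ)⟩

theorem false : DP M fun _ => False := ⟨.bot, fun _ => Iff.rfl⟩

theorem ex (h : DP M P) : DP M fun ρ => ∃ a, P (scons a ρ) := by
  obtain ⟨A, hA⟩ := h
  exact ⟨.ex A, fun ρ => exists_congr fun a => hA _⟩

theorem eq (s t : Tm F0 M.M.N) : DP M fun ρ => s.ev M.M id ρ = t.ev M.M id ρ :=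
  ⟨.eq s t, fun _ => Iff.rfl⟩

end DP

/-- A type with a family of definable maps from assignments. -/
class QB (M : Mod) (α : Type) where
  D : ((ℕ → NN M) → α) → Prop
  ren : ∀ {g} (r : ℕ → ℕ), D g → D fun ρ => g fun i => ρ (r i)
  const : ∀ a, D fun _ => a

instance : QB M Prop where
  D := DP M
  ren r h := h.ren r
  const a := by
    by_cases h : a
    · exact (DP.false.imp DP.false).of_iff fun _ => by simp [h]
    · exact DP.false.of_iff fun _ => by simp [h]

instance : QB M (NN M) where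
  D g := DP M fun ρ => g (fun i => ρ (i + 1)) = ρ 0
  ren r h := h.ren (scons 0 fun i => r i + 1)
  const a := DP.eq (.cst a) (.var 0)

instance {α β : Type} [QB M α] [QB M β] : QB M (α × β) where
  D g := QB.D (M := M) (fun ρ => (g ρ).1) ∧ QB.D (M := M) fun ρ => (g ρ).2
  ren r h := ⟨QB.ren r h.1, QB.ren r h.2⟩
  const a := ⟨QB.const a.1, QB.const a.2⟩

instance {ι α : Type} [QB M α] : QB M (ι → α) where
  D g := ∀ i, QB.D (M := M) fun ρ => g ρ i
  ren r h i := QB.ren r (h i)
  const a i := QB.const (a i)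

/-- Definable functions. -/
@[fun_prop] def DF (M : Mod) {α β : Type} [QB M α] [QB M β] (f : α → β) : Prop :=
  ∀ g : (ℕ → NN M) → α, QB.D (M := M) g → QB.D (M := M) fun ρ => f (g ρ)

namespace DF

variable {α β γ : Type} [QB M α] [QB M β] [QB M γ]

@[fun_prop] theorem id' : DF M fun x : α => x := fun _ h => h
@[fun_prop] theorem const (b : β) : DF M fun _ : α => b := fun _ _ => QB.const b
@[fun_prop] theorem comp {f : β → γ} {g : α → β} (hf : DF M f) (hg : DF M g) :
    DF M fun x => f (g x) := fun _ h => hf _ (hg _ h)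
@[fun_prop] theorem prodMk {f : α → β} {g : α → γ} (hf : DF M f) (hg : DF M g) :
    DF M fun x => (f x, g x) := fun _ h => ⟨hf _ h, hg _ h⟩
@[fun_prop] theorem fst {f : α → β × γ} (hf : DF M f) : DF M fun x => (f x).1 :=
  fun _ h => (hf _ h).1
@[fun_prop] theorem snd {f : α → β × γ} (hf : DF M f) : DF M fun x => (f x).2 :=
  fun _ h => (hf _ h).2
@[fun_prop] theorem apply {ι : Type} (i : ι) : DF M fun x : ι → α => x i := fun _ h => h i
@[fun_prop] theorem pi {ι : Type} {f : α → ι → β} (hf : ∀ i, DF M fun x => f x i) :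
    DF M fun x i => f x i := fun _ h i => hf i _ h

variable {p q : α → Prop}

theorem of_iff (h : DF M p) (e : ∀ x, q x ↔ p x) : DF M q := by
  rwa [show q = p from funext fun x => propext (e x)]

@[fun_prop] theorem and (hp : DF M p) (hq : DF M q) : DF M fun x => p x ∧ q x :=
  fun _ h => DP.and (hp _ h) (hq _ h)
@[fun_prop] theorem imp (hp : DF M p) (hq : DF M q) : DF M fun x => p x → q x :=
  fun _ h => DP.imp (hp _ h) (hq _ h)
@[fun_prop] theorem not (hp : DF M p) : DF M fun x => ¬ p x := hp.imp (const False)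
@[fun_prop] theorem or (hp : DF M p) (hq : DF M q) : DF M fun x => p x ∨ q x :=
  (hp.not.imp hq).of_iff fun _ => or_iff_not_imp_left
@[fun_prop] theorem iff (hp : DF M p) (hq : DF M q) : DF M fun x => p x ↔ q x :=
  ((hp.imp hq).and (hq.imp hp)).of_iff fun _ => iff_iff_implies_and_implies

theorem head : QB.D (M := M) fun ρ : ℕ → NN M => ρ 0 := DP.eq (M := M) (.var 1) (.var 0)

@[fun_prop] theorem exN {P : α → NN M → Prop} (h : DF M fun x : α × NN M => P x.1 x.2) :
    DF M fun x => ∃ y, P x y :=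
  fun g hg => DP.ex (h (fun ρ => (g fun i => ρ (i + 1), ρ 0)) ⟨QB.ren _ hg, head⟩)

@[fun_prop] theorem allN {P : α → NN M → Prop} (h : DF M fun x : α × NN M => P x.1 x.2) :
    DF M fun x => ∀ y, P x y :=
  (exN (P := fun x y => ¬ P x y) h.not).not.of_iff fun _ => by simp

@[fun_prop] theorem eqN {f g : α → NN M} (hf : DF M f) (hg : DF M g) : DF M fun x => f x = g x :=
  fun _ h => (DP.ex (DP.and (hf _ h) (hg _ h))).of_iff fun _ => by simp [eq_comm]

theorem graphN {f : α → NN M} (h : DF M fun x : α × NN M => f x.1 = x.2) : DF M f :=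
  fun g hg => h (fun ρ => (g fun i => ρ (i + 1), ρ 0)) ⟨QB.ren _ hg, head⟩

theorem tm2 (t : Tm F0 M.M.N) {f g : α → NN M} (hf : DF M f) (hg : DF M g) :
    DF M fun x => t.ev M.M id (scons (f x) fun _ => g x) := by
  intro k h
  have h1 := (hf _ h).ren (scons 0 fun i => i + 3)
  have h2 := (hg _ h).ren (scons 1 fun i => i + 3)
  refine (DP.ex (DP.ex (h1.and (h2.and (DP.eq
    (t.subst (scons (.var 0) fun _ => .var 1)) (.var 2)))))).of_iff fun ρ => ?_
  simp only [scons_zero, scons_succ, exists_eq_left', Tm.ev_subst]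
  rw [scons_comp (fun s : Tm F0 M.M.N => s.ev M.M id _)]
  rfl

@[fun_prop] theorem addN {f g : α → NN M} (hf : DF M f) (hg : DF M g) :
    DF M fun x => f x + g x := tm2 (.add (.var 0) (.var 1)) hf hg

@[fun_prop] theorem mulN {f g : α → NN M} (hf : DF M f) (hg : DF M g) :
    DF M fun x => f x * g x := tm2 (.mul (.var 0) (.var 1)) hf hg

end DF

namespace NN

theorem succ_eq (a : NN M) : M.M.succ a = a + 1 :=
  ((M.add_succ a _).trans (congrArg _ (M.add_zero a))).symm

theorem ind (P : NN M → Prop) (hP : DF M P) (h0 : P 0) (hs : ∀ a, P a → P (a + 1)) (a) : P a := by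
  obtain ⟨A, hA⟩ := hP _ DF.head
  have := M.ind A (fun _ => M.M.zero) ((hA _).1 h0) fun a h => (hA _).1 (by
    simpa [succ_eq] using hs a ((hA _).2 h))
  exact (hA _).2 (this a)

theorem add_zero' (a : NN M) : a + 0 = a := M.add_zero a
theorem add_succ' (a b : NN M) : a + (b + 1) = a + b + 1 := by
  rw [← succ_eq, ← succ_eq]; exact M.add_succ a b
theorem mul_zero' (a : NN M) : a * 0 = 0 := M.mul_zero a
theorem mul_succ' (a b : NN M) : a * (b + 1) = a * b + a := by
  rw [← succ_eq]; exact M.mul_succ a b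
theorem succ_inj' {a b : NN M} (h : a + 1 = b + 1) : a = b := by
  rw [← succ_eq, ← succ_eq] at h; exact M.succ_inj _ _ h
theorem succ_ne' (a : NN M) : a + 1 ≠ 0 := by rw [← succ_eq]; exact M.succ_ne_zero a

theorem zero_add' (a : NN M) : 0 + a = a :=
  ind (fun a => 0 + a = a) (by fun_prop) (add_zero' _) (fun a h => by rw [add_succ', h]) a
theorem add_assoc' (a b c : NN M) : a + b + c = a + (b + c) :=
  ind (fun c => a + b + c = a + (b + c)) (by fun_prop) (by rw [add_zero', add_zero'])
    (fun c h => by rw [add_succ', add_succ', add_succ', h]) c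
theorem succ_add' (a b : NN M) : a + 1 + b = a + b + 1 :=
  ind (fun b => a + 1 + b = a + b + 1) (by fun_prop) (by rw [add_zero', add_zero'])
    (fun c h => by rw [add_succ', add_succ', h]) b
theorem add_comm' (a b : NN M) : a + b = b + a :=
  ind (fun b => a + b = b + a) (by fun_prop) (by rw [add_zero', zero_add'])
    (fun c h => by rw [add_succ', succ_add', h]) b

instance : AddCommMonoid (NN M) where
  add_assoc := add_assoc'
  zero_add := zero_add'
  add_zero := add_zero'
  add_comm := add_comm'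
  nsmul := nsmulRec

theorem zero_mul' (a : NN M) : 0 * a = 0 :=
  ind (fun a => 0 * a = 0) (by fun_prop) (mul_zero' _) (fun a h => by rw [mul_succ', h, add_zero]) a
theorem mul_add' (a b c : NN M) : a * (b + c) = a * b + a * c :=
  ind (fun c => a * (b + c) = a * b + a * c) (by fun_prop) (by rw [add_zero, mul_zero', add_zero])
    (fun c h => by rw [← add_assoc, mul_succ', mul_succ', h, add_assoc]) c
theorem succ_mul' (a b : NN M) : (a + 1) * b = a * b + b :=
  ind (fun b => (a + 1) * b = a * b + b) (by fun_prop) (by rw [mul_zero', mul_zero', add_zero])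
    (fun c h => by rw [mul_succ', mul_succ', h]; abel) b
theorem mul_comm' (a b : NN M) : a * b = b * a :=
  ind (fun b => a * b = b * a) (by fun_prop) (by rw [mul_zero', zero_mul'])
    (fun c h => by rw [mul_succ', succ_mul', h]) b
theorem mul_assoc' (a b c : NN M) : a * b * c = a * (b * c) :=
  ind (fun c => a * b * c = a * (b * c)) (by fun_prop) (by rw [mul_zero', mul_zero', mul_zero'])
    (fun c h => by rw [mul_succ', mul_succ', mul_add', h]) c
theorem mul_one' (a : NN M) : a * 1 = a := by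
  have := mul_succ' a 0
  rwa [zero_add, mul_zero', zero_add] at this

instance : CommSemiring (NN M) where
  left_distrib := mul_add'
  right_distrib a b c := by rw [mul_comm', mul_add', mul_comm' c, mul_comm' c]
  zero_mul := zero_mul'
  mul_zero := mul_zero'
  mul_assoc := mul_assoc'
  one_mul a := by rw [mul_comm', mul_one']
  mul_one := mul_one'
  mul_comm := mul_comm'

instance : IsRightCancelAdd (NN M) where
  add_right_cancel c a b := ind (fun c => a + c = b + c → a = b) (by fun_prop) (by simp)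
    (fun c h k => h (succ_inj' (by rwa [← add_assoc, ← add_assoc] at k))) c

theorem zero_or_succ (a : NN M) : a = 0 ∨ ∃ b, a = b + 1 :=
  ind (fun a => a = 0 ∨ ∃ b, a = b + 1) (by fun_prop) (Or.inl rfl) (fun a _ => Or.inr ⟨a, rfl⟩) a

theorem total (a b : NN M) : (∃ c, a + c = b) ∨ ∃ c, b + c = a :=
  ind (fun a => (∃ c, a + c = b) ∨ ∃ c, b + c = a) (by fun_prop) (Or.inl ⟨b, zero_add b⟩)
    (fun a h => by
      rcases h with ⟨c, h⟩ | ⟨c, h⟩
      · rcases zero_or_succ c with rfl | ⟨d, rfl⟩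
        · exact Or.inr ⟨1, by rw [← h, add_zero]⟩
        · exact Or.inl ⟨d, by rw [← h]; ring⟩
      · exact Or.inr ⟨c + 1, by rw [← h, add_assoc]⟩) a

theorem eq_zero_of_add {a b : NN M} (h : a + b = 0) : b = 0 := by
  rcases zero_or_succ b with rfl | ⟨d, rfl⟩
  · rfl
  · exact absurd (by rw [← h, add_assoc]) (succ_ne' (a + d))

end NN

end Pool.Agent.HAEP
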