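import Pool.Agent.Lib.MP_ebcb3a_lc.Binom

/-! Matiyasevich's theorem in a model of PA. -/

namespace Pool.Agent.HAEP

variable {M : Mod}

theorem nxt_unique {b y x x' : ZZ M} (h : y < x ∧ 0 ≤ y ∧ x * x - b * x * y + y * y = 1)
    (k : y < x' ∧ 0 ≤ y ∧ x' * x' - b * x' * y + y * y = 1) : x = x' := by
  have : (x - x') * (x + x' - b * y) = 0 := by linear_combination h.2.2 - k.2.2
  rcases mul_eq_zero.1 this with e | e
  · linarith
  · have : x * x' = y * y - 1 := by linear_combination x * e - h.2.2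
    nlinarith [h.1, k.1, h.2.1]

noncomputable def nxt (b y : ZZ M) : ZZ M := the fun x => y < x ∧ 0 ≤ y ∧ x * x - b * x * y + y * y = 1
noncomputable def al0 (b n : ZZ M) : ZZ M := rec1 (fun _ y => nxt b y) 0 n
noncomputable def al (b n : ZZ M) : ZZ M := if 0 ≤ n then al0 b n else -al0 b (-n)

section
variable {α : Type} [QB M α] {f g : α → ZZ M}

@[fun_prop] theorem DF.nxt (hf : DF M f) (hg : DF M g) : DF M fun x => nxt (f x) (g x) :=
  DF.the (by fun_prop) fun _ _ _ => nxt_unique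
@[fun_prop] theorem DF.al0 (hf : DF M f) (hg : DF M g) : DF M fun x => al0 (f x) (g x) :=
  DF.rec1 (G := fun x _ y => HAEP.nxt (f x) y) (by fun_prop) (by fun_prop) hg
@[fun_prop] theorem DF.al (hf : DF M f) (hg : DF M g) : DF M fun x => al (f x) (g x) := by
  unfold HAEP.al; fun_prop
end

theorem nxt_eq {b y x : ZZ M} (h : y < x ∧ 0 ≤ y ∧ x * x - b * x * y + y * y = 1) : nxt b y = x :=
  nxt_unique (the_spec (R := fun x => y < x ∧ 0 ≤ y ∧ x * x - b * x * y + y * y = 1) ⟨x, h⟩) h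

theorem al0_zero (b : ZZ M) : al0 b 0 = 0 := rec1_zero _ _
theorem al0_succ (b : ZZ M) {n : ZZ M} (hn : 0 ≤ n) : al0 b (n + 1) = nxt b (al0 b n) :=
  rec1_succ (by fun_prop) _ hn
theorem al0_one (b : ZZ M) : al0 b 1 = 1 := by
  have := al0_succ b le_rfl
  rwa [zero_add, al0_zero, nxt_eq (x := 1) ⟨one_pos, le_rfl, by ring⟩] at this

variable {b : ZZ M}

theorem al0_step (hb : 2 ≤ b) {x y : ZZ M} (h : y < x ∧ 0 ≤ y ∧ x * x - b * x * y + y * y = 1) :
    x < b * x - y ∧ 0 ≤ x ∧ (b * x - y) * (b * x - y) - b * (b * x - y) * x + x * x = 1 :=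
  ⟨by nlinarith [h.1, h.2.1], by linarith [h.1, h.2.1], by linear_combination h.2.2⟩

theorem al0_inv (hb : 2 ≤ b) {n : ZZ M} (hn : 0 ≤ n) : al0 b n < al0 b (n + 1) ∧ 0 ≤ al0 b n ∧
    al0 b (n + 1) * al0 b (n + 1) - b * al0 b (n + 1) * al0 b n + al0 b n * al0 b n = 1 :=
  ind (fun n => al0 b n < al0 b (n + 1) ∧ 0 ≤ al0 b n ∧
    al0 b (n + 1) * al0 b (n + 1) - b * al0 b (n + 1) * al0 b n + al0 b n * al0 b n = 1)
    (by fun_prop) (by simp [al0_zero, al0_one]) (fun n hn ih => by
      rw [al0_succ b (n := n + 1) (by linarith), nxt_eq (al0_step hb ih)]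
      exact al0_step hb ih) n hn

theorem al0_rec (hb : 2 ≤ b) {n : ZZ M} (hn : 0 ≤ n) :
    al0 b (n + 1 + 1) = b * al0 b (n + 1) - al0 b n := by
  rw [al0_succ b (n := n + 1) (by linarith), nxt_eq (al0_step hb (al0_inv hb hn))]

theorem al_of_nonneg {n : ZZ M} (hn : 0 ≤ n) : al b n = al0 b n := if_pos hn

@[simp] theorem al_zero : al b 0 = 0 := by rw [al_of_nonneg le_rfl, al0_zero]
@[simp] theorem al_one : al b 1 = 1 := by rw [al_of_nonneg zero_le_one, al0_one]

theorem al_neg (n : ZZ M) : al b (-n) = -al b n := by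
  rcases lt_trichotomy n 0 with h | rfl | h
  · rw [al_of_nonneg (by linarith), al, if_neg (by linarith), neg_neg]
  · simp
  · rw [al_of_nonneg h.le, al, if_neg (by linarith), neg_neg]

theorem al_rec (hb : 2 ≤ b) (n : ZZ M) : al b (n + 1 + 1) = b * al b (n + 1) - al b n := by
  rcases lt_trichotomy n (-1) with h | rfl | h
  · have h' := succ_le h
    have := al0_rec hb (n := -(n + 1 + 1)) (by linarith)
    rw [← al_of_nonneg (by linarith), ← al_of_nonneg (by linarith), ← al_of_nonneg (by linarith),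
      show -(n + 1 + 1) + 1 + 1 = -n by ring, show -(n + 1 + 1) + 1 = -(n + 1) by ring,
      al_neg, al_neg, al_neg] at this
    linear_combination -this
  · simp [al_neg]
  · have h' : 0 ≤ n := by linarith [succ_le h]
    rw [al_of_nonneg (by linarith), al_of_nonneg (by linarith), al_of_nonneg h', al0_rec hb h']

theorem rec_zero (h : ZZ M → ZZ M) (hh : DF M h) (hr : ∀ n, h (n + 1 + 1) = b * h (n + 1) - h n)
    (h0 : h 0 = 0) (h1 : h 1 = 0) (n) : h n = 0 := by
  rcases le_total 0 n with hn | hn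
  · exact (ind (fun n => h n = 0 ∧ h (n + 1) = 0) (by fun_prop) (by simpa using ⟨h0, h1⟩)
      (fun n _ ih => ⟨ih.2, by rw [hr, ih.1, ih.2]; ring⟩) n hn).1
  · have := (ind (fun n => h (-n) = 0 ∧ h (-n + 1) = 0) (by fun_prop) (by simpa using ⟨h0, h1⟩)
      (fun n _ ih => by
        have := hr (-(n + 1))
        rw [show -(n + 1) + 1 = -n by ring, ih.1, ih.2] at this
        exact ⟨by linear_combination this, by simpa using ih.1⟩) (-n) (by linarith)).1
    simpa using this

theorem al_pred (hb : 2 ≤ b) (n : ZZ M) : al b (n + 1) = b * al b n - al b (n - 1) := by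
  simpa using al_rec hb (n - 1)

theorem al_add (hb : 2 ≤ b) (m n : ZZ M) :
    al b (m + n) = al b m * al b (n + 1) - al b (m - 1) * al b n := by
  have := rec_zero (b := b) (fun n => al b (m + n) - (al b m * al b (n + 1) - al b (m - 1) * al b n))
    (by fun_prop) (fun n => by
      have h1 := al_rec hb (m + n)
      rw [add_assoc m n, add_assoc m (n + 1)] at h1
      linear_combination h1 - al b m * al_rec hb (n + 1) + al b (m - 1) * al_rec hb n)
    (by simp) (by
      have h1 := al_rec hb 0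
      rw [zero_add, al_one, al_zero] at h1
      rw [h1, al_pred hb, al_one]; ring) n
  linear_combination this

theorem al_quad (hb : 2 ≤ b) (n : ZZ M) :
    al b (n + 1) * al b (n + 1) - b * al b (n + 1) * al b n + al b n * al b n = 1 := by
  have := al_add hb (n + 1) (-n)
  rw [show n + 1 + -n = 1 by ring, show -n + 1 = -(n - 1) by ring, al_neg, al_neg, al_one,
    add_sub_cancel_right] at this
  linear_combination -this + al b (n + 1) * al_pred hb n

theorem al_coprime (hb : 2 ≤ b) (n : ZZ M) : IsCoprime (al b (n + 1)) (al b n) :=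
  ⟨al b (n + 1) - b * al b n, al b n, by linear_combination al_quad hb n⟩

theorem al_nonneg (hb : 2 ≤ b) {n : ZZ M} (hn : 0 ≤ n) : 0 ≤ al b n := by
  rw [al_of_nonneg hn]; exact (al0_inv hb hn).2.1

theorem al_lt_succ (hb : 2 ≤ b) {n : ZZ M} (hn : 0 ≤ n) : al b n < al b (n + 1) := by
  rw [al_of_nonneg hn, al_of_nonneg (by linarith)]; exact (al0_inv hb hn).1

theorem al_add_le (hb : 2 ≤ b) {m n : ZZ M} (hm : 0 ≤ m) (h : m ≤ n) : al b m + (n - m) ≤ al b n := by
  have := ind (fun k => al b m + k ≤ al b (m + k)) (by fun_prop) (by simp) (fun k hk h => by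
    rw [← add_assoc m]
    linarith [succ_le (al_lt_succ hb (show 0 ≤ m + k by linarith))]) (n - m) (by linarith)
  simpa using this

theorem le_al (hb : 2 ≤ b) {n : ZZ M} (hn : 0 ≤ n) : n ≤ al b n := by
  simpa using al_add_le hb le_rfl hn

theorem al_charac (hb : 2 ≤ b) {x y : ZZ M} (hy : 0 ≤ y) (h : y < x)
    (q : x * x - b * x * y + y * y = 1) : ∃ n, 0 ≤ n ∧ x = al b (n + 1) ∧ y = al b n := by
  refine sind (fun y => ∀ x, y < x → x * x - b * x * y + y * y = 1 →
    ∃ n, 0 ≤ n ∧ x = al b (n + 1) ∧ y = al b n) (by fun_prop) (fun y hy ih x h q => ?_) y hy x h q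
  rcases hy.lt_or_eq with l | rfl
  · have e : (b * y - x) * x = y * y - 1 := by linear_combination -q
    have x0 : 0 < x := by linarith
    have h1 : 0 ≤ b * y - x := by
      by_contra hc
      nlinarith [one_le l, not_le.1 hc]
    have h2 : b * y - x < y := by
      by_contra hc
      nlinarith [not_lt.1 hc]
    obtain ⟨n, hn, e1, e2⟩ := ih _ h1 h2 y h2 (by linear_combination q)
    exact ⟨n + 1, by linarith, by rw [al_rec hb, ← e1, ← e2]; ring, e1⟩
  · refine ⟨0, le_rfl, ?_, by simp⟩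
    rw [zero_add, al_one]
    nlinarith [one_le h]

theorem al_congr (hb : 2 ≤ b) {w q : ZZ M} (hw : 2 ≤ w) (h : q ∣ w - b) {n : ZZ M} (hn : 0 ≤ n) :
    q ∣ al w n - al b n :=
  (ind (fun n => q ∣ al w n - al b n ∧ q ∣ al w (n + 1) - al b (n + 1)) (by fun_prop) (by simp)
    (fun n _ ih => ⟨ih.2, by
      rw [al_rec hb, al_rec hw]
      have := dvd_sub (dvd_add (h.mul_right (al w (n + 1))) (ih.2.mul_left b)) ih.1
      exact (congrArg _ (by ring)).mp this⟩) n hn).1

theorem al_two {n : ZZ M} (hn : 0 ≤ n) : al 2 n = n :=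
  (ind (fun n => al 2 n = n ∧ al 2 (n + 1) = n + 1) (by fun_prop) (by simp)
    (fun n _ ih => ⟨ih.2, by rw [al_rec le_rfl, ih.1, ih.2]; ring⟩) n hn).1

theorem al_mul (hb : 2 ≤ b) (k : ZZ M) {l : ZZ M} (hl : 0 ≤ l) : al b k ∣ al b (k * l) ∧
    al b k * al b k ∣ al b (k + 1) * al b (k * l) - l * al b k * al b (k * l + 1) := by
  refine ind (fun l => al b k ∣ al b (k * l) ∧
    al b k * al b k ∣ al b (k + 1) * al b (k * l) - l * al b k * al b (k * l + 1)) (by fun_prop)
    (by simp) ?_ l hl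
  rintro l - ⟨⟨x, hx⟩, ⟨y, hy⟩⟩
  have e1 := al_add hb k (k * l)
  have e2 := al_add hb (k * l + 1) k
  have e3 := al_pred hb k
  rw [show k + k * l = k * (l + 1) by ring] at e1
  rw [show k * l + 1 + k = k * (l + 1) + 1 by ring, add_sub_cancel_right] at e2
  rw [e1, e2]
  refine ⟨⟨al b (k * l + 1) - al b (k - 1) * x, by linear_combination -al b (k - 1) * hx⟩,
    ⟨al b (k + 1) * y - b * al b (k + 1) * x + (l + 1) * al b (k * l), ?_⟩⟩
  linear_combination al b (k + 1) * hy - b * al b k * al b (k + 1) * hx -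
    al b (k + 1) * al b (k * l) * e3

theorem al_dvd_shift (hb : 2 ≤ b) (k n : ZZ M) {l : ZZ M} (hl : 0 ≤ l) :
    al b k ∣ al b (n + k * l) → al b k ∣ al b n := by
  refine ind (fun l => al b k ∣ al b (n + k * l) → al b k ∣ al b n) (by fun_prop) (by simp) ?_ l hl
  intro l _ ih h
  rw [show n + k * (l + 1) = n + k * l + k by ring, al_add hb] at h
  exact ih ((al_coprime hb k).symm.dvd_of_dvd_mul_right
    (by simpa using dvd_add h (dvd_mul_left (al b k) (al b (n + k * l - 1)))))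

theorem dvd_of_al_sq (hb : 2 ≤ b) {k m : ZZ M} (hk : 0 < k) (hm : 0 ≤ m)
    (h : al b k * al b k ∣ al b m) : al b k ∣ m := by
  obtain ⟨r, h0, h1, l, h2⟩ := exists_divmod m hk
  have hl : 0 ≤ l := by
    have : -1 < l := by
      by_contra hc
      nlinarith [not_lt.1 hc]
    linarith [succ_le this]
  obtain rfl : m = r + k * l := by linear_combination h2
  have h3 := al_dvd_shift hb k r hl ((dvd_mul_right _ _).trans h)
  have h4 := dvd_zero' h3 (by linarith [al_nonneg hb h0, le_al hb hk.le])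
    (by linarith [al_add_le hb h0 h1.le])
  obtain rfl : r = 0 := by linarith [le_al hb h0]
  rw [zero_add] at h ⊢
  obtain ⟨h5, h6⟩ := al_mul hb k hl
  have h7 : al b k * al b k ∣ al b k * (l * al b (k * l + 1)) :=
    (congrArg _ (by ring)).mp (dvd_sub (h.mul_left (al b (k + 1))) h6)
  have h8 := (mul_dvd_mul_iff_left (by linarith [le_al hb hk.le])).1 h7
  exact (((al_coprime hb (k * l)).of_isCoprime_of_dvd_right h5).symm.dvd_of_dvd_mul_right
    h8).mul_left _

theorem al_sq_dvd (hb : 2 ≤ b) {k : ZZ M} (hk : 0 ≤ k) : al b k * al b k ∣ al b (k * al b k) := by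
  have h := (al_mul hb k (al_nonneg hb hk)).2
  exact ((al_coprime hb k).symm.mul_left (al_coprime hb k).symm).dvd_of_dvd_mul_left
    (by simpa using dvd_add h (dvd_mul_right (al b k * al b k) (al b (k * al b k + 1))))

theorem al_period (hb : 2 ≤ b) (m j : ZZ M) {l : ZZ M} (hl : 0 ≤ l) :
    b * al b m - 2 * al b (m - 1) ∣ al b (j + 2 * m * l) - al b j ∨
      b * al b m - 2 * al b (m - 1) ∣ al b (j + 2 * m * l) + al b j := by
  have key : ∀ n, b * al b m - 2 * al b (m - 1) ∣ al b (n + 2 * m) + al b n := by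
    intro n
    have e1 := al_add hb m (m + n)
    have e2 := al_add hb m (-(m + n))
    rw [show m + (m + n) = n + 2 * m by ring] at e1
    rw [show m + -(m + n) = -n by ring, show -(m + n) + 1 = -(m + n - 1) by ring, al_neg, al_neg,
      al_neg] at e2
    exact ⟨al b (m + n), by linear_combination e1 - e2 + al b m * al_pred hb (m + n)⟩
  refine ind (fun l => b * al b m - 2 * al b (m - 1) ∣ al b (j + 2 * m * l) - al b j ∨
      b * al b m - 2 * al b (m - 1) ∣ al b (j + 2 * m * l) + al b j) (by fun_prop) (by simp) ?_ l hl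
  intro l _ ih
  have := key (j + 2 * m * l)
  rw [show j + 2 * m * (l + 1) = j + 2 * m * l + 2 * m by ring]
  rcases ih with ih | ih
  · exact Or.inr ((congrArg _ (by ring)).mp (dvd_sub this ih))
  · exact Or.inl ((congrArg _ (by ring)).mp (dvd_sub this ih))

theorem even_or_odd (z : ZZ M) : 2 ∣ z ∨ IsCoprime z 2 := by
  obtain ⟨r, h0, h1, q, h2⟩ := exists_divmod z (two_pos (α := ZZ M))
  rcases h0.lt_or_eq with l | rfl
  · obtain rfl : r = 1 := le_antisymm (by linarith [succ_le h1]) (one_le l)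
    exact Or.inr ⟨1, -q, by linear_combination h2⟩
  · exact Or.inl ⟨q, by linear_combination h2⟩

theorem matiyasevich (hb : 4 ≤ b) {a c : ZZ M} (hc : 0 ≤ c) : a = al b c ↔
    ∃ r s t u v w x y, (0 ≤ t ∧ t < u ∧ u * u - b * u * t + t * t = 1) ∧
      (0 ≤ r ∧ r < s ∧ s * s - b * s * r + r * r = 1) ∧
      (0 ≤ x ∧ x < y ∧ y * y - w * y * x + x * x = 1) ∧
      u * u ∣ s ∧ v = b * s - 2 * r ∧ v ∣ w - b ∧ u ∣ w - 2 ∧ 2 ≤ w ∧
      0 ≤ a ∧ 2 * a < u ∧ 2 * a < v ∧ 2 * c < u ∧ v ∣ x - a ∧ u ∣ x - c := by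
  have hb2 : 2 ≤ b := by linarith
  have big : ∀ m, 0 ≤ m → 2 * al b (m + 1) < b * al b (m + 1) - 2 * al b m := fun m hm => by
    nlinarith [al_lt_succ hb2 hm, al_nonneg hb2 hm]
  constructor
  · rintro rfl
    have a0 := al_nonneg hb2 hc
    obtain ⟨k, hk, hu⟩ : ∃ k, 2 * al b c ≤ k ∧ IsCoprime (al b (k + 1)) 2 := by
      rcases even_or_odd (al b (2 * al b c + 1)) with h | h
      · rcases even_or_odd (al b (2 * al b c + 1 + 1)) with h' | h'
        · exact absurd (isUnit_iff_dvd_one.1 ((al_coprime hb2 _).isUnit_of_dvd' h' h))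
            (not_dvd_one one_lt_two)
        · exact ⟨_, by linarith, h'⟩
      · exact ⟨_, le_rfl, h⟩
    have k0 : 0 ≤ k := by linarith
    have u0 := le_al hb2 (show 0 ≤ k + 1 by linarith)
    obtain ⟨m, hm⟩ : ∃ m, m + 1 = (k + 1) * al b (k + 1) := ⟨_, sub_add_cancel _ _⟩
    have m1 : al b (k + 1) ≤ m + 1 := by nlinarith
    have m0 : 0 ≤ m := by linarith
    have s0 := le_al hb2 (show 0 ≤ m + 1 by linarith)
    have hs : al b (k + 1) * al b (k + 1) ∣ al b (m + 1) := hm ▸ al_sq_dvd hb2 (by linarith)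
    have hs' := (dvd_mul_right _ _).trans hs
    have v0 := big m m0
    obtain ⟨p, q, e⟩ : IsCoprime (al b (k + 1)) (b * al b (m + 1) - 2 * al b m) := by
      obtain ⟨z, hz⟩ := hs'
      have := (hu.mul_right ((al_coprime hb2 m).of_isCoprime_of_dvd_left ⟨z, hz⟩)).neg_right
      rw [hz, show b * (al b (k + 1) * z) - 2 * al b m = -(2 * al b m) + al b (k + 1) * (b * z) by ring]
      exact this.add_mul_left_right _
    generalize hv : b * al b (m + 1) - 2 * al b m = v at *
    generalize hu' : al b (k + 1) = u at *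
    have uv : 2 ≤ u * v := by nlinarith
    obtain ⟨w0, -, z, hz⟩ := md_spec (2 * q * v + b * p * u) (show 0 < u * v by linarith)
    generalize md (2 * q * v + b * p * u) (u * v) = w at *
    have w2 : 2 ≤ w + u * v := by linarith
    have d1 : v ∣ w + u * v - b := ⟨u - u * z + q * (2 - b), by linear_combination -hz + b * e⟩
    have d2 : u ∣ w + u * v - 2 := ⟨v - v * z + p * (b - 2), by linear_combination -hz + 2 * e⟩
    refine ⟨al b m, al b (m + 1), al b k, u, v, w + u * v, al (w + u * v) c, al (w + u * v) (c + 1),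
      ⟨al_nonneg hb2 k0, hu' ▸ al_lt_succ hb2 k0, hu' ▸ al_quad hb2 k⟩,
      ⟨al_nonneg hb2 m0, al_lt_succ hb2 m0, al_quad hb2 m⟩,
      ⟨al_nonneg w2 hc, al_lt_succ w2 hc, al_quad w2 c⟩, hs, hv.symm, d1, d2, w2, a0, by linarith,
      by linarith, by linarith [le_al hb2 hc], al_congr hb2 w2 d1 hc, ?_⟩
    simpa [al_two hc] using al_congr le_rfl w2 d2 hc
  · rintro ⟨r, s, t, u, v, w, x, y, ⟨t0, t1, t2⟩, ⟨r0, r1, r2⟩, ⟨x0, x1, x2⟩, hs, hv, d1, d2, w2, a0,
      au, av, cu, e1, e2⟩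
    obtain ⟨k, k0, rfl, rfl⟩ := al_charac hb2 t0 t1 t2
    obtain ⟨m, m0, rfl, rfl⟩ := al_charac hb2 r0 r1 r2
    obtain ⟨n, n0, rfl, rfl⟩ := al_charac w2 x0 x1 x2
    have f1 := dvd_of_al_sq hb2 (by linarith) (by linarith) hs
    have f2 := al_congr hb2 w2 d1 n0
    have f3 := al_congr le_rfl w2 d2 n0
    rw [al_two n0] at f3
    obtain ⟨j, j0, j1, l, hl⟩ := exists_divmod (n + (m + 1)) (show 0 < 2 * (m + 1) by linarith)
    have l0 : 0 ≤ l := by
      have : -1 < l := by
        by_contra hc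
        nlinarith [not_lt.1 hc]
      linarith [succ_le this]
    have f4 := al_period hb2 (m + 1) (j - (m + 1)) l0
    rw [add_sub_cancel_right, ← hv, show j - (m + 1) + 2 * (m + 1) * l = n by linear_combination -hl]
      at f4
    have f5 : v ∣ al b n - a := (congrArg _ (by ring)).mp (dvd_sub e1 f2)
    have f6 : al b (k + 1) ∣ c - (j - (m + 1)) := by
      have := dvd_add (dvd_sub f3 e2) (f1.mul_left (2 * l))
      exact (congrArg _ (by linear_combination -hl)).mp this
    have v0 := big m m0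
    rw [← hv] at v0
    obtain ⟨i, i0, i1, hi⟩ : ∃ i, 0 ≤ i ∧ i ≤ m + 1 ∧ (j - (m + 1) = i ∨ j - (m + 1) = -i) := by
      rcases le_total 0 (j - (m + 1)) with h | h
      · exact ⟨_, h, by linarith, Or.inl rfl⟩
      · exact ⟨-(j - (m + 1)), by linarith, by linarith, Or.inr (neg_neg _).symm⟩
    have g0 := al_nonneg hb2 i0
    have g1 := al_add_le hb2 i0 i1
    have g2 := le_al hb2 i0
    have f7 : v ∣ a - al b i ∨ v ∣ a + al b i := by
      rcases hi with hi | hi <;> rw [hi] at f4 <;> rcases f4 with f4 | f4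
      · exact Or.inl ((congrArg _ (by ring)).mp (dvd_sub f4 f5))
      · exact Or.inr ((congrArg _ (by ring)).mp (dvd_sub f4 f5))
      · exact Or.inr ((congrArg _ (by rw [al_neg]; ring)).mp (dvd_sub f4 f5))
      · exact Or.inl ((congrArg _ (by rw [al_neg]; ring)).mp (dvd_sub f4 f5))
    have f8 : a = al b i := by
      rcases f7 with h | h
      · linarith [dvd_zero' h (by linarith) (by linarith)]
      · linarith [dvd_zero' h (by linarith) (by linarith)]
    rcases hi with hi | hi <;> rw [hi] at f6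
    · rw [f8, show i = c by linarith [dvd_zero' f6 (by linarith) (by linarith)]]
    · rw [f8, show i = c by linarith [dvd_zero' f6 (by linarith) (by linarith)]]

theorem pw_le_al {q n : ZZ M} (hq : 0 < q) (h : q + 1 ≤ b) (hn : 0 ≤ n) : pw q n ≤ al b (n + 1) := by
  have hb : 2 ≤ b := by linarith [one_le hq]
  refine ind (fun n => pw q n ≤ al b (n + 1)) (by fun_prop) (by simp) (fun n hn ih => ?_) n hn
  rw [pw_succ _ hn, al_rec hb]
  nlinarith [al_lt_succ hb hn, al_nonneg hb hn]

theorem pw_iff {q r p : ZZ M} (hq : 0 < q) (hr : 0 ≤ r) : p = pw q r ↔ ∃ a b x y,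
    a = al (q + 4) (r + 1) ∧ b = a + q + 4 ∧ x = al b r ∧ y = al b (r + 1) ∧ 0 ≤ p ∧
      p < b * q - q * q - 1 ∧ b * q - q * q - 1 ∣ q * x - (b * x - y) - p := by
  obtain ⟨b, hb⟩ : ∃ b, b = al (q + 4) (r + 1) + q + 4 := ⟨_, rfl⟩
  have h1 := pw_le_al (b := q + 4) hq (by linarith) hr
  have h2 := pw_pos hq hr
  have hb2 : 2 ≤ b := by linarith
  have h3 : pw q r < b * q - q * q - 1 := by nlinarith [one_le hq]
  have h4 : b * q - q * q - 1 ∣ q * al b r - (b * al b r - al b (r + 1)) - pw q r :=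
    ind (fun r => b * q - q * q - 1 ∣ q * al b r - (b * al b r - al b (r + 1)) - pw q r)
      (by fun_prop) (by simp) (fun n hn ⟨z, hz⟩ => ⟨q * z + al b n, by
        rw [pw_succ _ hn, al_rec hb2]; linear_combination q * hz⟩) r hr
  constructor
  · rintro rfl; exact ⟨_, b, _, _, rfl, hb, rfl, rfl, h2.le, h3, h4⟩
  · rintro ⟨_, b', _, _, rfl, e, rfl, rfl, k1, k2, k3⟩
    obtain rfl : b = b' := hb.trans e.symm
    exact rem_unique ⟨k1, k2, k3⟩ ⟨h2.le, h3, h4⟩

end Pool.Agent.HAEP
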