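import Pool.Agent.Lib.MP_ebcb3a_lc.Terms

/-! Realizability combined with truth, and its soundness for HA plus closed literals. -/

set_option warning.simp.otherHead false

namespace Pool.Agent.HAEP

universe u

variable {C : Type u} {L : Lang}

def sh (σ : ℕ → Tm L.F C) : ℕ → Tm L.F C := fun i => (σ i).shift

@[simp] theorem sh_subst_scons (σ τ : ℕ → Tm L.F C) (a) :
    (fun i => (sh σ i).subst (scons a τ)) = fun i => (σ i).subst τ := by
  funext i; simp [sh]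

@[simp] theorem sh_subst_up (σ τ : ℕ → Tm L.F C) :
    (fun i => (sh σ i).subst (up τ)) = sh fun i => (σ i).subst τ := by
  funext i; simp [sh]

theorem subst_sh (σ τ : ℕ → Tm L.F C) :
    (fun i => (τ i).subst (sh σ)) = sh fun i => (τ i).subst σ := by
  funext i; simp only [sh, Tm.shift, Tm.subst_subst]; rfl

namespace Ctx

variable (X : Ctx L C)

/-- `e` realizes `A` under the substitution `σ`. -/
def Q : Tm L.F C → (ℕ → Tm L.F C) → Fm L.F C → Fm L.F C
  | _, _, .bot => .bot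
  | _, σ, .eq s t => .eq (s.subst σ) (t.subst σ)
  | e, σ, .and A B => .and (X.Tot fstP e (Q (.var 0) (sh σ) A)) (X.Tot sndP e (Q (.var 0) (sh σ) B))
  | e, σ, .or A B => .or (.ex (.and (.eq e.shift (pr .zero (.var 0))) (Q (.var 0) (sh σ) A)))
      (.ex (.and (.eq e.shift (pr (.succ .zero) (.var 0))) (Q (.var 0) (sh σ) B)))
  | e, σ, .imp A B => .and ((A.imp B).subst σ) (.all (.imp (Q (.var 0) (sh σ) A)
      (X.Tot appP (pr e.shift (.var 0)) (Q (.var 0) (sh (sh σ)) B))))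
  | e, σ, .all A => .all (X.Tot appP (pr e.shift (.var 0)) (Q (.var 0) (sh (up σ)) A))
  | e, σ, .ex A => .ex (.ex (.and (.eq e.shift.shift (pr (.var 1) (.var 0)))
      (Q (.var 0) (sh (up σ)) A)))

theorem Q_subst (A : Fm L.F C) (e σ τ) :
    (X.Q e σ A).subst τ = X.Q (e.subst τ) (fun i => (σ i).subst τ) A := by
  induction A generalizing e σ τ <;> simp_all [Q, Tm.subst_subst, Fm.subst_subst]

theorem up_sh (σ τ : ℕ → Tm L.F C) :
    (fun i => (up τ i).subst (sh (up σ))) = sh (up fun i => (τ i).subst σ) := by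
  rw [subst_sh, up_subst_up]

theorem Q_of_subst (A : Fm L.F C) (e σ τ) :
    X.Q e σ (A.subst τ) = X.Q e (fun i => (τ i).subst σ) A := by
  induction A generalizing e σ τ <;>
    simp_all [Q, Tm.subst_subst, Fm.subst_subst, subst_sh]

variable {X} {Δ : List (Fm L.F C)} {e : Tm L.F C} {σ : ℕ → Tm L.F C} {A B D : Fm L.F C}

@[simp] theorem Q_inst (v) : (X.Q (.var 0) (sh σ) A).inst v = X.Q v σ A := by
  simp [Fm.inst, Q_subst]

theorem Q_and : Pf X.T Δ (X.Q e σ (.and A B)) ↔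
    X.Run Δ fstP e (fun v => X.Q v σ A) ∧ X.Run Δ sndP e (fun v => X.Q v σ B) := by
  constructor
  · intro h
    exact ⟨by simpa using tot_iff.1 h.andE1, by simpa using tot_iff.1 h.andE2⟩
  · intro h
    exact .andI (tot_iff.2 (by simpa using h.1)) (tot_iff.2 (by simpa using h.2))

theorem Q_imp : Pf X.T Δ (X.Q e σ (.imp A B)) ↔ Pf X.T Δ ((A.imp B).subst σ) ∧
    ∀ Δ' x, Δ ⊆ Δ' → Pf X.T Δ' (X.Q x σ A) → X.Run Δ' appP (pr e x) (fun v => X.Q v σ B) := by
  have key : ∀ x, (Fm.imp (X.Q (.var 0) (sh σ) A)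
      (X.Tot appP (pr e.shift (.var 0)) (X.Q (.var 0) (sh (sh σ)) B))).inst x =
      .imp (X.Q x σ A) (X.Tot appP (pr e x) (X.Q (.var 0) (sh σ) B)) := by
    intro x; simp [Fm.inst, Q_subst]
  constructor
  · intro h
    refine ⟨h.andE1, fun Δ' x s k => ?_⟩
    have := (h.andE2.weaken s).allE x
    rw [key] at this
    simpa using tot_iff.1 (this.impE k)
  · intro h
    refine .andI h.1 (.allI' fun x => ?_)
    rw [key]
    exact .impK fun Δ' s k => tot_iff.2 (by simpa using h.2 Δ' x s k)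

theorem Q_all : Pf X.T Δ (X.Q e σ (.all A)) ↔
    ∀ x, X.Run Δ appP (pr e x) (fun v => X.Q v (scons x σ) A) := by
  have key : ∀ x, (X.Tot appP (pr e.shift (.var 0)) (X.Q (.var 0) (sh (up σ)) A)).inst x =
      X.Tot appP (pr e x) (X.Q (.var 0) (sh (scons x σ)) A) := by
    intro x; simp [Fm.inst, Q_subst]
  constructor
  · intro h x
    have := h.allE x
    rw [key] at this
    simpa using tot_iff.1 this
  · intro h
    refine .allI' fun x => ?_
    rw [key]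
    exact tot_iff.2 (by simpa using h x)

theorem Q_exI {a b} (h : Pf X.T Δ (.eq e (pr a b))) (k : Pf X.T Δ (X.Q b (scons a σ) A)) :
    Pf X.T Δ (X.Q e σ (.ex A)) := by
  refine .exI a ?_
  simp only [Fm.inst, Fm.subst_ex]
  refine .exI b ?_
  simpa [Fm.inst, Q_subst] using h.andI k

theorem Q_exE (h : Pf X.T Δ (X.Q e σ (.ex A)))
    (k : ∀ Δ' a b, Δ ⊆ Δ' → Pf X.T Δ' (.eq e (pr a b)) → Pf X.T Δ' (X.Q b (scons a σ) A) →
      Pf X.T Δ' D) : Pf X.T Δ D := by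
  refine Pf.exK h fun Δ' a s j => ?_
  simp only [Fm.inst, Fm.subst_ex] at j
  refine j.exK fun Δ'' b s' j' => ?_
  have : Pf X.T Δ'' (.and (.eq e (pr a b)) (X.Q b (scons a σ) A)) := by
    simpa [Fm.inst, Q_subst] using j'
  exact k _ a b (List.Subset.trans s s') this.andE1 this.andE2

theorem Q_orI1 {b} (h : Pf X.T Δ (.eq e (pr .zero b))) (k : Pf X.T Δ (X.Q b σ A)) :
    Pf X.T Δ (X.Q e σ (.or A B)) :=
  .orI1 (.exI b (by simpa [Fm.inst, Q_subst] using h.andI k))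

theorem Q_orI2 {b} (h : Pf X.T Δ (.eq e (pr (.succ .zero) b))) (k : Pf X.T Δ (X.Q b σ B)) :
    Pf X.T Δ (X.Q e σ (.or A B)) :=
  .orI2 (.exI b (by simpa [Fm.inst, Q_subst] using h.andI k))

theorem Q_orE (h : Pf X.T Δ (X.Q e σ (.or A B)))
    (k₁ : ∀ Δ' b, Δ ⊆ Δ' → Pf X.T Δ' (.eq e (pr .zero b)) → Pf X.T Δ' (X.Q b σ A) → Pf X.T Δ' D)
    (k₂ : ∀ Δ' b, Δ ⊆ Δ' → Pf X.T Δ' (.eq e (pr (.succ .zero) b)) → Pf X.T Δ' (X.Q b σ B) →
      Pf X.T Δ' D) : Pf X.T Δ D := by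
  refine Pf.orK h (fun Δ' s j => j.exK fun Δ'' b s' j' => ?_)
    (fun Δ' s j => j.exK fun Δ'' b s' j' => ?_)
  · have : Pf X.T Δ'' (.and (.eq e (pr .zero b)) (X.Q b σ A)) := by
      simpa [Fm.inst, Q_subst] using j'
    exact k₁ _ b (List.Subset.trans s s') this.andE1 this.andE2
  · have : Pf X.T Δ'' (.and (.eq e (pr (.succ .zero) b)) (X.Q b σ B)) := by
      simpa [Fm.inst, Q_subst] using j'
    exact k₂ _ b (List.Subset.trans s s') this.andE1 this.andE2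

theorem Q_true (h : Pf X.T Δ (X.Q e σ A)) : Pf X.T Δ (A.subst σ) := by
  induction A generalizing Δ e σ with
  | bot => exact h
  | eq => exact h
  | and A B a b =>
    exact .andI ((Q_and.1 h).1.elim fun _ _ _ _ k => a k) ((Q_and.1 h).2.elim fun _ _ _ _ k => b k)
  | or A B a b => exact Q_orE h (fun _ _ _ _ k => (a k).orI1) (fun _ _ _ _ k => (b k).orI2)
  | imp A B => exact h.andE1
  | all A a =>
    exact .allI' fun x => (Q_all.1 h x).elim fun _ _ _ _ k => by simpa using a k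
  | ex A a => exact Q_exE h fun _ x _ _ _ k => .exI x (by simpa using a k)

theorem Q_congr {e'} (h : Pf X.T Δ (.eq e e')) (k : Pf X.T Δ (X.Q e' σ A)) :
    Pf X.T Δ (X.Q e σ A) := by
  simpa using Pf.eqE (X.Q (.var 0) (sh σ) A) h.symm (by simpa using k)

theorem Ev.Q {p t} (h : X.Ev Δ p e t) (k : Pf X.T Δ (X.Q t σ A)) :
    X.Run Δ p e fun v => X.Q v σ A := h.conseq fun _ _ s j => Q_congr j (k.weaken s)

theorem run_lam_imp {p} (h : Pf X.T Δ ((A.imp B).subst σ))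
    (k : ∀ Δ' x, Δ ⊆ Δ' → Pf X.T Δ' (X.Q x σ A) → X.Run Δ' p (pr e x) fun v => X.Q v σ B) :
    X.Run Δ (lamP p) e fun v => X.Q v σ (A.imp B) :=
  ev_lam.Q (Q_imp.2 ⟨h, fun Δ' x s j => (k Δ' x s j).app⟩)

theorem run_lam_all {p} (k : ∀ x, X.Run Δ p (pr e x) fun v => X.Q v (scons x σ) A) :
    X.Run Δ (lamP p) e fun v => X.Q v σ (.all A) :=
  ev_lam.Q (Q_all.2 fun x => (k x).app)

theorem run_app_imp {p q} (h : X.Run Δ p e fun v => X.Q v σ (A.imp B))
    (k : X.Run Δ q e fun v => X.Q v σ A) :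
    X.Run Δ (compP appP (pairP p q)) e fun v => X.Q v σ B := by
  refine Run.comp (P := fun w => X.Tot appP w (X.Q (.var 0) (sh σ) B))
    (h.pair k fun Δ' a b v _ ha hb hv => tot_iff.2 ?_) fun Δ' u _ hu => ?_
  · simpa using Run.congr hv ((Q_imp.1 ha).2 Δ' b (List.Subset.refl _) hb)
  · simpa using tot_iff.1 hu

theorem run_app_all {p q t} (h : X.Run Δ p e fun v => X.Q v σ (.all A)) (k : X.Ev Δ q e t) :
    X.Run Δ (compP appP (pairP p q)) e fun v => X.Q v (scons t σ) A := by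
  refine Run.comp (P := fun w => X.Tot appP w (X.Q (.var 0) (sh (scons t σ)) A))
    (h.pair k fun Δ' a b v _ ha hb hv => tot_iff.2 ?_) fun Δ' u _ hu => ?_
  · simpa using Run.congr (hv.trans (pr_congr (.refl _) hb)) (Q_all.1 ha t)
  · simpa using tot_iff.1 hu

/-- Atomic formulas. -/
def Atom (A : Fm L.F C) : Prop := A = .bot ∨ ∃ s t, A = .eq s t

theorem Atom.Q_eq (h : Atom A) : X.Q e σ A = A.subst σ := by
  rcases h with rfl | ⟨s, t, rfl⟩ <;> rfl

theorem run_atom (h : Atom A) (k : Pf X.T Δ (A.subst σ)) :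
    X.Run Δ (kP .zero) e fun v => X.Q v σ A := ev_k.Q (by rwa [h.Q_eq])

theorem run_atom_imp (h : Atom A) (h' : Atom B) (k : Pf X.T Δ ((A.imp B).subst σ)) :
    X.Run Δ (lamP (kP .zero)) e fun v => X.Q v σ (A.imp B) :=
  run_lam_imp k fun _ _ s j => run_atom h' ((k.weaken s).impE (Q_true j))

theorem run_ind : ∃ p, ∀ Δ e σ, X.Run Δ p e fun v => X.Q v σ (.imp (A.inst .zero)
      (.imp (.all (.imp A (A.subst (scons (.succ (.var 0)) (fun i => .var (i + 1)))))) (.all A))) := by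
  refine ⟨lamP (lamP (lamP (recP (compP sndP fstP) (compP appP (pairP (compP appP
    (pairP (compP (compP sndP fstP) fstP) (compP sndP fstP))) sndP))))), fun Δ e σ => ?_⟩
  have hax : ∀ {Δ}, Pf X.T Δ _ := Pf.ax σ (X.hT (HAx.ind A))
  refine run_lam_imp hax fun Δ₁ x _ hx => run_lam_imp (hax.impE (Q_true hx)) fun Δ₂ y s hy =>
    run_lam_all fun n => ?_
  have := Run.prec (X := X) (Δ := Δ₂) (p := compP sndP fstP) (q := compP appP (pairP (compP appP
    (pairP (compP (compP sndP fstP) fstP) (compP sndP fstP))) sndP)) (e := pr (pr e x) y)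
    (X.Q (.var 0) (sh (up σ)) A)
    (by simpa [Q_subst, Fm.inst, Q_of_subst] using Run.up (ev_snd.Q (hx.weaken s)))
    (fun Δ' m u s' hu => by
      have h1 := run_app_all (X := X) (Δ := Δ') (e := pr (pr (pr (pr e x) y) m) u)
        (Run.up (Run.up (ev_snd.Q (hy.weaken s')))) (Run.up ev_snd)
      have h2 := run_app_imp h1 (ev_snd.Q (by simpa [Q_subst] using hu))
      simpa [Q_subst, Q_of_subst] using h2) n
  simpa [Q_subst] using this

theorem run_ax {E : Set (Fm L.F C)} (hE : ∀ B ∈ E, ∃ s t, B = .eq s t ∨ B = .imp (.eq s t) .bot)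
    (hX : X.T = HA L C ∪ E) (h : A ∈ X.T) : ∃ p, ∀ Δ e σ, X.Run Δ p e fun v => X.Q v σ A := by
  have a : ∀ {s t : Tm L.F C}, Atom (.eq s t) := Or.inr ⟨_, _, rfl⟩
  have h' := h
  rw [hX] at h'
  rcases h' with h' | h'
  · match A, h', h with
    | _, .succ_ne_zero, h => exact ⟨_, fun _ _ σ => run_atom_imp a (Or.inl rfl) (.ax σ h)⟩
    | _, .succ_inj, h => exact ⟨_, fun _ _ σ => run_atom_imp a a (.ax σ h)⟩
    | _, .add_zero, h => exact ⟨_, fun _ _ σ => run_atom a (.ax σ h)⟩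
    | _, .add_succ, h => exact ⟨_, fun _ _ σ => run_atom a (.ax σ h)⟩
    | _, .mul_zero, h => exact ⟨_, fun _ _ σ => run_atom a (.ax σ h)⟩
    | _, .mul_succ, h => exact ⟨_, fun _ _ σ => run_atom a (.ax σ h)⟩
    | _, .ind A, _ => exact run_ind
    | _, .expl _ _ _, h => exact ⟨_, fun _ _ σ => run_atom a (.ax σ h)⟩
    | _, .prec_zero _ _ _ _, h => exact ⟨_, fun _ _ σ => run_atom a (.ax σ h)⟩
    | _, .prec_succ _ _ _ _, h => exact ⟨_, fun _ _ σ => run_atom a (.ax σ h)⟩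
  · obtain ⟨s, t, rfl | rfl⟩ := hE A h'
    · exact ⟨_, fun _ _ σ => run_atom a (.ax σ h)⟩
    · exact ⟨_, fun _ _ σ => run_atom_imp a (Or.inl rfl) (.ax σ h)⟩

variable (X) in
/-- The programs `hp` realize the hypotheses `Γ`. -/
def Hyps (Δ Γ : List (Fm L.F C)) (hp : ℕ → Tm L.F C) (e : Tm L.F C) (σ : ℕ → Tm L.F C) : Prop :=
  ∀ i B, Γ[i]? = some B → X.Run Δ (hp i) e fun v => X.Q v σ B

theorem Hyps.cut {Γ hp} (h : X.Hyps Δ Γ hp e σ) (k : Pf X.T Γ A) : Pf X.T Δ (A.subst σ) :=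
  k.cut σ fun B hB => by
    obtain ⟨i, hi⟩ := List.mem_iff_getElem?.1 hB
    exact (h i B hi).elim fun _ _ _ _ j => Q_true j

theorem Hyps.up {Γ hp Δ'} (h : X.Hyps Δ Γ hp e σ) (s : Δ ⊆ Δ') (x) :
    X.Hyps Δ' Γ (fun i => compP (hp i) fstP) (pr e x) σ :=
  fun i B hi => ((h i B hi).weaken s).up

theorem Hyps.shift {Γ hp} (h : X.Hyps Δ Γ hp e σ) (x) :
    X.Hyps Δ (Γ.map Fm.shift) hp e (scons x σ) := by
  intro i B hi
  rw [List.getElem?_map, Option.map_eq_some_iff] at hi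
  obtain ⟨B, hB, rfl⟩ := hi
  simpa [Fm.shift, Q_of_subst] using h i B hB

theorem Hyps.cons {Γ hp p} (h : X.Hyps Δ Γ hp e σ) (k : X.Run Δ p e fun v => X.Q v σ A) :
    X.Hyps Δ (A :: Γ) (scons p hp) e σ := by
  intro i B hi
  cases i with
  | zero => obtain rfl : A = B := by simpa using hi
            exact k
  | succ i => exact h i B (by simpa using hi)

theorem sound {E : Set (Fm L.F C)} (hE : ∀ B ∈ E, ∃ s t, B = .eq s t ∨ B = .imp (.eq s t) .bot)
    (hX : X.T = HA L C ∪ E) {Γ} (h : Pf X.T Γ A) : ∀ vp hp : ℕ → Tm L.F C, ∃ p, ∀ Δ e σ,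
      (∀ i, X.Ev Δ (vp i) e (σ i)) → X.Hyps Δ Γ hp e σ → X.Run Δ p e fun v => X.Q v σ A := by
  have vup : ∀ {Δ Δ' : List (Fm L.F C)} {vp σ : ℕ → Tm L.F C} {e}, (∀ i, X.Ev Δ (vp i) e (σ i)) →
      Δ ⊆ Δ' → ∀ x i, X.Ev Δ' (compP (vp i) fstP) (pr e x) (σ i) :=
    fun h s x i => Run.up ((h i).weaken s)
  induction h with
  | hyp h =>
    obtain ⟨i, hi⟩ := List.mem_iff_getElem?.1 h
    exact fun vp hp => ⟨hp i, fun _ _ _ _ H => H i _ hi⟩
  | ax τ h =>
    obtain ⟨p, hp⟩ := run_ax hE hX h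
    exact fun _ _ => ⟨p, fun Δ e σ _ _ => by simpa [Q_of_subst] using hp Δ e _⟩
  | botE _ a =>
    intro vp hp; obtain ⟨p, a⟩ := a vp hp
    exact ⟨p, fun Δ e σ V H => (a Δ e σ V H).conseq fun _ _ _ k => .botE k⟩
  | andI _ _ a b =>
    intro vp hp; obtain ⟨p, a⟩ := a vp hp; obtain ⟨q, b⟩ := b vp hp
    exact ⟨pairP p q, fun Δ e σ V H => (a Δ e σ V H).pair (b Δ e σ V H) fun _ _ _ _ _ x y z =>
      Q_and.2 ⟨Run.congr z (ev_fst.Q x), Run.congr z (ev_snd.Q y)⟩⟩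
  | andE1 _ a =>
    intro vp hp; obtain ⟨p, a⟩ := a vp hp
    exact ⟨compP fstP p, fun Δ e σ V H => (a Δ e σ V H).comp fun _ _ _ k => (Q_and.1 k).1⟩
  | andE2 _ a =>
    intro vp hp; obtain ⟨p, a⟩ := a vp hp
    exact ⟨compP sndP p, fun Δ e σ V H => (a Δ e σ V H).comp fun _ _ _ k => (Q_and.1 k).2⟩
  | orI1 _ a =>
    intro vp hp; obtain ⟨p, a⟩ := a vp hp
    exact ⟨pairP (kP .zero) p, fun Δ e σ V H => Run.pair ev_k (a Δ e σ V H)
      fun _ _ _ _ _ x y z => Q_orI1 (z.trans (pr_congr x (.refl _))) y⟩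
  | orI2 _ a =>
    intro vp hp; obtain ⟨p, a⟩ := a vp hp
    exact ⟨pairP (kP (.succ .zero)) p, fun Δ e σ V H => Run.pair ev_k (a Δ e σ V H)
      fun _ _ _ _ _ x y z => Q_orI2 (z.trans (pr_congr x (.refl _))) y⟩
  | @orE _ A B D _ _ _ a b c =>
    intro vp hp; obtain ⟨p, a⟩ := a vp hp
    obtain ⟨q, b⟩ := b (fun i => compP (vp i) fstP) (scons sndP fun i => compP (hp i) fstP)
    obtain ⟨r, c⟩ := c (fun i => compP (vp i) fstP) (scons sndP fun i => compP (hp i) fstP)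
    refine ⟨compP (caseP q r) (pairP idP p), fun Δ e σ V H => ?_⟩
    refine Run.comp (P := fun w => X.Tot (caseP q r) w (X.Q (.var 0) (sh σ) D))
      (Run.pair ev_id (a Δ e σ V H) fun Δ' x y v s hx hy hv => ?_) fun Δ' u _ hu => by
        simpa using tot_iff.1 hu
    have hv' := hv.trans (pr_congr hx (.refl _))
    refine Q_orE hy (fun Δ'' z s' h₁ h₂ => tot_iff.2 ?_) (fun Δ'' z s' h₁ h₂ => tot_iff.2 ?_)
    · have s₂ := List.Subset.trans s s'
      simpa using Run.congr ((hv'.weaken s').trans (pr_congr (.refl _) h₁))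
        (b Δ'' _ σ (vup V s₂ z) ((H.up s₂ z).cons (ev_snd.Q h₂))).case0
    · have s₂ := List.Subset.trans s s'
      simpa using Run.congr ((hv'.weaken s').trans (pr_congr (.refl _) h₁))
        (c Δ'' _ σ (vup V s₂ z) ((H.up s₂ z).cons (ev_snd.Q h₂))).caseS
  | impI h a =>
    intro vp hp
    obtain ⟨p, a⟩ := a (fun i => compP (vp i) fstP) (scons sndP fun i => compP (hp i) fstP)
    exact ⟨lamP p, fun Δ e σ V H => run_lam_imp (H.cut h.impI) fun Δ' x s k =>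
      a Δ' _ σ (vup V s x) ((H.up s x).cons (ev_snd.Q k))⟩
  | impE _ _ a b =>
    intro vp hp; obtain ⟨p, a⟩ := a vp hp; obtain ⟨q, b⟩ := b vp hp
    exact ⟨_, fun Δ e σ V H => run_app_imp (a Δ e σ V H) (b Δ e σ V H)⟩
  | allI _ a =>
    intro vp hp
    obtain ⟨p, a⟩ := a (scons sndP fun i => compP (vp i) fstP) (fun i => compP (hp i) fstP)
    exact ⟨lamP p, fun Δ e σ V H => run_lam_all fun x =>
      a Δ _ _ (ev_scons V x) ((H.up (List.Subset.refl _) x).shift x)⟩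
  | allE t _ a =>
    intro vp hp; obtain ⟨p, a⟩ := a vp hp
    obtain ⟨q, b⟩ := tm_prog (X := X) vp t
    exact ⟨_, fun Δ e σ V H => by
      simpa [Fm.inst, Q_of_subst] using run_app_all (a Δ e σ V H) (b Δ e σ V)⟩
  | exI t _ a =>
    intro vp hp; obtain ⟨p, a⟩ := a vp hp
    obtain ⟨q, b⟩ := tm_prog (X := X) vp t
    exact ⟨pairP q p, fun Δ e σ V H => Run.pair (b Δ e σ V) (a Δ e σ V H)
      fun _ _ _ _ _ x y z => Q_exI (z.trans (pr_congr x (.refl _)))
        (by simpa [Fm.inst, Q_of_subst] using y)⟩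
  | @exE _ A D _ _ a b =>
    intro vp hp; obtain ⟨p, a⟩ := a vp hp
    obtain ⟨q, b⟩ := b (scons (compP fstP sndP) fun i => compP (vp i) fstP)
      (scons (compP sndP sndP) fun i => compP (hp i) fstP)
    refine ⟨compP q (pairP idP p), fun Δ e σ V H => ?_⟩
    refine Run.comp (P := fun w => X.Tot q w (X.Q (.var 0) (sh σ) D))
      (Run.pair ev_id (a Δ e σ V H) fun Δ' x y v s hx hy hv => ?_) fun Δ' u _ hu => by
        simpa using tot_iff.1 hu
    have hv' := hv.trans (pr_congr hx (.refl _))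
    refine Q_exE hy fun Δ'' z w s' h₁ h₂ => tot_iff.2 ?_
    have s₂ := List.Subset.trans s s'
    have := b Δ'' (pr e (pr z w)) (scons z σ) (fun i => by
      cases i with
      | zero => exact Ev.comp ev_snd ev_fst
      | succ i => exact vup V s₂ _ i) (((H.up s₂ _).shift z).cons (Ev.comp ev_snd (ev_snd.Q h₂)))
    simpa [Fm.shift, Q_of_subst] using
      Run.congr ((hv'.weaken s').trans (pr_congr (.refl _) h₁)) this
  | refl t => exact fun _ _ => ⟨_, fun _ _ _ _ _ => run_atom (Or.inr ⟨_, _, rfl⟩) (.refl _)⟩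
  | @eqE _ s t A h _ _ b =>
    intro vp hp; obtain ⟨p, b⟩ := b vp hp
    refine ⟨p, fun Δ e σ V H => (b Δ e σ V H).conseq fun Δ' v s' k => ?_⟩
    have := Pf.eqE (X.Q v.shift (up σ) A) ((H.cut h).weaken s')
      (by simpa [Fm.inst, Q_of_subst, Q_subst] using k)
    simpa [Fm.inst, Q_of_subst, Q_subst] using this

end Ctx

end Pool.Agent.HAEP
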