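import Pool.Agent.Lib.MP_ebcb3a_lc.Model

/-! The ordered ring of differences of a model of PA. -/

namespace Pool.Agent.HAEP

variable {M : Mod}

def zsetoid (M : Mod) : Setoid (NN M × NN M) where
  r a b := a.1 + b.2 = b.1 + a.2
  iseqv := ⟨fun _ => rfl, fun h => h.symm, fun {a b c} h k => by
    have : a.1 + c.2 + (b.1 + b.2) = c.1 + a.2 + (b.1 + b.2) := by linear_combination h + k
    exact add_right_cancel this⟩

/-- Formal differences. -/
def ZZ (M : Mod) : Type := Quotient (zsetoid M)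

namespace ZZ

def mk (a b : NN M) : ZZ M := Quotient.mk (zsetoid M) (a, b)

theorem mk_eq {a b c d : NN M} : mk a b = mk c d ↔ a + d = c + b := Quotient.eq

theorem ind' {P : ZZ M → Prop} (h : ∀ a b, P (mk a b)) (z) : P z :=
  Quotient.ind (fun x => h x.1 x.2) z

instance : Zero (ZZ M) := ⟨mk 0 0⟩
instance : One (ZZ M) := ⟨mk 1 0⟩
instance : Add (ZZ M) := ⟨Quotient.map₂ (fun a b => (a.1 + b.1, a.2 + b.2)) fun a b h c d k => by
  change _ = _ at h k ⊢; dsimp only; linear_combination h + k⟩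
instance : Neg (ZZ M) := ⟨Quotient.map (fun a => (a.2, a.1)) fun a b h => by
  change _ = _ at h ⊢; dsimp only; linear_combination h.symm⟩
instance : Mul (ZZ M) := ⟨Quotient.map₂ (fun a b => (a.1 * b.1 + a.2 * b.2, a.1 * b.2 + a.2 * b.1))
  fun a b h c d k => by
    change _ = _ at h k ⊢; dsimp only
    linear_combination c.1 * h + c.2 * h.symm + b.1 * k + b.2 * k.symm⟩

theorem zero_def : (0 : ZZ M) = mk 0 0 := rfl
theorem one_def : (1 : ZZ M) = mk 1 0 := rfl
theorem add_def (a b c d : NN M) : mk a b + mk c d = mk (a + c) (b + d) := rfl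
theorem neg_def (a b : NN M) : -mk a b = mk b a := rfl
theorem mul_def (a b c d : NN M) : mk a b * mk c d = mk (a * c + b * d) (a * d + b * c) := rfl

instance : CommRing (ZZ M) := CommRing.ofMinimalAxioms
  (by refine ind' fun a b => ind' fun c d => ind' fun e f => ?_
      simp only [add_def, mk_eq]; ring)
  (by refine ind' fun a b => ?_
      simp only [zero_def, add_def, mk_eq]; ring)
  (by refine ind' fun a b => ?_
      simp only [zero_def, add_def, neg_def, mk_eq]; ring)
  (by refine ind' fun a b => ind' fun c d => ind' fun e f => ?_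
      simp only [mul_def, mk_eq]; ring)
  (by refine ind' fun a b => ind' fun c d => ?_
      simp only [mul_def, mk_eq]; ring)
  (by refine ind' fun a b => ?_
      simp only [one_def, mul_def, mk_eq]; ring)
  (by refine ind' fun a b => ind' fun c d => ind' fun e f => ?_
      simp only [add_def, mul_def, mk_eq]; ring)

end ZZ

open ZZ

/-- The embedding of the model in its ring of differences. -/
def io : NN M →+* ZZ M where
  toFun a := mk a 0
  map_one' := rfl
  map_zero' := rfl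
  map_add' a b := by simp only [add_def, mk_eq]; ring
  map_mul' a b := by simp only [mul_def, mk_eq]; ring

theorem io_inj {a b : NN M} : io a = io b ↔ a = b := by
  change mk a 0 = mk b 0 ↔ _; simp [mk_eq]

theorem mk_eq_sub (a b : NN M) : mk a b = io a - io b := by
  rw [eq_sub_iff_add_eq]; change mk a b + mk b 0 = mk a 0
  simp only [add_def, mk_eq]; ring

theorem exists_sub (z : ZZ M) : ∃ a b, z = io a - io b :=
  ind' (P := fun z => ∃ a b, z = io a - io b) (fun a b => ⟨a, b, mk_eq_sub a b⟩) z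

theorem io_or (z : ZZ M) : (∃ a, z = io a) ∨ ∃ a, z = -io a := by
  obtain ⟨a, b, rfl⟩ := exists_sub z
  rcases NN.total a b with ⟨c, rfl⟩ | ⟨c, rfl⟩
  · exact Or.inr ⟨c, by simp⟩
  · exact Or.inl ⟨c, by simp⟩

noncomputable instance : LinearOrder (ZZ M) where
  le a b := ∃ n, b = a + io n
  le_refl a := ⟨0, by simp⟩
  le_trans := by
    rintro a _ _ ⟨m, rfl⟩ ⟨n, rfl⟩; exact ⟨m + n, by simp [add_assoc]⟩
  le_antisymm := by
    rintro a _ ⟨m, rfl⟩ ⟨n, h⟩
    have : io (n + m) = io 0 := by simp only [map_add, map_zero]; linear_combination -h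
    rw [NN.eq_zero_of_add (io_inj.1 this)]; simp
  le_total a b := by
    rcases io_or (b - a) with ⟨n, h⟩ | ⟨n, h⟩
    · exact Or.inl ⟨n, by linear_combination h⟩
    · exact Or.inr ⟨n, by linear_combination -h⟩
  toDecidableLE := Classical.decRel _

theorem le_def {a b : ZZ M} : a ≤ b ↔ ∃ n, b = a + io n := Iff.rfl

theorem nonneg_iff {a : ZZ M} : 0 ≤ a ↔ ∃ n, a = io n := by simp [le_def]

theorem io_nonneg (n : NN M) : 0 ≤ io n := nonneg_iff.2 ⟨n, rfl⟩

instance : IsOrderedAddMonoid (ZZ M) where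
  add_le_add_left := by rintro a _ ⟨n, rfl⟩ c; exact ⟨n, by ring⟩

instance : ZeroLEOneClass (ZZ M) := ⟨⟨1, by simp⟩⟩

instance : Nontrivial (ZZ M) := ⟨⟨1, 0, fun h => NN.succ_ne' (0 : NN M) (io_inj.1 (by simpa using h))⟩⟩

theorem pos_iff {a : ZZ M} : 0 < a ↔ ∃ n, a = io n + 1 := by
  rw [lt_iff_le_and_ne, nonneg_iff]
  constructor
  · rintro ⟨⟨n, rfl⟩, h⟩
    rcases NN.zero_or_succ n with rfl | ⟨m, rfl⟩
    · simp at h
    · exact ⟨m, by simp⟩
  · rintro ⟨n, rfl⟩
    exact ⟨⟨n + 1, by simp⟩, fun h => NN.succ_ne' n (io_inj.1 (by simpa using h.symm))⟩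

instance : IsStrictOrderedRing (ZZ M) := .of_mul_pos fun a b ha hb => by
  obtain ⟨m, rfl⟩ := pos_iff.1 ha; obtain ⟨n, rfl⟩ := pos_iff.1 hb
  exact pos_iff.2 ⟨m * n + m + n, by simp only [map_add, map_mul]; ring⟩

theorem succ_le {a b : ZZ M} (h : a < b) : a + 1 ≤ b := by
  obtain ⟨n, hn⟩ := pos_iff.1 (sub_pos.2 h)
  exact ⟨n, by linear_combination hn⟩

instance : QB M (ZZ M) where
  D g := DP M fun ρ => g (fun i => ρ (i + 2)) = io (ρ 0) - io (ρ 1)
  ren r h := h.ren (scons 0 (scons 1 fun i => r i + 2))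
  const a := by
    obtain ⟨x, y, rfl⟩ := exists_sub a
    refine (DP.eq (.add (.cst x) (.var 1)) (.add (.var 0) (.cst y))).of_iff fun ρ => ?_
    rw [← mk_eq_sub, ← mk_eq_sub, mk_eq]; rfl

namespace DF

variable {α : Type} [QB M α] {f g : α → ZZ M}

theorem graphZ' (h : DF M fun x : α × NN M × NN M => f x.1 = io x.2.1 - io x.2.2) : DF M f :=
  fun g hg => h (fun ρ => (g fun i => ρ (i + 2), ρ 0, ρ 1))
    ⟨QB.ren _ hg, head, QB.ren (fun _ => 1) head⟩

theorem eqSub (hf : DF M f) {a b : α → NN M} (ha : DF M a) (hb : DF M b) :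
    DF M fun x => f x = io (a x) - io (b x) := by
  intro k h
  have h1 := (ha _ h).ren (scons 0 fun i => i + 2)
  have h2 := (hb _ h).ren (scons 1 fun i => i + 2)
  refine (DP.ex (DP.ex (h1.and (h2.and (hf _ h))))).of_iff fun ρ => ?_
  simp

@[fun_prop] theorem eqZ (hf : DF M f) (hg : DF M g) : DF M fun x => f x = g x := by
  refine of_iff (p := fun x => ∃ a b, f x = io a - io b ∧ g x = io a - io b)
    (exN (exN (and (eqSub ?_ ?_ ?_) (eqSub ?_ ?_ ?_)))) fun x => ⟨fun h => ?_, ?_⟩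
  any_goals fun_prop
  · obtain ⟨a, b, e⟩ := exists_sub (f x); exact ⟨a, b, e, h ▸ e⟩
  · rintro ⟨a, b, h, k⟩; rw [h, k]

theorem subN {a b : α → NN M} (ha : DF M a) (hb : DF M b) : DF M fun x => io (a x) - io (b x) :=
  graphZ' (of_iff (p := fun x : α × NN M × NN M => a x.1 + x.2.2 = x.2.1 + b x.1) (by fun_prop)
    fun x => by rw [← mk_eq_sub, ← mk_eq_sub, mk_eq])

@[fun_prop] theorem exZ {P : α → ZZ M → Prop} (h : DF M fun x : α × ZZ M => P x.1 x.2) :
    DF M fun x => ∃ y, P x y := by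
  refine of_iff (p := fun x => ∃ a b, P x (io a - io b)) (exN (exN ?_)) fun x => ⟨?_, ?_⟩
  · exact h.comp (g := fun x : (α × NN M) × NN M => (x.1.1, io x.1.2 - io x.2))
      (prodMk (by fun_prop) (subN (by fun_prop) (by fun_prop)))
  · rintro ⟨y, hy⟩; obtain ⟨a, b, rfl⟩ := exists_sub y; exact ⟨a, b, hy⟩
  · rintro ⟨a, b, hy⟩; exact ⟨_, hy⟩

@[fun_prop] theorem allZ {P : α → ZZ M → Prop} (h : DF M fun x : α × ZZ M => P x.1 x.2) :
    DF M fun x => ∀ y, P x y :=
  (exZ (P := fun x y => ¬ P x y) h.not).not.of_iff fun _ => by simp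

theorem graphZ (h : DF M fun x : α × ZZ M => f x.1 = x.2) : DF M f :=
  graphZ' (h.comp (g := fun x : α × NN M × NN M => (x.1, io x.2.1 - io x.2.2))
    (prodMk (by fun_prop) (subN (by fun_prop) (by fun_prop))))

theorem ioN {a : α → NN M} (ha : DF M a) : DF M fun x => io (a x) := by
  simpa using subN ha (const 0)

theorem bin (op : ZZ M → ZZ M → ZZ M) (p q : NN M × NN M × NN M × NN M → NN M) (hp : DF M p)
    (hq : DF M q) (e : ∀ a b c d, op (io a - io b) (io c - io d) =
      io (p (a, b, c, d)) - io (q (a, b, c, d))) (hf : DF M f) (hg : DF M g) :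
    DF M fun x => op (f x) (g x) := by
  refine graphZ (of_iff (p := fun x : α × ZZ M => ∃ a b c d, f x.1 = io a - io b ∧
    g x.1 = io c - io d ∧ x.2 = io (p (a, b, c, d)) - io (q (a, b, c, d)))
    (exN (exN (exN (exN (and (eqSub ?_ ?_ ?_) (and (eqSub ?_ ?_ ?_) (eqSub ?_ ?_ ?_)))))))
    fun x => ⟨fun h => ?_, ?_⟩)
  any_goals fun_prop
  · obtain ⟨a, b, e₁⟩ := exists_sub (f x.1); obtain ⟨c, d, e₂⟩ := exists_sub (g x.1)
    exact ⟨a, b, c, d, e₁, e₂, by rw [← h, e₁, e₂, e]⟩
  · rintro ⟨a, b, c, d, h, k, l⟩; rw [h, k, l, e]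

@[fun_prop] theorem addZ (hf : DF M f) (hg : DF M g) : DF M fun x => f x + g x :=
  bin (· + ·) (fun x => x.1 + x.2.2.1) (fun x => x.2.1 + x.2.2.2) (by fun_prop) (by fun_prop)
    (fun a b c d => by simp only [map_add]; ring) hf hg

@[fun_prop] theorem subZ (hf : DF M f) (hg : DF M g) : DF M fun x => f x - g x :=
  bin (· - ·) (fun x => x.1 + x.2.2.2) (fun x => x.2.1 + x.2.2.1) (by fun_prop) (by fun_prop)
    (fun a b c d => by simp only [map_add]; ring) hf hg

@[fun_prop] theorem mulZ (hf : DF M f) (hg : DF M g) : DF M fun x => f x * g x :=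
  bin (· * ·) (fun x => x.1 * x.2.2.1 + x.2.1 * x.2.2.2) (fun x => x.1 * x.2.2.2 + x.2.1 * x.2.2.1)
    (by fun_prop) (by fun_prop) (fun a b c d => by simp only [map_add, map_mul]; ring) hf hg

@[fun_prop] theorem negZ (hf : DF M f) : DF M fun x => -f x := by
  simpa using subZ (const 0) hf

@[fun_prop] theorem powZ (hf : DF M f) (n : ℕ) : DF M fun x => f x ^ n := by
  induction n with
  | zero => simpa using const 1
  | succ n ih => simpa [pow_succ] using mulZ ih hf

@[fun_prop] theorem leZ (hf : DF M f) (hg : DF M g) : DF M fun x => f x ≤ g x :=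
  exN (P := fun x n => g x = f x + io n)
    (eqZ (by fun_prop) (addZ (by fun_prop) (ioN (by fun_prop))))

@[fun_prop] theorem ltZ (hf : DF M f) (hg : DF M g) : DF M fun x => f x < g x :=
  (leZ hg hf).not.of_iff fun _ => not_le.symm

@[fun_prop] theorem neZ (hf : DF M f) (hg : DF M g) : DF M fun x => f x ≠ g x := (eqZ hf hg).not

@[fun_prop] theorem dvdZ (hf : DF M f) (hg : DF M g) : DF M fun x => f x ∣ g x :=
  exZ (P := fun x c => g x = f x * c) (by fun_prop)

@[fun_prop] theorem coprime (hf : DF M f) (hg : DF M g) : DF M fun x => IsCoprime (f x) (g x) :=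
  exZ (P := fun x a => ∃ b, a * f x + b * g x = 1) (by fun_prop)

@[fun_prop] theorem ite {p : α → Prop} [DecidablePred p] (hp : DF M p) (hf : DF M f) (hg : DF M g) :
    DF M fun x => if p x then f x else g x :=
  graphZ (of_iff (p := fun x : α × ZZ M => (p x.1 ∧ f x.1 = x.2) ∨ (¬ p x.1 ∧ g x.1 = x.2))
    (by fun_prop) fun x => by split_ifs with h <;> simp [h])

theorem exFin (n : ℕ) {β : Type} [QB M β] {P : β → (Fin n → ZZ M) → Prop}
    (h : DF M fun x : β × (Fin n → ZZ M) => P x.1 x.2) : DF M fun x => ∃ y, P x y := by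
  induction n generalizing β with
  | zero =>
    exact (h.comp (g := fun x : β => (x, Fin.elim0)) (by fun_prop)).of_iff fun x =>
      ⟨fun ⟨y, hy⟩ => by rwa [Subsingleton.elim Fin.elim0 y], fun hy => ⟨_, hy⟩⟩
  | succ n ih =>
    refine of_iff (p := fun x => ∃ a, ∃ y : Fin n → ZZ M, P x (Fin.cons a y))
      (exZ (ih ?_)) fun x => ⟨fun ⟨y, hy⟩ => ⟨y 0, Fin.tail y, by simpa using hy⟩,
        fun ⟨a, y, hy⟩ => ⟨_, hy⟩⟩
    refine h.comp (g := fun x : (β × ZZ M) × (Fin n → ZZ M) => (x.1.1, Fin.cons x.1.2 x.2))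
      (prodMk (by fun_prop) (pi fun i => ?_))
    refine Fin.cases ?_ (fun i => ?_) i
    · simp only [Fin.cons_zero]; fun_prop
    · simp only [Fin.cons_succ]; fun_prop

theorem allIdx {ι : Type} [Fintype ι] {P : α → ι → Prop} (h : ∀ i, DF M fun x => P x i) :
    DF M fun x => ∀ i, P x i := by
  classical
  have : ∀ s : Finset ι, DF M fun x => ∀ i ∈ s, P x i := by
    intro s
    induction s using Finset.induction_on with
    | empty => simpa using const True
    | insert a s _ ih => simpa using (h a).and ih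
  simpa using this Finset.univ

end DF

/-- Induction over the nonnegative elements. -/
theorem ind (P : ZZ M → Prop) (hP : DF M P) (h0 : P 0) (hs : ∀ a, 0 ≤ a → P a → P (a + 1)) (a)
    (ha : 0 ≤ a) : P a := by
  obtain ⟨n, rfl⟩ := nonneg_iff.1 ha
  exact NN.ind (fun n => P (io n)) (hP.comp (DF.ioN DF.id')) (by simpa using h0)
    (fun n h => by simpa using hs _ (io_nonneg n) h) n

/-- Strong induction. -/
theorem sind (P : ZZ M → Prop) (hP : DF M P) (hs : ∀ a, 0 ≤ a → (∀ b, 0 ≤ b → b < a → P b) → P a)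
    (a) (ha : 0 ≤ a) : P a := by
  have := ind (fun a => ∀ b, 0 ≤ b → b < a → P b) (by fun_prop)
    (fun b h k => absurd k (not_lt.2 h)) (fun a ha ih b h k => by
      rcases (show b ≤ a by linarith [succ_le k]).lt_or_eq with l | rfl
      · exact ih b h l
      · exact hs b h ih) a ha
  exact hs a ha this

theorem least (P : ZZ M → Prop) (hP : DF M P) {a} (ha : 0 ≤ a) (h : P a) :
    ∃ m, 0 ≤ m ∧ P m ∧ ∀ b, 0 ≤ b → b < m → ¬ P b := by
  by_contra hc
  push Not at hc
  exact sind (fun a => ¬ P a) (by fun_prop) (fun a ha ih h => by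
    obtain ⟨b, h1, h2, h3⟩ := hc a ha h; exact ih b h1 h2 h3) a ha h

end Pool.Agent.HAEP
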