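import Pool.Agent.Lib.MP_ebcb3a_lc.Basic

/-! Structural and admissible rules of the calculus; semantics of substitution. -/

namespace Pool.Agent.HAEP

universe u v w

variable {F F' : ℕ → Type} {C : Type u} {C' : Type w} {T : Set (Fm F C)} {Γ Δ : List (Fm F C)}
  {A B D : Fm F C}

namespace Pf

theorem weaken (h : Pf T Γ A) : ∀ {Δ}, Γ ⊆ Δ → Pf T Δ A := by
  induction h with
  | hyp h => exact fun s => hyp (s h)
  | ax σ h => exact fun _ => ax σ h
  | botE _ ih => exact fun s => botE (ih s)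
  | andI _ _ a b => exact fun s => andI (a s) (b s)
  | andE1 _ a => exact fun s => andE1 (a s)
  | andE2 _ a => exact fun s => andE2 (a s)
  | orI1 _ a => exact fun s => orI1 (a s)
  | orI2 _ a => exact fun s => orI2 (a s)
  | orE _ _ _ a b c =>
    exact fun s => orE (a s) (b (List.cons_subset_cons _ s)) (c (List.cons_subset_cons _ s))
  | impI _ a => exact fun s => impI (a (List.cons_subset_cons _ s))
  | impE _ _ a b => exact fun s => impE (a s) (b s)
  | allI _ a => exact fun s => allI (a (List.map_subset _ s))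
  | allE t _ a => exact fun s => allE t (a s)
  | exI t _ a => exact fun s => exI t (a s)
  | exE _ _ a b => exact fun s => exE (a s) (b (List.cons_subset_cons _ (List.map_subset _ s)))
  | refl t => exact fun _ => refl t
  | eqE A _ _ a b => exact fun s => eqE A (a s) (b s)

theorem map_shift_subst (Γ : List (Fm F C)) (σ : ℕ → Tm F C) :
    (Γ.map Fm.shift).map (Fm.subst (up σ)) = (Γ.map (Fm.subst σ)).map Fm.shift := by
  simp [List.map_map, Function.comp_def]

theorem subst (h : Pf T Γ A) : ∀ σ : ℕ → Tm F C, Pf T (Γ.map (Fm.subst σ)) (A.subst σ) := by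
  induction h with
  | hyp h => exact fun σ => hyp (List.mem_map_of_mem h)
  | ax τ h => intro σ; rw [Fm.subst_subst]; exact ax _ h
  | botE _ ih => exact fun s => botE (ih s)
  | andI _ _ a b => exact fun s => andI (a s) (b s)
  | andE1 _ a => exact fun s => andE1 (a s)
  | andE2 _ a => exact fun s => andE2 (a s)
  | orI1 _ a => exact fun s => orI1 (a s)
  | orI2 _ a => exact fun s => orI2 (a s)
  | orE _ _ _ a b c => exact fun s => orE (a s) (b s) (c s)
  | impI _ a => exact fun s => impI (a s)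
  | impE _ _ a b => exact fun s => impE (a s) (b s)
  | allI _ a => intro s; refine allI ?_; have := a (up s); rwa [map_shift_subst] at this
  | allE t _ a => intro s; have := allE (A := Fm.subst (up s) _) (t.subst s) (a s); simpa using this
  | exI t _ a => intro s; refine exI (A := Fm.subst (up s) _) (t.subst s) ?_; simpa using a s
  | exE _ _ a b =>
    intro s; refine exE (a s) ?_
    have := b (up s)
    rw [List.map_cons, map_shift_subst, Fm.shift_subst_up] at this; exact this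
  | refl t => exact fun _ => refl _
  | @eqE _ x y A _ _ a b =>
    intro s
    have := eqE (A.subst (up s)) (a s) (by simpa using b s)
    simpa using this

theorem shift (h : Pf T Γ A) : Pf T (Γ.map Fm.shift) A.shift := h.subst _

/-- Translation of derivations, with cut. -/
theorem tr {T' : Set (Fm F' C')} (h : ∀ n, F n → F' n) (G : (C → Tm F' C') → Prop)
    (hG : ∀ g, G g → G (fun c => (g c).shift))
    (hT : ∀ B ∈ T, ∀ g σ, G g → Pf T' [] (B.tr h g σ)) (H : Pf T Γ A) :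
    ∀ g σ Δ, G g → (∀ B ∈ Γ, Pf T' Δ (B.tr h g σ)) → Pf T' Δ (A.tr h g σ) := by
  have hsh : ∀ {Γ : List (Fm F C)} {g σ} {Δ : List (Fm F' C')}, (∀ B ∈ Γ, Pf T' Δ (B.tr h g σ)) →
      ∀ B ∈ Γ.map Fm.shift, Pf T' (Δ.map Fm.shift) (B.tr h (fun c => (g c).shift) (up σ)) := by
    intro Γ g σ Δ H B hB
    obtain ⟨B', hB', rfl⟩ := List.mem_map.1 hB
    rw [Fm.shift_tr_up]; exact (H B' hB').shift
  have hcons : ∀ {Γ : List (Fm F C)} {A g σ} {Δ : List (Fm F' C')},
      (∀ B ∈ Γ, Pf T' Δ (B.tr h g σ)) →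
      ∀ B ∈ A :: Γ, Pf T' (A.tr h g σ :: Δ) (B.tr h g σ) := by
    intro Γ A g σ Δ H B hB
    rcases List.mem_cons.1 hB with rfl | hB
    · exact hyp List.mem_cons_self
    · exact (H B hB).weaken (List.subset_cons_self _ _)
  induction H with
  | hyp hA => exact fun g σ Δ _ H => H _ hA
  | ax τ hA =>
    intro g σ Δ hg _; rw [Fm.subst_tr]; exact (hT _ hA g _ hg).weaken (List.nil_subset _)
  | botE _ ih => exact fun g σ Δ hg H => botE (ih g σ Δ hg H)
  | andI _ _ a b => exact fun g σ Δ hg H => andI (a g σ Δ hg H) (b g σ Δ hg H)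
  | andE1 _ a => exact fun g σ Δ hg H => andE1 (a g σ Δ hg H)
  | andE2 _ a => exact fun g σ Δ hg H => andE2 (a g σ Δ hg H)
  | orI1 _ a => exact fun g σ Δ hg H => orI1 (a g σ Δ hg H)
  | orI2 _ a => exact fun g σ Δ hg H => orI2 (a g σ Δ hg H)
  | orE _ _ _ a b c =>
    exact fun g σ Δ hg H => orE (a g σ Δ hg H) (b g σ _ hg (hcons H)) (c g σ _ hg (hcons H))
  | impI _ a => exact fun g σ Δ hg H => impI (a g σ _ hg (hcons H))
  | impE _ _ a b => exact fun g σ Δ hg H => impE (a g σ Δ hg H) (b g σ Δ hg H)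
  | allI _ a => exact fun g σ Δ hg H => allI (a _ _ _ (hG g hg) (hsh H))
  | allE t _ a => intro g σ Δ hg H; rw [Fm.inst_tr]; exact allE _ (a g σ Δ hg H)
  | exI t _ a =>
    intro g σ Δ hg H; refine exI (t.tr h g σ) ?_; rw [← Fm.inst_tr]; exact a g σ Δ hg H
  | exE _ _ a b =>
    intro g σ Δ hg H; refine exE (a g σ Δ hg H) ?_
    rw [← Fm.shift_tr_up]; exact b _ _ _ (hG g hg) (hcons (hsh H))
  | refl t => exact fun _ _ _ _ _ => refl _
  | eqE A _ _ a b =>
    intro g σ Δ hg H; rw [Fm.inst_tr]; refine eqE _ (a g σ Δ hg H) ?_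
    rw [← Fm.inst_tr]; exact b g σ Δ hg H

/-- Substitution with cut. -/
theorem cut (H : Pf T Γ A) (σ : ℕ → Tm F C) (hΓ : ∀ B ∈ Γ, Pf T Δ (B.subst σ)) :
    Pf T Δ (A.subst σ) := by
  rw [← Fm.tr_id]
  refine H.tr (fun _ f => f) (fun g => g = Tm.cst) ?_ ?_ _ σ Δ rfl ?_
  · rintro g rfl; rfl
  · rintro B hB g σ rfl; rw [Fm.tr_id]; exact ax σ hB
  · intro B hB; rw [Fm.tr_id]; exact hΓ B hB

theorem monoT {T' : Set (Fm F C)} (hT : T ⊆ T') (H : Pf T Γ A) : Pf T' Γ A := by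
  have := H.tr (T' := T') (fun _ f => f) (fun g => g = Tm.cst) (by rintro g rfl; rfl)
    (by rintro B hB g σ rfl; rw [Fm.tr_id]; exact ax σ (hT hB)) _ Tm.var Γ rfl
    (by intro B hB; rw [Fm.tr_id, Fm.subst_id]; exact hyp hB)
  rwa [Fm.tr_id, Fm.subst_id] at this

theorem exists_below_list (Γ : List (Fm F C)) : ∃ n, ∀ B ∈ Γ, B.Below n := by
  induction Γ with
  | nil => exact ⟨0, by simp⟩
  | cons A Γ ih =>
    obtain ⟨a, ha⟩ := A.exists_below; obtain ⟨b, hb⟩ := ih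
    refine ⟨max a b, fun B hB => ?_⟩
    rcases List.mem_cons.1 hB with rfl | hB
    · exact ha.mono (le_max_left _ _)
    · exact (hb B hB).mono (le_max_right _ _)

theorem fresh (Γ : List (Fm F C)) (A : Fm F C) : ∃ t τ, (A.inst t).subst τ = A ∧
    ∀ B ∈ Γ, B.subst τ = B.shift := by
  obtain ⟨n, hn⟩ := exists_below_list (.all A :: Γ)
  refine ⟨.var n, fun i => if i = n then .var 0 else .var (i + 1), ?_, fun B hB => ?_⟩
  · have hA : A.Below (n + 1) := hn _ List.mem_cons_self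
    rw [Fm.inst_subst, hA.congr (τ := Tm.var), Fm.subst_id]
    intro i hi; cases i with
    | zero => simp
    | succ i => simp [show i ≠ n by omega]
  · exact (hn B (List.mem_cons_of_mem _ hB)).congr fun i hi => by simp [ne_of_lt hi]

theorem allI' (h : ∀ t, Pf T Γ (A.inst t)) : Pf T Γ (.all A) := by
  obtain ⟨t, τ, hA, hΓ⟩ := fresh Γ A
  have := (h t).subst τ
  rw [hA, List.map_congr_left hΓ] at this
  exact allI this

theorem exE' (h : Pf T Γ (.ex A)) (k : ∀ t, Pf T (A.inst t :: Γ) B) : Pf T Γ B := by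
  obtain ⟨t, τ, hA, hΓ⟩ := fresh (B :: Γ) A
  have := (k t).subst τ
  rw [List.map_cons, hA, List.map_congr_left fun B hB => hΓ B (List.mem_cons_of_mem _ hB),
    hΓ B List.mem_cons_self] at this
  exact exE h this

theorem hyp0 : Pf T (A :: Γ) A := hyp List.mem_cons_self
theorem wk (h : Pf T Γ A) : Pf T (B :: Γ) A := h.weaken (List.subset_cons_self _ _)

theorem impK (h : ∀ Δ, Γ ⊆ Δ → Pf T Δ A → Pf T Δ B) : Pf T Γ (.imp A B) :=
  impI (h _ (List.subset_cons_self _ _) hyp0)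

theorem exK (h : Pf T Γ (.ex A)) (k : ∀ Δ t, Γ ⊆ Δ → Pf T Δ (A.inst t) → Pf T Δ B) : Pf T Γ B :=
  exE' h fun t => k _ t (List.subset_cons_self _ _) hyp0

theorem orK (h : Pf T Γ (.or A B)) (k₁ : ∀ Δ, Γ ⊆ Δ → Pf T Δ A → Pf T Δ D)
    (k₂ : ∀ Δ, Γ ⊆ Δ → Pf T Δ B → Pf T Δ D) : Pf T Γ D :=
  orE h (k₁ _ (List.subset_cons_self _ _) hyp0) (k₂ _ (List.subset_cons_self _ _) hyp0)

theorem symm {s t : Tm F C} (h : Pf T Γ (.eq s t)) : Pf T Γ (.eq t s) := by
  have := eqE (.eq (.var 0) s.shift) h (by simpa [Fm.inst] using refl s)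
  simpa [Fm.inst] using this

theorem trans {s t r : Tm F C} (h : Pf T Γ (.eq s t)) (k : Pf T Γ (.eq t r)) :
    Pf T Γ (.eq s r) := by
  have := eqE (.eq s.shift (.var 0)) k (by simpa [Fm.inst] using h)
  simpa [Fm.inst] using this

theorem congr {σ τ : ℕ → Tm F C} (h : ∀ i, Pf T Γ (.eq (σ i) (τ i))) (hA : Pf T Γ (A.subst σ)) :
    Pf T Γ (A.subst τ) := by
  obtain ⟨n, hn⟩ := A.exists_below
  have key : ∀ k, Pf T Γ (A.subst fun i => if i < k then τ i else σ i) := by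
    intro k
    induction k with
    | zero => simpa using hA
    | succ k ih =>
      have := eqE (A.subst fun i => if i = k then .var 0 else (if i < k then τ i else σ i).shift)
        (h k) (by
          rw [Fm.inst, Fm.subst_subst]
          refine Eq.mpr (congrArg _ (congrArg (fun x => Fm.subst x A) ?_)) ih
          funext i; by_cases hi : i = k <;> simp [hi])
      rw [Fm.inst, Fm.subst_subst] at this
      refine Eq.mp (congrArg _ (congrArg (fun x => Fm.subst x A) ?_)) this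
      funext i; by_cases hi : i = k
      · simp [hi]
      · have : (i < k + 1) = (i < k) := propext (by omega)
        simp [hi, this]
  rw [← hn.congr (σ := fun i => if i < n then τ i else σ i) fun i hi => by simp [hi]]
  exact key n

theorem congr_tm (r : Tm F C) {σ τ : ℕ → Tm F C} (h : ∀ i, Pf T Γ (.eq (σ i) (τ i))) :
    Pf T Γ (.eq (r.subst σ) (r.subst τ)) := by
  have := congr (T := T) (Γ := Γ) (A := .eq (r.subst fun i => .var (2 * i))
      (r.subst fun i => .var (2 * i + 1))) (σ := fun i => σ (i / 2))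
      (τ := fun i => if i % 2 = 0 then σ (i / 2) else τ (i / 2)) (fun i => by
        split_ifs
        · exact refl _
        · exact h _) (by
      have e : ∀ i, (2 * i + 1) / 2 = i := fun i => by omega
      simpa [Tm.subst_subst, e] using refl _)
  have e : ∀ i, (2 * i + 1) / 2 = i := fun i => by omega
  have e' : ∀ i, (2 * i + 1) % 2 = 1 := fun i => by omega
  simpa [Tm.subst_subst, e, e'] using this

/-- Leibniz rule for a term in a substitution. -/
theorem congr0 {s t : Tm F C} {σ : ℕ → Tm F C} (h : Pf T Γ (.eq s t))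
    (hA : Pf T Γ (A.subst (scons s σ))) : Pf T Γ (A.subst (scons t σ)) :=
  congr (fun i => by cases i with
    | zero => exact h
    | succ i => exact refl _) hA

/-- A derivation uses finitely many of the closed axioms `E`. -/
theorem finite {E : Set (Fm F C)} (hE : ∀ B ∈ E, B.Below 0) (H : Pf (T ∪ E) Γ A) :
    ∃ L : List (Fm F C), (∀ B ∈ L, B ∈ E) ∧ ∀ Δ, L ⊆ Δ → Γ ⊆ Δ → Pf T Δ A := by
  have two : ∀ {L₁ L₂ : List (Fm F C)}, (∀ B ∈ L₁, B ∈ E) → (∀ B ∈ L₂, B ∈ E) →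
      ∀ B ∈ L₁ ++ L₂, B ∈ E := fun h₁ h₂ B hB => (List.mem_append.1 hB).elim (h₁ B) (h₂ B)
  have l : ∀ {L₁ L₂ Δ : List (Fm F C)}, L₁ ++ L₂ ⊆ Δ → L₁ ⊆ Δ :=
    fun h => (List.append_subset.1 h).1
  have r : ∀ {L₁ L₂ Δ : List (Fm F C)}, L₁ ++ L₂ ⊆ Δ → L₂ ⊆ Δ :=
    fun h => (List.append_subset.1 h).2
  have sh : ∀ {L Δ : List (Fm F C)}, (∀ B ∈ L, B ∈ E) → L ⊆ Δ → L ⊆ Δ.map Fm.shift := by
    intro L Δ hL h B hB
    exact List.mem_map.2 ⟨B, h hB, (hE B (hL B hB)).closed _⟩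
  have c : ∀ {L Δ : List (Fm F C)} {X}, L ⊆ Δ → L ⊆ X :: Δ := fun h => List.subset_cons_of_subset _ h
  induction H with
  | hyp h => exact ⟨[], by simp, fun Δ _ s => hyp (s h)⟩
  | @ax _ A σ h =>
    rcases h with h | h
    · exact ⟨[], by simp, fun Δ _ _ => ax σ h⟩
    · exact ⟨[A], by simpa using h, fun Δ s _ => by
        rw [(hE A h).closed]; exact hyp (s List.mem_cons_self)⟩
  | botE _ a => obtain ⟨L, h, a⟩ := a; exact ⟨L, h, fun Δ s t => botE (a Δ s t)⟩
  | andI _ _ a b =>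
    obtain ⟨L, h, a⟩ := a; obtain ⟨L', h', b⟩ := b
    exact ⟨_, two h h', fun Δ s t => andI (a Δ (l s) t) (b Δ (r s) t)⟩
  | andE1 _ a => obtain ⟨L, h, a⟩ := a; exact ⟨L, h, fun Δ s t => andE1 (a Δ s t)⟩
  | andE2 _ a => obtain ⟨L, h, a⟩ := a; exact ⟨L, h, fun Δ s t => andE2 (a Δ s t)⟩
  | orI1 _ a => obtain ⟨L, h, a⟩ := a; exact ⟨L, h, fun Δ s t => orI1 (a Δ s t)⟩
  | orI2 _ a => obtain ⟨L, h, a⟩ := a; exact ⟨L, h, fun Δ s t => orI2 (a Δ s t)⟩
  | orE _ _ _ a b d =>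
    obtain ⟨L, h, a⟩ := a; obtain ⟨L', h', b⟩ := b; obtain ⟨L'', h'', d⟩ := d
    exact ⟨_, two h (two h' h''), fun Δ s t => orE (a Δ (l s) t)
      (b _ (c (l (r s))) (List.cons_subset_cons _ t)) (d _ (c (r (r s))) (List.cons_subset_cons _ t))⟩
  | impI _ a =>
    obtain ⟨L, h, a⟩ := a
    exact ⟨L, h, fun Δ s t => impI (a _ (c s) (List.cons_subset_cons _ t))⟩
  | impE _ _ a b =>
    obtain ⟨L, h, a⟩ := a; obtain ⟨L', h', b⟩ := b
    exact ⟨_, two h h', fun Δ s t => impE (a Δ (l s) t) (b Δ (r s) t)⟩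
  | allI _ a =>
    obtain ⟨L, h, a⟩ := a
    exact ⟨L, h, fun Δ s t => allI (a _ (sh h s) (List.map_subset _ t))⟩
  | allE x _ a => obtain ⟨L, h, a⟩ := a; exact ⟨L, h, fun Δ s t => allE x (a Δ s t)⟩
  | exI x _ a => obtain ⟨L, h, a⟩ := a; exact ⟨L, h, fun Δ s t => exI x (a Δ s t)⟩
  | exE _ _ a b =>
    obtain ⟨L, h, a⟩ := a; obtain ⟨L', h', b⟩ := b
    exact ⟨_, two h h', fun Δ s t => exE (a Δ (l s) t)
      (b _ (c (sh h' (r s))) (List.cons_subset_cons _ (List.map_subset _ t)))⟩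
  | refl x => exact ⟨[], by simp, fun Δ _ _ => refl x⟩
  | eqE A _ _ a b =>
    obtain ⟨L, h, a⟩ := a; obtain ⟨L', h', b⟩ := b
    exact ⟨_, two h h', fun Δ s t => eqE A (a Δ (l s) t) (b Δ (r s) t)⟩

end Pf

section Sem

variable (M : Str.{v} F)

theorem Tm.ev_tr (κ : C' → M.N) (ρ : ℕ → M.N) (g : C → Tm F C') (σ : ℕ → Tm F C') (t : Tm F C) :
    (t.tr (fun _ f => f) g σ).ev M κ ρ =
      t.ev M (fun c => (g c).ev M κ ρ) (fun i => (σ i).ev M κ ρ) := by
  induction t <;> simp_all [Tm.tr, Tm.ev]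

theorem Tm.ev_subst (κ : C → M.N) (ρ : ℕ → M.N) (σ : ℕ → Tm F C) (t : Tm F C) :
    (t.subst σ).ev M κ ρ = t.ev M κ (fun i => (σ i).ev M κ ρ) := by
  rw [← Tm.tr_id, Tm.ev_tr]; rfl

@[simp] theorem Tm.ev_shift (κ : C → M.N) (ρ : ℕ → M.N) (a) (t : Tm F C) :
    t.shift.ev M κ (scons a ρ) = t.ev M κ ρ := by
  rw [Tm.shift, Tm.ev_subst]; rfl

theorem ev_up (κ : C → M.N) (ρ : ℕ → M.N) (a) (σ : ℕ → Tm F C) :
    (fun i => (up σ i).ev M κ (scons a ρ)) = scons a (fun i => (σ i).ev M κ ρ) := by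
  funext i; cases i with
  | zero => rfl
  | succ i => simp

theorem Fm.sat_tr (κ : C' → M.N) (A : Fm F C) (ρ : ℕ → M.N) (g : C → Tm F C') (σ : ℕ → Tm F C') :
    (A.tr (fun _ f => f) g σ).Sat M κ ρ ↔
      A.Sat M (fun c => (g c).ev M κ ρ) (fun i => (σ i).ev M κ ρ) := by
  induction A generalizing ρ g σ <;> simp_all [Fm.tr, Fm.Sat, Tm.ev_tr, ev_up]

theorem Fm.sat_subst (κ : C → M.N) (A : Fm F C) (ρ : ℕ → M.N) (σ : ℕ → Tm F C) :
    (A.subst σ).Sat M κ ρ ↔ A.Sat M κ (fun i => (σ i).ev M κ ρ) := by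
  rw [← Fm.tr_id, Fm.sat_tr]; rfl

end Sem

end Pool.Agent.HAEP
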