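import Pool.Agent.Lib.MP_ebcb3a_lc.Api

/-! Total correctness assertions for machine programs inside HA. -/

namespace Pool.Agent.HAEP

universe u

variable {C : Type u} {L : Lang}

/-- A machine together with a theory containing HA. -/
structure Ctx (L : Lang) (C : Type u) where
  K : Machine
  T : Set (Fm L.F C)
  hT : HA L C ⊆ T

namespace Ctx

variable (X : Ctx L C)

/-- `p` applied to `e` has a value, and every value `v` satisfies `P v`. -/
def Run (Δ : List (Fm L.F C)) (p e : Tm L.F C) (P : Tm L.F C → Fm L.F C) : Prop :=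
  Pf X.T Δ (.ex (X.K.Jf p.shift e.shift (.var 0))) ∧
    ∀ Δ' v, Δ ⊆ Δ' → Pf X.T Δ' (X.K.Jf p e v) → Pf X.T Δ' (P v)

/-- `p` applied to `e` has the value `t` and no other. -/
def Ev (Δ : List (Fm L.F C)) (p e t : Tm L.F C) : Prop := X.Run Δ p e (fun v => .eq v t)

/-- The formula expressing `Run`. -/
def Tot (p e : Tm L.F C) (A : Fm L.F C) : Fm L.F C :=
  .and (.ex (X.K.Jf p.shift e.shift (.var 0))) (.all (.imp (X.K.Jf p.shift e.shift (.var 0)) A))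

@[simp] theorem tot_subst (p e : Tm L.F C) (A : Fm L.F C) (σ) :
    (X.Tot p e A).subst σ = X.Tot (p.subst σ) (e.subst σ) (A.subst (up σ)) := by
  simp [Tot]

variable {X} {Δ : List (Fm L.F C)} {p q e t : Tm L.F C} {P Q : Tm L.F C → Fm L.F C}

theorem Jf_inst (p e t : Tm L.F C) : (X.K.Jf p.shift e.shift (.var 0)).inst t = X.K.Jf p e t := by
  simp [Fm.inst]

theorem tot_iff {A} : Pf X.T Δ (X.Tot p e A) ↔ X.Run Δ p e (fun v => A.inst v) := by
  constructor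
  · intro h
    refine ⟨h.andE1, fun Δ' v s k => ?_⟩
    exact Pf.impE (A := (X.K.Jf p.shift e.shift (.var 0)).inst v)
      ((h.andE2.weaken s).allE v) (by rwa [Jf_inst])
  · intro h
    refine .andI h.1 (.allI' fun v => .impK fun Δ' s k => h.2 Δ' v s ?_)
    rwa [← Jf_inst]

theorem Run.weaken (h : X.Run Δ p e P) {Δ'} (s : Δ ⊆ Δ') : X.Run Δ' p e P :=
  ⟨h.1.weaken s, fun Δ'' v s' k => h.2 Δ'' v (List.Subset.trans s s') k⟩

theorem Run.elim (h : X.Run Δ p e P) {D}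
    (k : ∀ Δ' v, Δ ⊆ Δ' → Pf X.T Δ' (X.K.Jf p e v) → Pf X.T Δ' (P v) → Pf X.T Δ' D) :
    Pf X.T Δ D :=
  h.1.exK fun Δ' v s j => by rw [Jf_inst] at j; exact k Δ' v s j (h.2 Δ' v s j)

theorem Run.conseq (h : X.Run Δ p e P) (k : ∀ Δ' v, Δ ⊆ Δ' → Pf X.T Δ' (P v) → Pf X.T Δ' (Q v)) :
    X.Run Δ p e Q := ⟨h.1, fun Δ' v s j => k Δ' v s (h.2 Δ' v s j)⟩

theorem exJ (h : Pf X.T Δ (X.K.Jf p e t)) : Pf X.T Δ (.ex (X.K.Jf p.shift e.shift (.var 0))) :=
  .exI t (by rwa [Jf_inst])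

theorem Run.of_iff {p' e'} (i : ∀ Δ' v, Δ ⊆ Δ' → (Pf X.T Δ' (X.K.Jf p e v) ↔ Pf X.T Δ' (X.K.Jf p' e' v)))
    (h : X.Run Δ p' e' P) : X.Run Δ p e P :=
  ⟨h.elim fun Δ' v s j _ => exJ ((i Δ' v s).2 j), fun Δ' v s j => h.2 Δ' v s ((i Δ' v s).1 j)⟩

theorem J_congr {e' v} (h : Pf X.T Δ (.eq e e')) (j : Pf X.T Δ (X.K.Jf p e v)) :
    Pf X.T Δ (X.K.Jf p e' v) := by
  have := Pf.eqE (X.K.Jf p.shift (.var 0) v.shift) h (by simpa [Fm.inst] using j)
  simpa [Fm.inst] using this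

theorem Run.congr {e'} (h : Pf X.T Δ (.eq e e')) (k : X.Run Δ p e' P) : X.Run Δ p e P :=
  Run.of_iff (fun _ _ s => ⟨J_congr (h.weaken s), J_congr (h.weaken s).symm⟩) k

theorem ev_of_iff (i : ∀ Δ' v, Pf X.T Δ' (X.K.Jf p e v) ↔ Pf X.T Δ' (.eq v t)) : X.Ev Δ p e t :=
  ⟨exJ ((i _ t).2 (.refl t)), fun Δ' v _ j => (i Δ' v).1 j⟩

/-- `Run` may be proved after eliminating an existential or a disjunction. -/
theorem Run.loc (h : ∀ D, (∀ Δ', Δ ⊆ Δ' → X.Run Δ' p e P → Pf X.T Δ' D) → Pf X.T Δ D) :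
    X.Run Δ p e P := by
  refine ⟨h _ fun _ _ k => k.1, fun Δ' v s j => ?_⟩
  exact ((h (.imp (X.K.Jf p e v) (P v)) fun _ _ k =>
    .impK fun Δ'' s' j' => k.2 Δ'' v s' j').weaken s).impE j

theorem Run.seq {r e' : Tm L.F C} {f : Tm L.F C → Tm L.F C}
    (hi : ∀ Δ' u v, Pf X.T Δ' (X.K.Jf q e u) → Pf X.T Δ' (X.K.Jf p (f u) v) →
      Pf X.T Δ' (X.K.Jf r e' v))
    (he : ∀ Δ' v D, Pf X.T Δ' (X.K.Jf r e' v) → (∀ Δ'' u, Δ' ⊆ Δ'' → Pf X.T Δ'' (X.K.Jf q e u) →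
      Pf X.T Δ'' (X.K.Jf p (f u) v) → Pf X.T Δ'' D) → Pf X.T Δ' D)
    (h : X.Run Δ q e P) (k : ∀ Δ' u, Δ ⊆ Δ' → Pf X.T Δ' (P u) → X.Run Δ' p (f u) Q) :
    X.Run Δ r e' Q := by
  refine ⟨h.elim fun Δ' u s j hu => (k Δ' u s hu).elim fun Δ'' v s' j' _ =>
    exJ (hi _ u v (j.weaken s') j'), fun Δ' v s j => he _ v _ j fun Δ'' u s' j₁ j₂ => ?_⟩
  have s'' := List.Subset.trans s s'
  exact (k Δ'' u s'' (h.2 _ u s'' j₁)).2 _ v (List.Subset.refl _) j₂

def kP (t : Tm L.F C) : Tm L.F C := ins 0 t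
def idP : Tm L.F C := ins 1 .zero
def fstP : Tm L.F C := ins 2 .zero
def sndP : Tm L.F C := ins 3 .zero
def succP : Tm L.F C := ins 4 .zero
def addP : Tm L.F C := ins 5 .zero
def mulP : Tm L.F C := ins 6 .zero
def pairP (p q : Tm L.F C) : Tm L.F C := ins 7 (pr p q)
def compP (p q : Tm L.F C) : Tm L.F C := ins 8 (pr p q)
def appP : Tm L.F C := ins 9 .zero
def caseP (p q : Tm L.F C) : Tm L.F C := ins 10 (pr p q)
def recP (p q : Tm L.F C) : Tm L.F C := ins 11 (pr p q)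
def lamP (p : Tm L.F C) : Tm L.F C := pairP (kP p) idP

@[simp] theorem fstP_subst (σ) : (fstP : Tm L.F C).subst σ = fstP := by simp [fstP]
@[simp] theorem sndP_subst (σ) : (sndP : Tm L.F C).subst σ = sndP := by simp [sndP]
@[simp] theorem appP_subst (σ) : (appP : Tm L.F C).subst σ = appP := by simp [appP]

theorem ev_k : X.Ev Δ (kP t) e t := ev_of_iff fun _ _ => X.K.J_k X.hT _ _ _
theorem ev_id : X.Ev Δ idP e e := ev_of_iff fun _ _ => X.K.J_id X.hT _ _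
theorem ev_fst {a b} : X.Ev Δ fstP (pr a b) a := ev_of_iff fun _ _ => X.K.J_fst X.hT _ _ _
theorem ev_snd {a b} : X.Ev Δ sndP (pr a b) b := ev_of_iff fun _ _ => X.K.J_snd X.hT _ _ _
theorem ev_succ : X.Ev Δ succP e (.succ e) := ev_of_iff fun _ _ => X.K.J_succ X.hT _ _
theorem ev_add {a b} : X.Ev Δ addP (pr a b) (.add a b) :=
  ev_of_iff fun _ _ => X.K.J_add X.hT _ _ _
theorem ev_mul {a b} : X.Ev Δ mulP (pr a b) (.mul a b) :=
  ev_of_iff fun _ _ => X.K.J_mul X.hT _ _ _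

theorem Run.comp (h : X.Run Δ q e P) (k : ∀ Δ' u, Δ ⊆ Δ' → Pf X.T Δ' (P u) → X.Run Δ' p u Q) :
    X.Run Δ (compP p q) e Q := by
  refine Run.seq (f := fun u => u) (fun Δ' u v j j' => (X.K.J_comp X.hT _ _ _ _).2 (.exI u ?_))
    (fun Δ' v D j k => ((X.K.J_comp X.hT _ _ _ _).1 j).exK fun Δ'' u s j' => ?_) h k
  · simpa [Fm.inst] using j.andI j'
  · simp only [Fm.inst, Fm.subst_and, Machine.Jf_subst, Tm.shift_subst_scons, Tm.subst_id,
      Tm.subst_var, scons_zero] at j'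
    exact k _ u s j'.andE1 j'.andE2

theorem Ev.comp (h : X.Ev Δ q e t) (k : X.Run Δ p t Q) : X.Run Δ (compP p q) e Q :=
  Run.comp h fun _ _ s hu => Run.congr hu (k.weaken s)

theorem Run.pair {R : Tm L.F C → Fm L.F C} (h : X.Run Δ p e P) (h' : X.Run Δ q e Q)
    (k : ∀ Δ' a b v, Δ ⊆ Δ' → Pf X.T Δ' (P a) → Pf X.T Δ' (Q b) → Pf X.T Δ' (.eq v (pr a b)) →
      Pf X.T Δ' (R v)) : X.Run Δ (pairP p q) e R := by
  refine ⟨h.elim fun Δ' a s j _ => (h'.weaken s).elim fun Δ'' b s' j' _ =>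
    exJ (t := pr a b) ((X.K.J_pair X.hT _ _ _ _).2 (.exI a ?_)), fun Δ' v s j =>
      ((X.K.J_pair X.hT _ _ _ _).1 j).exK fun Δ'' a s' j' => ?_⟩
  · simp only [Fm.inst, Fm.subst_ex]
    refine .exI b ?_
    simpa [Fm.inst] using (j.weaken s').andI (j'.andI (.refl _))
  · simp only [Fm.inst, Fm.subst_ex] at j'
    refine j'.exK fun Δ''' b s'' j'' => ?_
    have s₃ := List.Subset.trans s (List.Subset.trans s' s'')
    have j₃ : Pf X.T Δ''' (.and (X.K.Jf p e a) (.and (X.K.Jf q e b) (.eq v (pr a b)))) := by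
      simpa [Fm.inst] using j''
    exact k _ a b v s₃ (h.2 _ a s₃ j₃.andE1) (h'.2 _ b s₃ j₃.andE2.andE1) j₃.andE2.andE2

theorem pr_congr {a b c d : Tm L.F C} (h : Pf X.T Δ (.eq a b)) (k : Pf X.T Δ (.eq c d)) :
    Pf X.T Δ (.eq (pr a c) (pr b d)) :=
  Pf.congr_tm (pr (.var 0) (.var 1)) (σ := scons a fun _ => c) (τ := scons b fun _ => d) fun i => by
    cases i with
    | zero => exact h
    | succ i => exact k

theorem Ev.pair {a b} (h : X.Ev Δ p e a) (h' : X.Ev Δ q e b) : X.Ev Δ (pairP p q) e (pr a b) :=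
  Run.pair h h' fun _ _ _ _ _ x y z => z.trans (pr_congr x y)

theorem ev_lam : X.Ev Δ (lamP p) e (pr p e) := Ev.pair ev_k ev_id

theorem Run.app {x} (h : X.Run Δ p (pr e x) P) : X.Run Δ appP (pr (pr p e) x) P :=
  Run.of_iff (fun _ _ _ => X.K.J_app X.hT _ _ _ _) h

theorem Run.app' {x v} (hv : Pf X.T Δ (.eq v (pr p e))) (h : X.Run Δ p (pr e x) P) :
    X.Run Δ appP (pr v x) P := Run.congr (pr_congr hv (.refl _)) h.app

theorem Run.up {x} (h : X.Run Δ q e P) : X.Run Δ (compP q fstP) (pr e x) P := Ev.comp ev_fst h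

theorem Run.case0 {b} (h : X.Run Δ p (pr e b) P) : X.Run Δ (caseP p q) (pr e (pr .zero b)) P :=
  Run.of_iff (fun _ _ _ => X.K.J_case0 X.hT _ _ _ _ _) h

theorem Run.caseS {b} (h : X.Run Δ q (pr e b) P) :
    X.Run Δ (caseP p q) (pr e (pr (.succ .zero) b)) P :=
  Run.of_iff (fun _ _ _ => X.K.J_caseS X.hT _ _ _ _ _) h

/-- Correctness of primitive recursion, by induction inside HA. The invariant `A` has the value as
variable `0` and the recursion argument as variable `1`. -/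
theorem Run.prec (A : Fm L.F C) (h0 : X.Run Δ p e fun v => A.subst (scons v (scons .zero .var)))
    (hs : ∀ Δ' n u, Δ ⊆ Δ' → Pf X.T Δ' (A.subst (scons u (scons n .var))) →
      X.Run Δ' q (pr (pr e n) u) fun v => A.subst (scons v (scons (.succ n) .var))) (n) :
    X.Run Δ (recP p q) (pr e n) fun v => A.subst (scons v (scons n .var)) := by
  have key : ∀ {Δ} n, Pf X.T Δ ((X.Tot (recP p q).shift (pr e.shift (.var 0)) A).inst n) ↔
      X.Run Δ (recP p q) (pr e n) fun v => A.subst (scons v (scons n .var)) := by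
    intro Δ n
    simp only [Fm.inst, tot_subst, tot_iff, Tm.shift_subst_scons, Tm.subst_id, pr_subst,
      Tm.subst_var, scons_zero, Fm.subst_up_scons]
  refine (key n).1 (Pf.ind X.hT _ ((key _).2 ?_) (fun Δ' n s h => (key _).2 ?_) n)
  · exact Run.of_iff (fun _ _ _ => X.K.J_rec0 X.hT _ _ _ _) h0
  · refine Run.seq (f := fun u => pr (pr e n) u)
      (fun Δ' u v j j' => (X.K.J_recS X.hT _ _ _ _ _).2 (.exI u ?_))
      (fun Δ' v D j k => ((X.K.J_recS X.hT _ _ _ _ _).1 j).exK fun Δ'' u s j' => ?_) ((key _).1 h)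
      fun Δ'' u s' hu => hs Δ'' n u (List.Subset.trans s s') hu
    · simpa [Fm.inst, recP] using j.andI j'
    · have : Pf X.T Δ'' (.and (X.K.Jf (recP p q) (pr e n) u) (X.K.Jf q (pr (pr e n) u) v)) := by
        simpa [Fm.inst, recP] using j'
      exact k _ u s this.andE1 this.andE2

end Ctx

end Pool.Agent.HAEP
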