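import Pool.Agent.Lib.MP_ebcb3a_lc.Run

/-! Every term is computed by a program, provably in HA. -/

namespace Pool.Agent.HAEP

universe u

variable {C : Type u} {L : Lang}

namespace Ctx

variable {X : Ctx L C} {Δ : List (Fm L.F C)}

def tup : (n : ℕ) → (Fin n → Tm L.F C) → Tm L.F C
  | 0, _ => .zero
  | n + 1, ts => pr (tup n (Fin.tail ts)) (ts 0)

def tupP : (n : ℕ) → (Fin n → Tm L.F C) → Tm L.F C
  | 0, _ => kP .zero
  | n + 1, ts => pairP (tupP n (Fin.tail ts)) (ts 0)

def acc : ℕ → ℕ → Tm L.F C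
  | 0 => fun _ => kP .zero
  | n + 1 => scons sndP fun i => compP (acc n i) fstP

def ext : (n : ℕ) → (Fin n → Tm L.F C) → ℕ → Tm L.F C
  | 0, _ => fun _ => .zero
  | n + 1, ts => scons (ts 0) (ext n (Fin.tail ts))

theorem ev_scons {vp σ : ℕ → Tm L.F C} {e} (h : ∀ i, X.Ev Δ (vp i) e (σ i)) (x) :
    ∀ i, X.Ev Δ (scons sndP (fun i => compP (vp i) fstP) i) (pr e x) (scons x σ i)
  | 0 => ev_snd
  | i + 1 => Run.up (h i)

theorem ev_acc : ∀ (n) (ts : Fin n → Tm L.F C) i, X.Ev Δ (acc n i) (tup n ts) (ext n ts i)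
  | 0, _ => fun _ => ev_k
  | n + 1, _ => ev_scons (ev_acc n _) _

theorem ext_coe : ∀ (n) (ts : Fin n → Tm L.F C), (fun i : Fin n => ext n ts i) = ts
  | 0, _ => funext fun i => i.elim0
  | n + 1, ts => funext fun i => by
    refine Fin.cases rfl (fun i => ?_) i
    exact congrFun (ext_coe n (Fin.tail ts)) i

theorem ev_tup : ∀ (n) (ps ts : Fin n → Tm L.F C) (e), (∀ i, X.Ev Δ (ps i) e (ts i)) →
    X.Ev Δ (tupP n ps) e (tup n ts)
  | 0, _, _, _, _ => ev_k
  | n + 1, _, _, e, h => Ev.pair (ev_tup n _ _ e fun i => h i.succ) (h 0)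

variable (X) in
def Good {n} (f : L.F n) : Prop := ∃ P, ∀ Δ ts, X.Ev Δ P (tup n ts) (.app f ts)

theorem tm_prog' (rank : (n : ℕ) → L.F n → ℕ) (r : ℕ) (H : ∀ n f, rank n f < r → X.Good f)
    (vp : ℕ → Tm L.F C) (t : Tm L.F C) (ht : t.RankBelow rank r) :
    ∃ p, ∀ Δ e σ, (∀ i, X.Ev Δ (vp i) e (σ i)) → X.Ev Δ p e (t.subst σ) := by
  induction t with
  | var i => exact ⟨vp i, fun _ _ _ h => h i⟩
  | cst c => exact ⟨kP (.cst c), fun _ _ _ _ => ev_k⟩
  | zero => exact ⟨kP .zero, fun _ _ _ _ => ev_k⟩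
  | succ t ih =>
    obtain ⟨p, hp⟩ := ih ht
    exact ⟨compP succP p, fun Δ e σ h => Ev.comp (hp Δ e σ h) ev_succ⟩
  | add s t ihs iht =>
    obtain ⟨p, hp⟩ := ihs ht.1; obtain ⟨q, hq⟩ := iht ht.2
    exact ⟨compP addP (pairP p q), fun Δ e σ h => Ev.comp ((hp Δ e σ h).pair (hq Δ e σ h)) ev_add⟩
  | mul s t ihs iht =>
    obtain ⟨p, hp⟩ := ihs ht.1; obtain ⟨q, hq⟩ := iht ht.2
    exact ⟨compP mulP (pairP p q), fun Δ e σ h => Ev.comp ((hp Δ e σ h).pair (hq Δ e σ h)) ev_mul⟩
  | app f ts ih =>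
    choose ps hps using fun i => ih i (ht.2 i)
    obtain ⟨P, hP⟩ := H _ f ht.1
    exact ⟨compP P (tupP _ ps), fun Δ e σ h =>
      Ev.comp (ev_tup _ ps _ e fun i => hps i Δ e σ h) (hP Δ _)⟩

theorem rank_lift {rank : (n : ℕ) → L.F n → ℕ} {r} {t : Tm L.F Empty} (h : t.RankBelow rank r) :
    (t.lift : Tm L.F C).RankBelow rank r := by
  induction t with
  | cst c => exact c.elim
  | var => trivial
  | zero => trivial
  | succ t ih => exact ih h
  | add s t a b => exact ⟨a h.1, b h.2⟩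
  | mul s t a b => exact ⟨a h.1, b h.2⟩
  | app f ts ih => exact ⟨h.1, fun i => ih i (h.2 i)⟩

theorem cons_subst {n} (a : Tm L.F C) (s : Fin n → Tm L.F C) (σ) :
    (fun i => Tm.subst σ ((Fin.cons a s : Fin (n + 1) → Tm L.F C) i)) =
      Fin.cons (a.subst σ) (fun i => (s i).subst σ) := by
  funext i; refine Fin.cases rfl (fun i => rfl) i

theorem good_all : ∀ (r n) (f : L.F n), L.rank n f < r → X.Good f := by
  intro r
  induction r with
  | zero => intro n f h; exact absurd h (Nat.not_lt_zero _)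
  | succ r ih =>
    intro n f hr
    have H : ∀ m g, L.rank m g < L.rank n f → X.Good g := fun m g h => ih m g (by omega)
    have ok := L.ok n f
    generalize hd : L.defn n f = d at ok
    cases d with
    | expl t =>
      obtain ⟨p, hp⟩ := tm_prog' _ _ H (acc n) _ (rank_lift ok.2)
      refine ⟨p, fun Δ ts => (hp Δ _ _ (ev_acc n ts)).conseq fun Δ' v _ h => h.trans (.symm ?_)⟩
      simpa [ext_coe] using Pf.ax (Γ := Δ') (ext n ts) (X.hT (HAx.expl f t hd))
    | @prec n t₀ t₁ =>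
      obtain ⟨p, hp⟩ := tm_prog' _ _ H (acc n) _ (rank_lift ok.2.2.1)
      obtain ⟨q, hq⟩ := tm_prog' _ _ H (acc (n + 2)) _ (rank_lift ok.2.2.2)
      refine ⟨recP p q, fun Δ ts => ?_⟩
      have := Run.prec (X := X) (Δ := Δ) (p := p) (q := q) (e := tup n (Fin.tail ts))
        (.eq (.var 0) (.app f (Fin.cons (.var 1) fun i => (Fin.tail ts i).shift.shift)))
        ((hp Δ _ _ (ev_acc n _)).conseq fun Δ' v _ h => by
          have := Pf.ax (Γ := Δ') (ext n (Fin.tail ts)) (X.hT (HAx.prec_zero f t₀ t₁ hd))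
          simp only [Fm.subst_eq, Tm.subst_app, cons_subst, Tm.subst_var, ext_coe] at this
          simpa [cons_subst] using h.trans this.symm)
        (fun Δ' y u _ hu => (hq Δ' _ _
          (ev_acc (n + 2) (Fin.cons u (Fin.cons y (Fin.tail ts))))).conseq fun Δ'' v s h => by
          have := Pf.ax (Γ := Δ'') (scons y (ext n (Fin.tail ts)))
            (X.hT (HAx.prec_succ f t₀ t₁ hd))
          have e : (fun i : Fin (n + 1) => scons y (ext n (Fin.tail ts)) i) =
              Fin.cons y (Fin.tail ts) := ext_coe (n + 1) (Fin.cons y (Fin.tail ts))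
          simp only [Fm.subst_eq, Tm.subst_app, cons_subst, Tm.subst_var, scons_succ, ext_coe,
            Tm.subst_subst, scons_subst, e] at this
          have hu' : Pf X.T Δ'' (.eq u (.app f (Fin.cons y (Fin.tail ts)))) := by
            simpa [cons_subst] using hu.weaken s
          have h2 := Pf.congr_tm (T := X.T) (Γ := Δ'') t₁.lift
            (σ := scons u (scons y (ext n (Fin.tail ts))))
            (τ := scons (.app f (Fin.cons y (Fin.tail ts))) (scons y (ext n (Fin.tail ts))))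
            fun i => by
              cases i with
              | zero => exact hu'
              | succ i => exact .refl _
          simpa [cons_subst] using (h.trans h2).trans this.symm) (ts 0)
      simpa [cons_subst, Ev, tup] using this

theorem tm_prog (vp : ℕ → Tm L.F C) (t : Tm L.F C) :
    ∃ p, ∀ Δ e σ, (∀ i, X.Ev Δ (vp i) e (σ i)) → X.Ev Δ p e (t.subst σ) := by
  refine tm_prog' (fun _ _ => 0) 1 (fun n f _ => good_all _ n f (Nat.lt_succ_self _)) vp t ?_
  induction t with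
  | cst c => trivial
  | var => trivial
  | zero => trivial
  | succ t ih => exact ih
  | add s t a b => exact ⟨a, b⟩
  | mul s t a b => exact ⟨a, b⟩
  | app f ts ih => exact ⟨Nat.zero_lt_one, ih⟩

end Ctx

end Pool.Agent.HAEP
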